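import Pool.Agent.Helper80.GeoZeta.Err

/-!
# MP_f5ac68_nt: the Euler factors of the greedy set and the zeta quotient
-/

namespace Pool.Agent.Helper80.GeoZeta

open Finset GeoProg Filter Topology

/-- the Euler factor of the zeta quotient -/
noncomputable def ff (k p : ℕ) : ℝ := (1 - (1 / (p : ℝ)) ^ (k - 1)) / (1 - (1 / (p : ℝ)) ^ k)

lemma hasSum_res {x : ℝ} (hx0 : 0 ≤ x) (hx1 : x < 1) {k : ℕ} (hk : 0 < k) :
    HasSum (fun e : ℕ => if e % k = k - 1 then x ^ e else 0) (x ^ (k - 1) * (1 - x ^ k)⁻¹) := by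
  have hinj : Function.Injective (fun i : ℕ => (k - 1) + k * i) := by
    intro i j h
    dsimp only at h
    exact Nat.eq_of_mul_eq_mul_left hk (by omega)
  rw [← hinj.hasSum_iff]
  · have h := (hasSum_geometric_of_lt_one (pow_nonneg hx0 k)
      (pow_lt_one₀ hx0 hx1 hk.ne')).mul_left (x ^ (k - 1))
    have e : ((fun e : ℕ => if e % k = k - 1 then x ^ e else 0) ∘ fun i : ℕ => (k - 1) + k * i) =
        fun i : ℕ => x ^ (k - 1) * (x ^ k) ^ i := by
      funext i
      have h1 : ((k - 1) + k * i) % k = k - 1 := by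
        rw [Nat.add_mul_mod_self_left, Nat.mod_eq_of_lt (by omega)]
      simp only [Function.comp, h1, if_true]
      rw [pow_add, pow_mul]
    rw [e]
    exact h
  · intro e he
    rw [if_neg]
    intro h
    apply he
    refine ⟨e / k, ?_⟩
    have h1 := Nat.mod_add_div e k
    dsimp only
    omega

lemma hasSum_tail {x : ℝ} (hx0 : 0 ≤ x) (hx1 : x < 1) (m : ℕ) :
    HasSum (fun e : ℕ => if m ≤ e then x ^ e else 0) (x ^ m * (1 - x)⁻¹) := by
  have hinj : Function.Injective (fun i : ℕ => m + i) := by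
    intro i j h
    dsimp only at h
    omega
  rw [← hinj.hasSum_iff]
  · have h := (hasSum_geometric_of_lt_one hx0 hx1).mul_left (x ^ m)
    have e : ((fun e : ℕ => if m ≤ e then x ^ e else 0) ∘ fun i : ℕ => m + i) =
        fun i : ℕ => x ^ m * x ^ i := by
      funext i
      simp only [Function.comp]
      rw [if_pos (by omega), pow_add]
    rw [e]
    exact h
  · intro e he
    rw [if_neg]
    intro h
    apply he
    exact ⟨e - m, by dsimp only; omega⟩

open Classical in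
/-- the weight of the exponents outside the greedy set -/
noncomputable def nw (k p v : ℕ) : ℝ := if GreedyExp k v then 0 else (1 / (p : ℝ)) ^ v

lemma nw_hasSum (k : ℕ) {p : ℕ} (hp : p.Prime) :
    HasSum (nw k p) ((1 - 1 / (p : ℝ))⁻¹ - ∑' v, gw k p v) := by
  classical
  have h1 := hasSum_geometric_of_lt_one (inv_nonneg' p) (inv_prime_lt_one hp)
  have h2 := h1.sub (gw_summable k hp).hasSum
  have e : nw k p = fun v => (1 / (p : ℝ)) ^ v - gw k p v := by
    funext v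
    rw [nw, gw]
    split_ifs <;> ring
  rw [e]
  exact h2

lemma nw_nonneg (k p v : ℕ) : 0 ≤ nw k p v := by
  classical
  rw [nw]
  split_ifs
  · exact le_rfl
  · positivity

lemma ff_eq {k p : ℕ} (hk : 3 ≤ k) (hp : p.Prime) :
    (1 - 1 / (p : ℝ)) * ((1 - 1 / (p : ℝ))⁻¹ -
      (1 / (p : ℝ)) ^ (k - 1) * (1 - (1 / (p : ℝ)) ^ k)⁻¹) = ff k p := by
  have hx0 := inv_nonneg' p
  have hx1 := inv_prime_lt_one hp
  rw [ff]
  obtain ⟨j, rfl⟩ : ∃ j, k = j + 1 := ⟨k - 1, by omega⟩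
  rw [Nat.add_sub_cancel]
  set x := 1 / (p : ℝ) with hx
  have h1 : (1 : ℝ) - x ≠ 0 := by linarith
  have h2 : (1 : ℝ) - x ^ (j + 1) ≠ 0 := by
    have := pow_lt_one₀ hx0 hx1 (show j + 1 ≠ 0 by omega)
    linarith
  field_simp
  ring

/-- the greedy Euler factor is at most the zeta factor -/
lemma W_upper {k p : ℕ} (hk : 3 ≤ k) (hp : p.Prime) :
    (1 - 1 / (p : ℝ)) * ∑' v, gw k p v ≤ ff k p := by
  classical
  have hx0 := inv_nonneg' p
  have hx1 := inv_prime_lt_one hp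
  rw [← ff_eq hk hp]
  have h0 : (0 : ℝ) ≤ 1 - 1 / (p : ℝ) := by linarith
  refine mul_le_mul_of_nonneg_left ?_ h0
  have hnw := nw_hasSum k hp
  have hk0 : 0 < k := by omega
  -- a missing exponent in every block
  have hex : ∀ i : ℕ, ∃ e, k * i ≤ e ∧ e < k * i + k ∧ ¬ GreedyExp k e := by
    intro i
    by_contra hcon
    push Not at hcon
    refine apFree_greedy hk ⟨k * i, 1, one_pos, fun j hj => ?_⟩
    exact hcon (k * i + j * 1) (by omega) (by omega)
  choose e he1 he2 he3 using hex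
  have hinj : Function.Injective e := by
    intro i j h
    have a1 := he1 i
    have a2 := he2 i
    have b1 := he1 j
    have b2 := he2 j
    rw [h] at a1 a2
    rcases lt_trichotomy i j with hij | hij | hij
    · have : k * (i + 1) ≤ k * j := Nat.mul_le_mul_left k hij
      rw [Nat.mul_succ] at this
      omega
    · exact hij
    · have : k * (j + 1) ≤ k * i := Nat.mul_le_mul_left k hij
      rw [Nat.mul_succ] at this
      omega
  have hgeo := (hasSum_geometric_of_lt_one (pow_nonneg hx0 k)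
      (pow_lt_one₀ hx0 hx1 hk0.ne')).mul_left ((1 / (p : ℝ)) ^ (k - 1))
  have hle := Summable.tsum_le_tsum_of_inj e hinj (fun c _ => nw_nonneg k p c)
    (fun i => (by
      rw [nw, if_neg (he3 i), ← pow_mul, ← pow_add]
      exact pow_le_pow_of_le_one hx0 hx1.le (by
        have := he2 i
        omega) :
      (1 / (p : ℝ)) ^ (k - 1) * ((1 / (p : ℝ)) ^ k) ^ i ≤ nw k p (e i))) hgeo.summable hnw.summable
  rw [hgeo.tsum_eq, hnw.tsum_eq] at hle
  linarith

/-- the greedy Euler factor is close to the zeta factor -/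
lemma W_lower {k p : ℕ} (hk : 3 ≤ k) (hp : p.Prime) :
    ff k p - (1 / (p : ℝ)) ^ (k.minFac * (k - 1)) ≤ (1 - 1 / (p : ℝ)) * ∑' v, gw k p v := by
  classical
  have hx0 := inv_nonneg' p
  have hx1 := inv_prime_lt_one hp
  have h0 : (0 : ℝ) < 1 - 1 / (p : ℝ) := by linarith
  have hnw := nw_hasSum k hp
  have h1 := hasSum_res hx0 hx1 (k := k) (by omega)
  have h2 := hasSum_tail hx0 hx1 (k.minFac * (k - 1))
  have h3 := h1.add h2
  have h4 := hasSum_le (fun e => (by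
    rw [nw]
    have hpos : 0 ≤ (1 / (p : ℝ)) ^ e := pow_nonneg hx0 e
    by_cases hg : GreedyExp k e
    · rw [if_pos hg]
      split_ifs <;> linarith
    · rw [if_neg hg]
      by_cases he : k.minFac * (k - 1) ≤ e
      · rw [if_pos he]
        split_ifs <;> linarith
      · rw [if_pos (by
          by_contra h
          exact hg ((greedy_iff hk e (by omega)).2 h)), if_neg he, add_zero] :
    nw k p e ≤ (if e % k = k - 1 then (1 / (p : ℝ)) ^ e else 0) +
      (if k.minFac * (k - 1) ≤ e then (1 / (p : ℝ)) ^ e else 0))) hnw h3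
  rw [← ff_eq hk hp]
  have h5 : (1 - 1 / (p : ℝ)) * ((1 - 1 / (p : ℝ))⁻¹ -
      (1 / (p : ℝ)) ^ (k - 1) * (1 - (1 / (p : ℝ)) ^ k)⁻¹) - (1 / (p : ℝ)) ^ (k.minFac * (k - 1)) =
      (1 - 1 / (p : ℝ)) * ((1 - 1 / (p : ℝ))⁻¹ -
      (1 / (p : ℝ)) ^ (k - 1) * (1 - (1 / (p : ℝ)) ^ k)⁻¹ -
      (1 / (p : ℝ)) ^ (k.minFac * (k - 1)) * (1 - 1 / (p : ℝ))⁻¹) := by
    have h6 : (1 - 1 / (p : ℝ)) ≠ 0 := h0.ne'
    have h7 : (1 - 1 / (p : ℝ)) * (1 - 1 / (p : ℝ))⁻¹ = 1 := mul_inv_cancel₀ h6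
    linear_combination (1 / (p : ℝ)) ^ (k.minFac * (k - 1)) * h7
  rw [h5]
  refine mul_le_mul_of_nonneg_left ?_ h0.le
  linarith

lemma ff_nonneg {k p : ℕ} (hk : 3 ≤ k) (hp : p.Prime) : 0 ≤ ff k p := by
  have hx0 := inv_nonneg' p
  have hx1 := inv_prime_lt_one hp
  rw [ff]
  have h1 := pow_lt_one₀ hx0 hx1 (show k - 1 ≠ 0 by omega)
  have h2 := pow_lt_one₀ hx0 hx1 (show k ≠ 0 by omega)
  exact div_nonneg (by linarith) (by linarith)

lemma ff_le_one {k p : ℕ} (hk : 3 ≤ k) (hp : p.Prime) : ff k p ≤ 1 := by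
  have hx0 := inv_nonneg' p
  have hx1 := inv_prime_lt_one hp
  rw [ff]
  have h2 := pow_lt_one₀ hx0 hx1 (show k ≠ 0 by omega)
  rw [div_le_one (by linarith)]
  have := pow_le_pow_of_le_one hx0 hx1.le (show k - 1 ≤ k by omega)
  linarith

/-- the level `n` product of the greedy Euler factors -/
noncomputable def gg (k n : ℕ) : ℝ := delta n * ∏ p ∈ Nat.primesBelow n, ∑' v, gw k p v

lemma gg_eq (k n : ℕ) :
    gg k n = ∏ p ∈ Nat.primesBelow n, ((1 - 1 / (p : ℝ)) * ∑' v, gw k p v) := by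
  rw [gg, delta, prod_mul_distrib]

lemma W_nonneg (k p : ℕ) : 0 ≤ ∑' v, gw k p v := tsum_nonneg fun v => gw_nonneg k p v

lemma fW_nonneg (k : ℕ) {p : ℕ} (hp : p.Prime) : 0 ≤ (1 - 1 / (p : ℝ)) * ∑' v, gw k p v := by
  have := inv_prime_lt_one hp
  exact mul_nonneg (by linarith) (W_nonneg k p)

lemma fW_le_one {k p : ℕ} (hk : 3 ≤ k) (hp : p.Prime) :
    (1 - 1 / (p : ℝ)) * ∑' v, gw k p v ≤ 1 := (W_upper hk hp).trans (ff_le_one hk hp)

lemma gg_nonneg (k n : ℕ) : 0 ≤ gg k n := by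
  rw [gg_eq]
  exact prod_nonneg fun p hp => fW_nonneg k (Nat.prime_of_mem_primesBelow hp)

lemma gg_antitone {k : ℕ} (hk : 3 ≤ k) : Antitone (gg k) := by
  refine antitone_nat_of_succ_le fun n => ?_
  by_cases hn : n.Prime
  · have hpb : Nat.primesBelow (n + 1) = insert n (Nat.primesBelow n) :=
      (Nat.primesBelow_succ n).trans (if_pos hn)
    rw [gg_eq, gg_eq, hpb, prod_insert (Nat.notMem_primesBelow n)]
    refine mul_le_of_le_one_left ?_ (fW_le_one hk hn)
    exact prod_nonneg fun p hp => fW_nonneg k (Nat.prime_of_mem_primesBelow hp)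
  · have hpb : Nat.primesBelow (n + 1) = Nat.primesBelow n :=
      (Nat.primesBelow_succ n).trans (if_neg hn)
    rw [gg_eq, gg_eq, hpb]

/-- the limit of the level `n` products -/
lemma exists_gg {k : ℕ} (hk : 3 ≤ k) : ∃ g : ℝ, Tendsto (gg k) atTop (𝓝 g) ∧ ∀ n, g ≤ gg k n := by
  have hbdd : BddBelow (Set.range (gg k)) := ⟨0, by
    rintro _ ⟨n, rfl⟩
    exact gg_nonneg k n⟩
  exact ⟨⨅ n, gg k n, tendsto_atTop_ciInf (gg_antitone hk) hbdd, fun n => ciInf_le hbdd n⟩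

lemma prod_sub_le (s : Finset ℕ) (a b c : ℕ → ℝ) (ha : ∀ p ∈ s, 0 ≤ a p) (ha1 : ∀ p ∈ s, a p ≤ 1)
    (hb : ∀ p ∈ s, 0 ≤ b p) (hc : ∀ p ∈ s, 0 ≤ c p) (hc1 : ∀ p ∈ s, c p ≤ 1)
    (h : ∀ p ∈ s, a p - b p ≤ c p) : ∏ p ∈ s, a p - ∑ p ∈ s, b p ≤ ∏ p ∈ s, c p := by
  classical
  induction s using Finset.induction_on with
  | empty => simp
  | insert q s hq ih =>
    rw [prod_insert hq, prod_insert hq, sum_insert hq]
    have i0 := ih (fun p hp => ha p (mem_insert_of_mem hp)) (fun p hp => ha1 p (mem_insert_of_mem hp))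
      (fun p hp => hb p (mem_insert_of_mem hp)) (fun p hp => hc p (mem_insert_of_mem hp))
      (fun p hp => hc1 p (mem_insert_of_mem hp)) (fun p hp => h p (mem_insert_of_mem hp))
    have hqs := mem_insert_self q s
    have a0 := ha q hqs
    have a1 := ha1 q hqs
    have b0 := hb q hqs
    have hq' := h q hqs
    have C0 : 0 ≤ ∏ p ∈ s, c p := prod_nonneg fun p hp => hc p (mem_insert_of_mem hp)
    have C1 : ∏ p ∈ s, c p ≤ 1 := prod_le_one (fun p hp => hc p (mem_insert_of_mem hp))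
      fun p hp => hc1 p (mem_insert_of_mem hp)
    have B0 : 0 ≤ ∑ p ∈ s, b p := sum_nonneg fun p hp => hb p (mem_insert_of_mem hp)
    set A := ∏ p ∈ s, a p
    set C := ∏ p ∈ s, c p
    set S := ∑ p ∈ s, b p
    have e1 : (a q - b q) * C ≤ c q * C := mul_le_mul_of_nonneg_right hq' C0
    have e2 : a q * (A - S) ≤ a q * C := mul_le_mul_of_nonneg_left i0 a0
    nlinarith

lemma sum_pow_le {m : ℕ} (hm : 2 ≤ m) (n : ℕ) :
    ∑ p ∈ Nat.primesBelow n, (1 / (p : ℝ)) ^ m ≤ 4 / 2 ^ m := by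
  obtain ⟨j, rfl⟩ : ∃ j, m = j + 2 := ⟨m - 2, by omega⟩
  have h1 : ∀ p ∈ Nat.primesBelow n, (1 / (p : ℝ)) ^ (j + 2) ≤ (1 / 2) ^ j * (1 / (p : ℝ)) ^ 2 := by
    intro p hp
    have hx2 : 1 / (p : ℝ) ≤ 1 / 2 := by
      have : (2 : ℝ) ≤ p := by exact_mod_cast (Nat.prime_of_mem_primesBelow hp).two_le
      exact one_div_le_one_div_of_le (by norm_num) this
    rw [pow_add]
    exact mul_le_mul_of_nonneg_right (pow_le_pow_left₀ (inv_nonneg' p) hx2 j) (sq_nonneg _)
  refine (sum_le_sum h1).trans ?_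
  rw [← mul_sum]
  have h2 := sum_inv_sq n
  have h3 : (4 : ℝ) / 2 ^ (j + 2) = (1 / 2) ^ j * 1 := by
    rw [pow_add, one_div_pow]
    field_simp
    norm_num
  rw [h3]
  exact mul_le_mul_of_nonneg_left h2 (by positivity)

lemma gg_le_prod {k : ℕ} (hk : 3 ≤ k) (n : ℕ) : gg k n ≤ ∏ p ∈ Nat.primesBelow n, ff k p := by
  rw [gg_eq]
  exact prod_le_prod (fun p hp => fW_nonneg k (Nat.prime_of_mem_primesBelow hp))
    fun p hp => W_upper hk (Nat.prime_of_mem_primesBelow hp)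

lemma prod_le_gg {k : ℕ} (hk : 3 ≤ k) (n : ℕ) :
    ∏ p ∈ Nat.primesBelow n, ff k p - 4 / 2 ^ (k.minFac * (k - 1)) ≤ gg k n := by
  have hr2 : 2 ≤ k.minFac := (Nat.minFac_prime (by omega)).two_le
  have hm : 2 ≤ k.minFac * (k - 1) := by
    calc 2 = 2 * 1 := rfl
      _ ≤ k.minFac * (k - 1) := Nat.mul_le_mul hr2 (by omega)
  have h1 := prod_sub_le (Nat.primesBelow n) (ff k)
    (fun p => (1 / (p : ℝ)) ^ (k.minFac * (k - 1)))
    (fun p => (1 - 1 / (p : ℝ)) * ∑' v, gw k p v)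
    (fun p hp => ff_nonneg hk (Nat.prime_of_mem_primesBelow hp))
    (fun p hp => ff_le_one hk (Nat.prime_of_mem_primesBelow hp))
    (fun p _ => pow_nonneg (inv_nonneg' p) _)
    (fun p hp => fW_nonneg k (Nat.prime_of_mem_primesBelow hp))
    (fun p hp => fW_le_one hk (Nat.prime_of_mem_primesBelow hp))
    (fun p hp => W_lower hk (Nat.prime_of_mem_primesBelow hp))
  have h2 := sum_pow_le hm n
  rw [gg_eq]
  linarith

/-- the Euler product of zeta -/
lemma tendsto_zeta {k : ℕ} (hk : 2 ≤ k) :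
    Tendsto (fun n : ℕ => ∏ p ∈ Nat.primesBelow n, (1 - (1 / (p : ℝ)) ^ k)⁻¹) atTop
      (𝓝 (∑' n : ℕ, 1 / (n : ℝ) ^ k)) := by
  let f : ℕ →*₀ ℝ :=
    { toFun := fun n => (1 / (n : ℝ)) ^ k
      map_zero' := by
        simp only [Nat.cast_zero, div_zero]
        exact zero_pow (by omega)
      map_one' := by simp
      map_mul' := fun a b => by
        push_cast
        rw [← one_div_mul_one_div, mul_pow] }
  have hf : ∀ n : ℕ, f n = (1 / (n : ℝ)) ^ k := fun _ => rfl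
  have hs : Summable (fun n : ℕ => ‖f n‖) := by
    have h1 : Summable (fun n : ℕ => 1 / (n : ℝ) ^ k) :=
      Real.summable_one_div_nat_pow.2 (by omega)
    refine (summable_congr fun n => ?_).2 h1
    rw [hf, one_div_pow, Real.norm_of_nonneg (by positivity)]
  have h := EulerProduct.eulerProduct_completely_multiplicative hs
  simp only [hf] at h
  have e : ∑' n : ℕ, (1 / (n : ℝ)) ^ k = ∑' n : ℕ, 1 / (n : ℝ) ^ k :=
    tsum_congr fun n => by rw [one_div_pow]
  rw [e] at h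
  exact h

/-- the real value of the zeta function at `k` -/
noncomputable def zeta (k : ℕ) : ℝ := ∑' n : ℕ, 1 / (n : ℝ) ^ k

lemma zeta_pos {k : ℕ} (hk : 2 ≤ k) : 0 < zeta k := by
  have h1 : Summable (fun n : ℕ => 1 / (n : ℝ) ^ k) :=
    Real.summable_one_div_nat_pow.2 (by omega)
  have h2 := h1.le_tsum 1 fun j _ => by positivity
  rw [zeta]
  simp only [Nat.cast_one, one_pow, div_one] at h2
  linarith

lemma tendsto_ff {k : ℕ} (hk : 3 ≤ k) :
    Tendsto (fun n : ℕ => ∏ p ∈ Nat.primesBelow n, ff k p) atTop (𝓝 (zeta k / zeta (k - 1))) := by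
  have h1 := tendsto_zeta (k := k) (by omega)
  have h2 := tendsto_zeta (k := k - 1) (by omega)
  have h3 := h1.div h2 (zeta_pos (k := k - 1) (by omega)).ne'
  refine h3.congr fun n => ?_
  dsimp only [Pi.div_apply]
  rw [← prod_div_distrib]
  refine prod_congr rfl fun p _ => ?_
  rw [ff, div_inv_eq_mul, mul_comm, ← div_eq_mul_inv]

/-- Rankin's Euler product and the zeta quotient -/
theorem gg_bounds {k : ℕ} (hk : 3 ≤ k) {g : ℝ} (hg : Tendsto (gg k) atTop (𝓝 g)) :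
    zeta k / zeta (k - 1) - 4 / 2 ^ (k.minFac * (k - 1)) ≤ g ∧ g ≤ zeta k / zeta (k - 1) := by
  have h := tendsto_ff hk
  refine ⟨?_, le_of_tendsto_of_tendsto' hg h (gg_le_prod hk)⟩
  exact le_of_tendsto_of_tendsto' (h.sub_const _) hg (prod_le_gg hk)

end Pool.Agent.Helper80.GeoZeta
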