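import Pool.Agent.Helper7.GeoProg.T2
import Pool.Agent.Helper7.GeoProg.P_B
import Pool.Agent.Helper80.GeoZeta.Zeta

/-!
# MP_f5ac68_nt: Rankin's greedy set has a density
-/

namespace Pool.Agent.Helper80.GeoZeta

open Finset GeoProg Filter Topology

/-- the density of a set of products of a finite set of smooth numbers and a set of rough
numbers -/
theorem density_mul (hD1 : StmtD1) {n : ℕ} {Q : Set ℕ} {D : ℝ} {B : Finset ℕ}
    (hQ : ∀ m ∈ Q, 0 < m) (hrough : ∀ m ∈ Q, Rough n m) (hdens : HasDensity Q D)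
    (hB : SmoothFin n B) :
    HasDensity {x | ∃ m ∈ Q, ∃ s ∈ (B : Set ℕ), x = s * m} (D * hsum B) := by
  classical
  have hcount : ∀ N, count {x | ∃ m ∈ Q, ∃ s ∈ (B : Set ℕ), x = s * m} N =
      ∑ s ∈ B, count Q (N / s) := by
    intro N
    rw [PB.count_eq_fin]
    have h1 : PB.fin {x | ∃ m ∈ Q, ∃ s ∈ (B : Set ℕ), x = s * m} N =
        B.biUnion (fun s => (PB.fin Q (N / s)).image (fun m => s * m)) := by
      ext x
      rw [PB.mem_fin, Finset.mem_biUnion]
      constructor
      · rintro ⟨⟨hx1, hxN⟩, m, hm, s, hs, rfl⟩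
        refine ⟨s, hs, Finset.mem_image.mpr ⟨m, PB.mem_fin.mpr ⟨⟨hQ m hm, ?_⟩, hm⟩, rfl⟩⟩
        rw [Nat.le_div_iff_mul_le (PB.smooth_pos (hB s hs)), mul_comm]
        exact hxN
      · rintro ⟨s, hs, hx⟩
        obtain ⟨m, hm, rfl⟩ := Finset.mem_image.mp hx
        obtain ⟨⟨hm1, hmN⟩, hmQ⟩ := PB.mem_fin.mp hm
        have hspos := PB.smooth_pos (hB s hs)
        refine ⟨⟨Nat.mul_pos hspos hm1, ?_⟩, m, hmQ, s, hs, rfl⟩
        rw [Nat.le_div_iff_mul_le hspos, mul_comm] at hmN
        exact hmN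
    rw [h1, Finset.card_biUnion]
    · refine Finset.sum_congr rfl fun s hs => ?_
      rw [PB.count_eq_fin, Finset.card_image_of_injective]
      intro a b hab
      exact Nat.eq_of_mul_eq_mul_left (PB.smooth_pos (hB s hs)) hab
    · intro s hs t ht hst
      rw [Function.onFun, Finset.disjoint_left]
      intro x hx hx'
      obtain ⟨m, hm, rfl⟩ := Finset.mem_image.mp hx
      obtain ⟨m', hm', hmm⟩ := Finset.mem_image.mp hx'
      have := (hD1 n).2 t s m' m (hB t ht) (hB s hs) (hrough _ (PB.mem_fin.mp hm').2)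
        (hrough _ (PB.mem_fin.mp hm).2) hmm
      exact hst this.1.symm
  unfold HasDensity hsum
  rw [Finset.mul_sum]
  have h2 : (fun N : ℕ => (count {x | ∃ m ∈ Q, ∃ s ∈ (B : Set ℕ), x = s * m} N : ℝ) / N) =
      fun N : ℕ => ∑ s ∈ B, (count Q (N / s) : ℝ) / N := by
    funext N
    rw [hcount N]
    push_cast
    rw [Finset.sum_div]
  rw [h2]
  exact tendsto_finsetSum _ fun s hs => PB.tendsto_count_div hdens (PB.smooth_pos (hB s hs))

/-- these sets are inside Rankin's set -/
lemma sub_Gset {k n : ℕ} {B : Finset ℕ} (hB : SmoothFin n B)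
    (hBG : ∀ s ∈ B, s ∈ Gset k) :
    {x | ∃ m ∈ Qset k n, ∃ s ∈ (B : Set ℕ), x = s * m} ⊆ Gset k := by
  rintro x ⟨m, hm, s, hs, rfl⟩
  have hs' : s ∈ B := hs
  have hsG := hBG s hs'
  have hs0 : s ≠ 0 := Nat.ne_zero_of_mem_smoothNumbers (hB s hs')
  have hm0 : m ≠ 0 := hm.1.1.ne'
  refine ⟨Nat.pos_of_ne_zero (mul_ne_zero hs0 hm0), fun p hp => ?_⟩
  rw [Nat.factorization_mul hs0 hm0, Finsupp.add_apply]
  by_cases hpn : p < n
  · have h1 : m.factorization p = 0 := by
      refine Nat.factorization_eq_zero_of_not_dvd fun hd => ?_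
      have := hm.1.2 p hp hd
      omega
    rw [h1, add_zero]
    exact hsG.2 p hp
  · have h1 : s.factorization p = 0 := by
      refine Nat.factorization_eq_zero_of_not_dvd fun hd => hpn ?_
      exact Nat.mem_smoothNumbers'.1 (hB s hs') p hp hd
    rw [h1, zero_add]
    apply greedyExp_of_lt
    by_contra hcon
    refine hm.2 p hp ?_
    rw [hp.pow_dvd_iff_le_factorization hm0]
    omega

/-- Rankin's set has the density `lim gg k n`. -/
theorem hasDensity_Gset (hD1 : StmtD1) (hQ : StmtQ) (hQt : StmtQt) (hS : StmtS) (hP1 : StmtP1)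
    (hP2 : StmtP2) {k : ℕ} (hk : 3 ≤ k) {g : ℝ} (hg : Tendsto (gg k) atTop (𝓝 g))
    (hgn : ∀ n, g ≤ gg k n) : HasDensity (Gset k) g := by
  classical
  unfold HasDensity
  rw [tendsto_order]
  constructor
  · intro c hc
    -- choose `n`
    have hlim : Tendsto (fun n : ℕ => (1 - 1 / ((n : ℝ) - 1)) * ((g + c) / 2)) atTop
        (𝓝 ((g + c) / 2)) := by
      have h1 : Tendsto (fun n : ℕ => (n : ℝ) - 1) atTop atTop :=
        tendsto_atTop_add_const_right _ _ tendsto_natCast_atTop_atTop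
      have h2 : Tendsto (fun n : ℕ => 1 / ((n : ℝ) - 1)) atTop (𝓝 0) :=
        tendsto_const_nhds.div_atTop h1
      have h3 := (tendsto_const_nhds (x := (1 : ℝ))).sub h2
      rw [sub_zero] at h3
      have h4 := h3.mul_const ((g + c) / 2)
      rwa [one_mul] at h4
    obtain ⟨n, hn1, hn2⟩ :=
      (((tendsto_order.1 hlim).1 c (by linarith)).and (eventually_ge_atTop 3)).exists
    obtain ⟨hQG, D, hD, hDl, hDu⟩ := qset_density hQ hQt hS hk (n := n) (by omega)
    obtain ⟨hδ0, hδ1, _⟩ := hS n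
    have hn3 : (3 : ℝ) ≤ n := by exact_mod_cast hn2
    have hhalf : 1 / ((n : ℝ) - 1) ≤ 1 / 2 := by
      apply one_div_le_one_div_of_le (by norm_num)
      linarith
    -- the finite set
    obtain ⟨T, hT⟩ := hP2 k n hk ((g - c) / 2) (by linarith)
    set B : Finset ℕ := (Finset.range (T + 1)).filter
      (fun s => s ∈ Nat.smoothNumbers n ∧ s ∈ Gset k) with hB
    have hmem : ∀ s : ℕ, s ∈ B ↔ (s ≤ T ∧ s ∈ Nat.smoothNumbers n ∧ s ∈ Gset k) := by
      intro s
      rw [hB, Finset.mem_filter, Finset.mem_range, Nat.lt_succ_iff]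
    have hBW := hT T le_rfl B hmem
    have hBs : SmoothFin n B := fun b hb => ((hmem b).1 hb).2.1
    have hdens := density_mul hD1 (B := B) (fun m hm => hm.1.1) (fun m hm => hm.1) hD hBs
    have hsub := sub_Gset hBs (fun s hs => ((hmem s).1 hs).2.2)
    have hgw : ∏ p ∈ Nat.primesBelow n,
        ∑' a : ℕ, {a | GreedyExp k a}.indicator (fun a : ℕ => 1 / (p : ℝ) ^ a) a =
        ∏ p ∈ Nat.primesBelow n, ∑' v, gw k p v :=
      prod_congr rfl fun p _ => by rw [← gw_indicator]
    rw [hgw] at hBW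
    have hval : c < D * hsum B := by
      by_cases hgc : (g + c) / 2 ≤ 0
      · have h0 : 0 ≤ D := ge_of_tendsto' hD (fun N => ratio_nonneg _ N)
        have h1 := hsum_nonneg B
        have h2 : 0 ≤ D * hsum B := mul_nonneg h0 h1
        linarith
      · push Not at hgc
        have h1 : (g + c) / 2 ≤ delta n * hsum B := by
          have h2 : delta n * (∏ p ∈ Nat.primesBelow n, ∑' v, gw k p v - (g - c) / 2) ≤
              delta n * hsum B := mul_le_mul_of_nonneg_left hBW hδ0.le
          have h3 := hgn n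
          rw [gg] at h3
          have h4 : delta n * ((g - c) / 2) ≤ (g - c) / 2 :=
            mul_le_of_le_one_left (by linarith) hδ1
          rw [mul_sub] at h2
          linarith
        have h5 : (1 - 1 / ((n : ℝ) - 1)) * ((g + c) / 2) ≤
            (1 - 1 / ((n : ℝ) - 1)) * (delta n * hsum B) :=
          mul_le_mul_of_nonneg_left h1 (by linarith)
        have h6 : delta n * (1 - 1 / ((n : ℝ) - 1)) * hsum B ≤ D * hsum B :=
          mul_le_mul_of_nonneg_right hDl (hsum_nonneg B)
        have h7 : (1 - 1 / ((n : ℝ) - 1)) * (delta n * hsum B) =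
            delta n * (1 - 1 / ((n : ℝ) - 1)) * hsum B := by ring
        linarith
    have hev := (tendsto_order.1 hdens).1 c hval
    filter_upwards [hev] with N hN
    refine hN.trans_le ?_
    have h1 := count_mono hsub N
    have h2 : (count {x | ∃ m ∈ Qset k n, ∃ s ∈ (B : Set ℕ), x = s * m} N : ℝ) ≤
        count (Gset k) N := by exact_mod_cast h1
    exact div_le_div_of_nonneg_right h2 (Nat.cast_nonneg N)
  · intro c hc
    have hup : upperDensity (Gset k) ≤ g := by
      refine ge_of_tendsto' hg fun n => ?_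
      have h1 := hP1 n (fun _ => {a | GreedyExp k a})
      have hgw : ∏ p ∈ Nat.primesBelow n,
          ∑' a : ℕ, {a | GreedyExp k a}.indicator (fun a : ℕ => 1 / (p : ℝ) ^ a) a =
          ∏ p ∈ Nat.primesBelow n, ∑' v, gw k p v :=
        prod_congr rfl fun p _ => by rw [← gw_indicator]
      rw [hgw] at h1
      exact h1
    unfold upperDensity at hup
    exact eventually_lt_of_limsup_lt (lt_of_le_of_lt hup hc) (ratio_bdd _)

end Pool.Agent.Helper80.GeoZeta
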