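import Pool.Agent.Helper80.GeoZeta.Level

/-!
# MP_f5ac68_nt: bounds for the error terms
-/

namespace Pool.Agent.Helper80.GeoZeta

open Finset GeoProg

/-- the recursion for `e3` -/
lemma e3_insert (y : ℕ → ℝ) {a : ℕ} {s : Finset ℕ} (ha : a ∉ s) :
    e3 y (insert a s) = e3 y s + y a * (es y 2 s + e3 y s) := by
  have f0 := prod_eq_e3 y s
  have f1 := prod_eq_e3 y (insert a s)
  have e1 := es_insert y 0 ha
  have e2 := es_insert y 1 ha
  rw [es_zero, zero_add, mul_one] at e1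
  rw [show 1 + 1 = 2 from rfl] at e2
  rw [prod_insert ha, f0, e1, e2] at f1
  linarith

/-- `e3` is controlled by its terms with three elements -/
lemma e3_le (y : ℕ → ℝ) (hy : ∀ p, 0 ≤ y p) (s : Finset ℕ) :
    e3 y s ≤ es y 3 s * ∏ p ∈ s, (1 + y p) := by
  induction s using Finset.induction_on with
  | empty =>
    have h1 : e3 y ∅ = 0 := by
      have f0 := prod_eq_e3 y ∅
      rw [es_empty_succ, es_empty_succ, prod_empty] at f0
      linarith
    rw [h1, es_empty_succ, zero_mul]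
  | insert a s ha ih =>
    rw [e3_insert y ha, es_insert y 2 ha, prod_insert ha]
    have hP : 1 ≤ ∏ p ∈ s, (1 + y p) := by
      have : ∏ p ∈ s, (1 : ℝ) ≤ ∏ p ∈ s, (1 + y p) :=
        prod_le_prod (fun _ _ => zero_le_one) fun p _ => by
          have := hy p
          linarith
      rwa [prod_const_one] at this
    have h2 := es_nonneg y hy 2 s
    have h3 := es_nonneg y hy 3 s
    have ha0 := hy a
    set P := ∏ p ∈ s, (1 + y p) with hPdef
    have e1 : (es y 3 s + y a * es y 2 s) * ((1 + y a) * P) =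
        (1 + y a) * (es y 3 s * P) + y a * es y 2 s * ((1 + y a) * P) := by ring
    rw [e1]
    have i1 : (1 + y a) * e3 y s ≤ (1 + y a) * (es y 3 s * P) :=
      mul_le_mul_of_nonneg_left ih (by linarith)
    have i2 : y a * es y 2 s * 1 ≤ y a * es y 2 s * ((1 + y a) * P) := by
      refine mul_le_mul_of_nonneg_left ?_ (mul_nonneg ha0 h2)
      nlinarith
    nlinarith

/-- the reciprocals of the squares of the primes -/
lemma sum_inv_sq (n : ℕ) : ∑ p ∈ Nat.primesBelow n, (1 / (p : ℝ)) ^ 2 ≤ 1 := by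
  have h1 : Nat.primesBelow n ⊆ Ioc 1 (n + 1) := by
    intro p hp
    have h2 := (Nat.prime_of_mem_primesBelow hp).two_le
    have h3 := Nat.lt_of_mem_primesBelow hp
    exact mem_Ioc.2 ⟨by omega, by omega⟩
  have h2 : ∑ p ∈ Nat.primesBelow n, (1 / (p : ℝ)) ^ 2 ≤ ∑ i ∈ Ioc 1 (n + 1), ((i : ℝ) ^ 2)⁻¹ := by
    refine le_trans (sum_le_sum_of_subset_of_nonneg h1 fun i _ _ => by positivity) ?_
    refine le_of_eq (sum_congr rfl fun i _ => ?_)
    rw [one_div_pow, one_div]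
  refine h2.trans ?_
  have h3 := sum_Ioc_inv_sq_le_sub (α := ℝ) (k := 1) (n := n + 1) one_ne_zero (by omega)
  refine h3.trans ?_
  have : (0 : ℝ) ≤ (((n + 1 : ℕ) : ℝ))⁻¹ := by positivity
  rw [Nat.cast_one, inv_one]
  linarith

lemma pred_le_two_pow (j : ℕ) : ((j : ℝ) + 2) ≤ 2 * 2 ^ j := by
  induction j with
  | zero => norm_num
  | succ j ih =>
    push_cast
    rw [pow_succ]
    linarith [show (0 : ℝ) ≤ j from Nat.cast_nonneg j]

lemma tt_le {k p : ℕ} (hk : 3 ≤ k) (hp : p.Prime) : tt k p ≤ 2 * (1 / (p : ℝ)) ^ 2 := by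
  obtain ⟨j, rfl⟩ : ∃ j, k = j + 3 := ⟨k - 3, by omega⟩
  have hx0 := inv_nonneg' p
  have hx2 : 1 / (p : ℝ) ≤ 1 / 2 := by
    have : (2 : ℝ) ≤ p := by exact_mod_cast hp.two_le
    exact one_div_le_one_div_of_le (by norm_num) this
  rw [tt, show j + 3 - 1 = j + 2 by omega, pow_add]
  set x := 1 / (p : ℝ) with hx
  have h1 : x ^ j ≤ (1 / 2) ^ j := pow_le_pow_left₀ hx0 hx2 j
  have h2 := pred_le_two_pow j
  have h3 : ((j : ℝ) + 2) * (1 / 2) ^ j ≤ 2 := by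
    rw [one_div_pow, mul_one_div, div_le_iff₀ (by positivity)]
    exact h2
  have h4 : (((j + 3 : ℕ) : ℝ) - 1) = (j : ℝ) + 2 := by
    push_cast
    ring
  rw [h4, ← mul_assoc]
  refine mul_le_mul_of_nonneg_right ?_ (sq_nonneg x)
  have h5 : (0 : ℝ) ≤ (j : ℝ) + 2 := by positivity
  exact (mul_le_mul_of_nonneg_left h1 h5).trans h3

lemma prod_tt_le {k : ℕ} (hk : 3 ≤ k) (n : ℕ) :
    ∏ p ∈ Nat.primesBelow n, (1 + tt k p) ≤ 8 := by
  have h1 : ∏ p ∈ Nat.primesBelow n, (1 + tt k p) ≤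
      ∏ p ∈ Nat.primesBelow n, Real.exp (2 * (1 / (p : ℝ)) ^ 2) := by
    refine prod_le_prod (fun p _ => by
      have := tt_nonneg hk p
      linarith) fun p hp => ?_
    have h2 := tt_le hk (Nat.prime_of_mem_primesBelow hp)
    have h3 := Real.add_one_le_exp (2 * (1 / (p : ℝ)) ^ 2)
    linarith
  rw [← Real.exp_sum, ← mul_sum] at h1
  have h4 := sum_inv_sq n
  have h5 : Real.exp (2 * ∑ p ∈ Nat.primesBelow n, (1 / (p : ℝ)) ^ 2) ≤ Real.exp 2 :=
    Real.exp_le_exp.2 (by linarith)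
  have h6 : Real.exp 2 ≤ 8 := by
    have h7 : Real.exp 2 = Real.exp 1 * Real.exp 1 := by
      rw [← Real.exp_add]
      norm_num
    have h8 := Real.exp_one_lt_d9
    have h9 := Real.exp_pos 1
    rw [h7]
    nlinarith
  exact h1.trans (h5.trans h6)

/-- the product of three different primes is at least `30` -/
lemma thirty_le {x y z : ℕ} (hx : x.Prime) (hy : y.Prime) (hz : z.Prime) (hxy : x ≠ y)
    (hxz : x ≠ z) (hyz : y ≠ z) : 30 ≤ x * y * z := by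
  have key : ∀ w : ℕ, w.Prime → w = 2 ∨ w = 3 ∨ 5 ≤ w := by
    intro w hw
    have h1 := hw.two_le
    by_contra hcon
    push Not at hcon
    have h2 : w = 4 := by omega
    rw [h2] at hw
    exact absurd hw (by norm_num)
  have mulle : ∀ a b c x y z : ℕ, a ≤ x → b ≤ y → c ≤ z → a * b * c ≤ x * y * z :=
    fun a b c x y z h1 h2 h3 => Nat.mul_le_mul (Nat.mul_le_mul h1 h2) h3
  rcases key x hx with h1 | h1 | h1 <;> rcases key y hy with h2 | h2 | h2 <;>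
    rcases key z hz with h3 | h3 | h3 <;> try omega
  · exact (by norm_num : 30 ≤ 2 * 3 * 5).trans (mulle 2 3 5 x y z h1.ge h2.ge h3)
  · exact (by norm_num : 30 ≤ 2 * 5 * 3).trans (mulle 2 5 3 x y z h1.ge h2 h3.ge)
  · exact (by norm_num : 30 ≤ 2 * 5 * 5).trans (mulle 2 5 5 x y z h1.ge h2 h3)
  · exact (by norm_num : 30 ≤ 3 * 2 * 5).trans (mulle 3 2 5 x y z h1.ge h2.ge h3)
  · exact (by norm_num : 30 ≤ 3 * 5 * 2).trans (mulle 3 5 2 x y z h1.ge h2 h3.ge)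
  · exact (by norm_num : 30 ≤ 3 * 5 * 5).trans (mulle 3 5 5 x y z h1.ge h2 h3)
  · exact (by norm_num : 30 ≤ 5 * 2 * 3).trans (mulle 5 2 3 x y z h1 h2.ge h3.ge)
  · exact (by norm_num : 30 ≤ 5 * 2 * 5).trans (mulle 5 2 5 x y z h1 h2.ge h3)
  · exact (by norm_num : 30 ≤ 5 * 3 * 2).trans (mulle 5 3 2 x y z h1 h2.ge h3.ge)
  · exact (by norm_num : 30 ≤ 5 * 3 * 5).trans (mulle 5 3 5 x y z h1 h2.ge h3)
  · exact (by norm_num : 30 ≤ 5 * 5 * 2).trans (mulle 5 5 2 x y z h1 h2 h3.ge)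
  · exact (by norm_num : 30 ≤ 5 * 5 * 3).trans (mulle 5 5 3 x y z h1 h2 h3.ge)
  · exact (by norm_num : 30 ≤ 5 * 5 * 5).trans (mulle 5 5 5 x y z h1 h2 h3)

/-- the terms with three primes -/
lemma es_tt_le {k : ℕ} (hk : 3 ≤ k) (n : ℕ) :
    es (tt k) 3 (Nat.primesBelow n) ≤ ((k : ℝ) - 1) ^ 3 * ((1 / 30) ^ (k - 3) * (1 / 29)) := by
  classical
  obtain ⟨j, rfl⟩ : ∃ j, k = j + 3 := ⟨k - 3, by omega⟩
  have hk1 : (0 : ℝ) ≤ ((j + 3 : ℕ) : ℝ) - 1 := by
    push_cast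
    linarith [show (0 : ℝ) ≤ j from Nat.cast_nonneg j]
  set s := Nat.primesBelow n with hs
  have hterm : ∀ T ∈ s.powersetCard 3, ∏ p ∈ T, tt (j + 3) p =
      (((j + 3 : ℕ) : ℝ) - 1) ^ 3 * (1 / ((∏ p ∈ T, p : ℕ) : ℝ)) ^ (j + 2) := by
    intro T hT
    have hT3 := (mem_powersetCard.1 hT).2
    simp only [tt]
    rw [prod_mul_distrib, prod_const, hT3, show j + 3 - 1 = j + 2 by omega, prod_pow]
    congr 2
    push_cast
    rw [one_div, ← prod_inv_distrib]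
    exact prod_congr rfl fun p _ => by rw [one_div]
  have h1 : es (tt (j + 3)) 3 s = (((j + 3 : ℕ) : ℝ) - 1) ^ 3 *
      ∑ T ∈ s.powersetCard 3, (1 / ((∏ p ∈ T, p : ℕ) : ℝ)) ^ (j + 2) := by
    rw [es, sum_congr rfl hterm, mul_sum]
  rw [h1]
  refine mul_le_mul_of_nonneg_left ?_ (pow_nonneg hk1 3)
  rw [Nat.add_sub_cancel]
  have hprime : ∀ T ∈ s.powersetCard 3, ∀ p ∈ T, p.Prime := fun T hT p hp =>
    Nat.prime_of_mem_primesBelow ((mem_powersetCard.1 hT).1 hp)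
  have hinj : Set.InjOn (fun T : Finset ℕ => ∏ p ∈ T, p) (s.powersetCard 3 : Set (Finset ℕ)) := by
    intro T hT T' hT' h
    have h0 : ∀ U ∈ s.powersetCard 3, U = (∏ p ∈ U, p).primeFactors := fun U hU => by
      rw [Nat.primeFactors_prod (hprime U hU)]
    dsimp only at h
    rw [h0 T hT, h0 T' hT', h]
  have h30 : ∀ T ∈ s.powersetCard 3, 30 ≤ ∏ p ∈ T, p := by
    intro T hT
    obtain ⟨x, y, z, hxy, hxz, hyz, rfl⟩ := card_eq_three.1 (mem_powersetCard.1 hT).2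
    have hp := hprime _ hT
    rw [prod_insert (by
      rw [mem_insert, mem_singleton, not_or]
      exact ⟨hxy, hxz⟩), prod_insert (by rwa [mem_singleton]), prod_singleton, ← mul_assoc]
    exact thirty_le (hp x (by simp)) (hp y (by simp)) (hp z (by simp)) hxy hxz hyz
  obtain ⟨M, hM⟩ : ∃ M : ℕ, ∀ T ∈ s.powersetCard 3, ∏ p ∈ T, p ≤ M :=
    ⟨(s.powersetCard 3).sup (fun T => ∏ p ∈ T, p), fun T hT =>
      le_sup (f := fun T : Finset ℕ => ∏ p ∈ T, p) hT⟩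
  have h2 : ∑ T ∈ s.powersetCard 3, (1 / ((∏ p ∈ T, p : ℕ) : ℝ)) ^ (j + 2) =
      ∑ m ∈ (s.powersetCard 3).image (fun T => ∏ p ∈ T, p), (1 / (m : ℝ)) ^ (j + 2) := by
    rw [sum_image hinj]
  rw [h2]
  have h3 : ∀ m ∈ (s.powersetCard 3).image (fun T => ∏ p ∈ T, p),
      (1 / (m : ℝ)) ^ (j + 2) ≤ (1 / 30) ^ j * ((m : ℝ) ^ 2)⁻¹ := by
    intro m hm
    obtain ⟨T, hT, rfl⟩ := mem_image.1 hm
    have h4 := h30 T hT
    set m := ∏ p ∈ T, p with hmdef
    have h5 : (30 : ℝ) ≤ m := by exact_mod_cast h4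
    rw [pow_add, one_div_pow (m : ℝ) 2, one_div ((m : ℝ) ^ 2)]
    refine mul_le_mul_of_nonneg_right ?_ (by positivity)
    exact pow_le_pow_left₀ (by positivity) (one_div_le_one_div_of_le (by norm_num) h5) j
  refine (sum_le_sum h3).trans ?_
  rw [← mul_sum]
  refine mul_le_mul_of_nonneg_left ?_ (by positivity)
  have h4 : (s.powersetCard 3).image (fun T => ∏ p ∈ T, p) ⊆ Ioc 29 (M + 29) := by
    intro m hm
    obtain ⟨T, hT, rfl⟩ := mem_image.1 hm
    have h5 := h30 T hT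
    have h6 := hM T hT
    exact mem_Ioc.2 ⟨by omega, by omega⟩
  refine (sum_le_sum_of_subset_of_nonneg h4 fun i _ _ => by positivity).trans ?_
  have h5 := sum_Ioc_inv_sq_le_sub (α := ℝ) (k := 29) (n := M + 29) (by norm_num) (by omega)
  refine h5.trans ?_
  have h6 : (0 : ℝ) ≤ (((M + 29 : ℕ) : ℝ))⁻¹ := by positivity
  have h7 : ((29 : ℕ) : ℝ)⁻¹ = 1 / 29 := by norm_num
  rw [h7]
  linarith

/-- the basis of the error term -/
def bb (k : ℕ) : ℕ := min 30 (3 * 2 ^ k.minFac)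

lemma bb_le (k : ℕ) : bb k ≤ 30 := min_le_left _ _

lemma bb_pos (k : ℕ) : 0 < bb k := by
  rw [bb]
  exact lt_min (by norm_num) (by positivity)

/-- the pairs -/
lemma pairs_le {k : ℕ} (hk : 3 ≤ k) (n : ℕ) :
    ∑ p ∈ Nat.primesBelow n, ∑ q ∈ (Nat.primesBelow n).erase p, tz k p * tt k q ≤
      ((k : ℝ) - 1) ^ 2 * (2700 * (1 / (bb k : ℝ)) ^ k) := by
  classical
  obtain ⟨j, rfl⟩ : ∃ j, k = j + 3 := ⟨k - 3, by omega⟩
  have hk1 : (0 : ℝ) ≤ ((j + 3 : ℕ) : ℝ) - 1 := by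
    push_cast
    linarith [show (0 : ℝ) ≤ j from Nat.cast_nonneg j]
  set r := (j + 3).minFac with hr
  have hr2 : 2 ≤ r := (Nat.minFac_prime (by omega)).two_le
  set b : ℝ := (bb (j + 3) : ℝ) with hb
  have hb0 : 0 < b := by
    rw [hb]
    exact_mod_cast bb_pos _
  have hb30 : b ≤ 30 := by
    rw [hb]
    exact_mod_cast bb_le _
  have hb3 : b ≤ 3 * 2 ^ r := by
    rw [hb]
    have : bb (j + 3) ≤ 3 * 2 ^ r := min_le_right _ _
    exact_mod_cast this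
  have hterm : ∀ p ∈ Nat.primesBelow n, ∀ q ∈ (Nat.primesBelow n).erase p,
      tz (j + 3) p * tt (j + 3) q ≤ (((j + 3 : ℕ) : ℝ) - 1) ^ 2 * (2700 * (1 / b) ^ (j + 3)) *
        ((1 / (p : ℝ)) ^ 2 * (1 / (q : ℝ)) ^ 2) := by
    intro p hp q hq
    have hpp := Nat.prime_of_mem_primesBelow hp
    have hqq := Nat.prime_of_mem_primesBelow (mem_erase.1 hq).2
    have hne := (mem_erase.1 hq).1
    have hp2 : (2 : ℝ) ≤ p := by exact_mod_cast hpp.two_le
    have hq2 : (2 : ℝ) ≤ q := by exact_mod_cast hqq.two_le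
    rw [tz, tt, ← hr, show j + 3 - 1 = j + 2 by omega, pow_mul]
    set x := 1 / (p : ℝ) with hx
    set y := 1 / (q : ℝ) with hy
    have hx0 : 0 ≤ x := inv_nonneg' p
    have hy0 : 0 ≤ y := inv_nonneg' q
    have hx2 : x ≤ 1 / 2 := one_div_le_one_div_of_le (by norm_num) hp2
    -- `x ^ r * y ≤ 1 / b`
    have hxy : x ^ r * y ≤ 1 / b := by
      have h1 : b ≤ (p : ℝ) ^ r * q := by
        refine hb3.trans ?_
        by_cases h2 : p = 2
        · have hq3 : (3 : ℝ) ≤ q := by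
            have h3 : 3 ≤ q := by
              have := hqq.two_le
              omega
            exact_mod_cast h3
          rw [h2, mul_comm]
          push_cast
          exact mul_le_mul_of_nonneg_left hq3 (by positivity)
        · have hp3 : (3 : ℝ) ≤ p := by
            have h3 : 3 ≤ p := by
              have := hpp.two_le
              omega
            exact_mod_cast h3
          have h3 : (3 : ℝ) ^ r ≤ (p : ℝ) ^ r := pow_le_pow_left₀ (by norm_num) hp3 r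
          obtain ⟨r', hr'⟩ : ∃ r', r = r' + 1 := ⟨r - 1, by omega⟩
          have h4 : 3 * (2 : ℝ) ^ r ≤ 3 ^ r * 2 := by
            rw [hr', pow_succ, pow_succ]
            have h5 : (2 : ℝ) ^ r' ≤ 3 ^ r' := pow_le_pow_left₀ (by norm_num) (by norm_num) r'
            linarith
          refine h4.trans ?_
          exact mul_le_mul h3 hq2 (by norm_num) (by positivity)
      have h2 : x ^ r * y = 1 / ((p : ℝ) ^ r * q) := by
        rw [hx, hy, one_div_pow, one_div_mul_one_div]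
      rw [h2]
      exact one_div_le_one_div_of_le hb0 h1
    have h1 : (x ^ r * y) ^ j ≤ (1 / b) ^ j := pow_le_pow_left₀ (by positivity) hxy j
    -- `x ^ (2 r) ≤ 2700 / b ^ 3 * x ^ 2`
    have h2 : (x ^ r) ^ 2 ≤ 2700 * (1 / b) ^ 3 * x ^ 2 := by
      obtain ⟨r', hr'⟩ : ∃ r', r = r' + 1 := ⟨r - 1, by omega⟩
      have h3 : (x ^ r) ^ 2 = x ^ r' * x ^ r' * x ^ 2 := by
        rw [hr', pow_succ]
        ring
      rw [h3]
      refine mul_le_mul_of_nonneg_right ?_ (sq_nonneg x)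
      have h4 : x ^ r' ≤ (1 / 2) ^ r' := pow_le_pow_left₀ hx0 hx2 r'
      have h5 : x ^ r' * x ^ r' ≤ (1 / 2) ^ r' * (1 / 2) ^ r' :=
        mul_le_mul h4 h4 (pow_nonneg hx0 _) (by positivity)
      have h6 : ((1 : ℝ) / 2) ^ r' * (1 / 2) ^ r' ≤ (1 / 2) ^ r' * (1 / 2) := by
        refine mul_le_mul_of_nonneg_left ?_ (by positivity)
        exact pow_le_of_le_one (by norm_num) (by norm_num) (by omega)
      have h7 : ((1 : ℝ) / 2) ^ r' * (1 / 2) = (1 / 2) ^ r := by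
        rw [hr', pow_succ]
      have h8 : ((1 : ℝ) / 2) ^ r ≤ 2700 * (1 / b) ^ 3 := by
        rw [one_div_pow, one_div_pow, mul_one_div, div_le_div_iff₀ (by positivity) (by positivity),
          one_mul]
        have h9 : b ^ 2 ≤ 900 := by nlinarith
        calc b ^ 3 = b ^ 2 * b := by ring
          _ ≤ 900 * (3 * 2 ^ r) := mul_le_mul h9 hb3 hb0.le (by norm_num)
          _ = 2700 * 2 ^ r := by ring
      linarith
    have e1 : (((j + 3 : ℕ) : ℝ) - 1) * (x ^ r) ^ (j + 2) * ((((j + 3 : ℕ) : ℝ) - 1) * y ^ (j + 2)) =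
        (((j + 3 : ℕ) : ℝ) - 1) ^ 2 * ((x ^ r * y) ^ j * (x ^ r) ^ 2 * y ^ 2) := by
      rw [mul_pow, pow_add, pow_add]
      ring
    have e2 : (((j + 3 : ℕ) : ℝ) - 1) ^ 2 * (2700 * (1 / b) ^ (j + 3)) * (x ^ 2 * y ^ 2) =
        (((j + 3 : ℕ) : ℝ) - 1) ^ 2 * ((1 / b) ^ j * (2700 * (1 / b) ^ 3 * x ^ 2) * y ^ 2) := by
      rw [pow_add]
      ring
    rw [e1, e2]
    refine mul_le_mul_of_nonneg_left ?_ (sq_nonneg _)
    refine mul_le_mul_of_nonneg_right ?_ (sq_nonneg y)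
    exact mul_le_mul h1 h2 (by positivity) (by positivity)
  set C := (((j + 3 : ℕ) : ℝ) - 1) ^ 2 * (2700 * (1 / b) ^ (j + 3)) with hC
  have hC0 : 0 ≤ C := by positivity
  have hS := sum_inv_sq n
  calc ∑ p ∈ Nat.primesBelow n, ∑ q ∈ (Nat.primesBelow n).erase p, tz (j + 3) p * tt (j + 3) q
      ≤ ∑ p ∈ Nat.primesBelow n, ∑ q ∈ Nat.primesBelow n,
          C * ((1 / (p : ℝ)) ^ 2 * (1 / (q : ℝ)) ^ 2) := by
        refine sum_le_sum fun p hp => (sum_le_sum fun q hq => hterm p hp q hq).trans ?_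
        exact sum_le_sum_of_subset_of_nonneg (erase_subset _ _) fun q _ _ => by positivity
    _ = C * ((∑ p ∈ Nat.primesBelow n, (1 / (p : ℝ)) ^ 2) *
          ∑ q ∈ Nat.primesBelow n, (1 / (q : ℝ)) ^ 2) := by
        rw [sum_mul_sum, mul_sum]
        refine sum_congr rfl fun p _ => ?_
        rw [mul_sum]
    _ ≤ C * (1 * 1) := by
        refine mul_le_mul_of_nonneg_left ?_ hC0
        exact mul_le_mul hS hS (sum_nonneg fun _ _ => by positivity) zero_le_one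
    _ = C := by ring

/-- the total error -/
theorem err_le {k : ℕ} (hk : 3 ≤ k) (n : ℕ) :
    12 * e3 (tt k) (Nat.primesBelow n) + 8 * ∑ p ∈ Nat.primesBelow n,
      ∑ q ∈ (Nat.primesBelow n).erase p, tz k p * tt k q ≤
      10 ^ 5 * (k : ℝ) ^ 3 / (bb k : ℝ) ^ k := by
  have hk3 : (3 : ℝ) ≤ k := by exact_mod_cast hk
  have h1 := e3_le (tt k) (tt_nonneg hk) (Nat.primesBelow n)
  have h2 := es_tt_le hk n
  have h3 := prod_tt_le hk n
  have h4 := pairs_le hk n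
  have h5 : es (tt k) 3 (Nat.primesBelow n) * ∏ p ∈ Nat.primesBelow n, (1 + tt k p) ≤
      ((k : ℝ) - 1) ^ 3 * ((1 / 30) ^ (k - 3) * (1 / 29)) * 8 :=
    mul_le_mul h2 h3 (prod_nonneg fun p _ => by
      have := tt_nonneg hk p
      linarith) (by
        have : (0 : ℝ) ≤ (k : ℝ) - 1 := by linarith
        positivity)
  have hbb : (1 / 30 : ℝ) ^ k ≤ (1 / (bb k : ℝ)) ^ k := by
    refine pow_le_pow_left₀ (by norm_num) ?_ k
    have h6 : (0 : ℝ) < bb k := by exact_mod_cast bb_pos k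
    have h7 : (bb k : ℝ) ≤ 30 := by exact_mod_cast bb_le k
    exact one_div_le_one_div_of_le h6 h7
  have h30 : (1 / 30 : ℝ) ^ (k - 3) = 27000 * (1 / 30) ^ k := by
    obtain ⟨j, rfl⟩ : ∃ j, k = j + 3 := ⟨k - 3, by omega⟩
    rw [Nat.add_sub_cancel, pow_add]
    norm_num
    ring
  rw [h30] at h5
  have hw : (0 : ℝ) ≤ (1 / (bb k : ℝ)) ^ k := by positivity
  have hk1 : (0 : ℝ) ≤ (k : ℝ) - 1 := by linarith
  have h6 : ((k : ℝ) - 1) ^ 3 * (27000 * (1 / 30) ^ k * (1 / 29)) * 8 ≤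
      ((k : ℝ) - 1) ^ 3 * (27000 * (1 / (bb k : ℝ)) ^ k * (1 / 29)) * 8 := by gcongr
  have h7 : 10 ^ 5 * (k : ℝ) ^ 3 / (bb k : ℝ) ^ k = 10 ^ 5 * (k : ℝ) ^ 3 * (1 / (bb k : ℝ)) ^ k := by
    rw [one_div_pow]
    ring
  rw [h7]
  set w := (1 / (bb k : ℝ)) ^ k with hwdef
  have h8 : 12 * (((k : ℝ) - 1) ^ 3 * (27000 * w * (1 / 29)) * 8) +
      8 * (((k : ℝ) - 1) ^ 2 * (2700 * w)) ≤ 10 ^ 5 * (k : ℝ) ^ 3 * w := by
    have h9 : 12 * (((k : ℝ) - 1) ^ 3 * (27000 * (1 / 29)) * 8) +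
        8 * (((k : ℝ) - 1) ^ 2 * 2700) ≤ 10 ^ 5 * (k : ℝ) ^ 3 := by
      have h10 : ((k : ℝ) - 1) ^ 3 + ((k : ℝ) - 1) ^ 2 = k * ((k : ℝ) - 1) ^ 2 := by ring
      have h11 : (k : ℝ) * ((k : ℝ) - 1) ^ 2 ≤ (k : ℝ) ^ 3 := by nlinarith
      have h12 : (0 : ℝ) ≤ ((k : ℝ) - 1) ^ 3 := by positivity
      have h13 : (0 : ℝ) ≤ ((k : ℝ) - 1) ^ 2 := by positivity
      linarith
    calc _ = (12 * (((k : ℝ) - 1) ^ 3 * (27000 * (1 / 29)) * 8) +
        8 * (((k : ℝ) - 1) ^ 2 * 2700)) * w := by ring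
      _ ≤ _ := mul_le_mul_of_nonneg_right h9 hw
  linarith

end Pool.Agent.Helper80.GeoZeta
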