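import Pool.Agent.Helper7.GeoProg.P_Greedy

/-!
# MP_f5ac68_nt: the greedy set of exponents below `minFac k * (k - 1)`, and the chosen differences
-/

namespace Pool.Agent.Helper80.GeoZeta

open GeoProg

/-- a progression with difference smaller than the least prime factor of `k` meets the class
of `-1` -/
lemma exists_residue {k d : ℕ} (hk : 3 ≤ k) (hd : 0 < d) (hdr : d < k.minFac) (e : ℕ)
    (he : (k - 1) * d ≤ e) : ∃ i < k, (e - i * d) % k = k - 1 := by
  have hcop : Nat.Coprime k d := by
    rw [Nat.coprime_iff_gcd_eq_one]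
    by_contra hne
    have h1 : k.minFac ≤ Nat.gcd k d := by
      have h2 : (Nat.gcd k d).minFac ≤ Nat.gcd k d :=
        Nat.minFac_le (Nat.gcd_pos_of_pos_left _ (by omega))
      have h3 : k.minFac ≤ (Nat.gcd k d).minFac :=
        Nat.minFac_le_of_dvd (Nat.minFac_prime hne).two_le
          ((Nat.minFac_dvd _).trans (Nat.gcd_dvd_left _ _))
      exact h3.trans h2
    have h4 : Nat.gcd k d ≤ d := Nat.gcd_le_right _ hd
    omega
  -- solve `e - i d ≡ -1`
  have hkpos : 0 < k := by omega
  have : NeZero k := ⟨by omega⟩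
  set u : (ZMod k)ˣ := ZMod.unitOfCoprime d hcop.symm with hu
  set x : ZMod k := ((e : ZMod k) + 1) * ((u⁻¹ : (ZMod k)ˣ) : ZMod k) with hx
  refine ⟨x.val, ZMod.val_lt x, ?_⟩
  have hle : x.val * d ≤ e := by
    have := ZMod.val_lt x
    exact le_trans (Nat.mul_le_mul_right d (by omega)) he
  have h1 : ((e - x.val * d + 1 : ℕ) : ZMod k) = 0 := by
    rw [Nat.cast_add, Nat.cast_sub hle, Nat.cast_mul, ZMod.natCast_zmod_val, hx, Nat.cast_one]
    have h2 : ((u⁻¹ : (ZMod k)ˣ) : ZMod k) * (d : ZMod k) = 1 := by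
      have h3 : (d : ZMod k) = (u : ZMod k) := by rw [hu, ZMod.coe_unitOfCoprime]
      rw [h3, ← Units.val_mul, inv_mul_cancel, Units.val_one]
    rw [mul_assoc, h2]
    ring
  rw [ZMod.natCast_eq_zero_iff] at h1
  obtain ⟨c, hc⟩ := h1
  have hc0 : 0 < c := by
    rcases Nat.eq_zero_or_pos c with h | h
    · rw [h] at hc
      omega
    · exact h
  obtain ⟨c', rfl⟩ : ∃ c', c = c' + 1 := ⟨c - 1, by omega⟩
  have h5 : e - x.val * d = (k - 1) + k * c' := by
    rw [Nat.mul_succ] at hc
    omega
  rw [h5, Nat.add_mul_mod_self_left, Nat.mod_eq_of_lt (by omega)]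

/-- the greedy set below `minFac k * (k - 1)` -/
theorem greedy_iff {k : ℕ} (hk : 3 ≤ k) : ∀ e : ℕ, e < k.minFac * (k - 1) →
    (GreedyExp k e ↔ e % k ≠ k - 1) := by
  intro e
  induction e using Nat.strong_induction_on with
  | _ e ih =>
    intro he
    constructor
    · intro h h1
      have h2 : k - 1 ≤ e := h1 ▸ Nat.mod_le e k
      refine greedyExp_not_of (k := k) (a := e) (d := 1) one_pos (by omega) ?_ h
      intro i hi hik
      rw [ih (e - i * 1) (by omega) (by omega)]
      have h4 := Nat.mod_add_div e k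
      rw [h1] at h4
      have h5 : e - i * 1 = (k - 1 - i) + k * (e / k) := by omega
      rw [h5, Nat.add_mul_mod_self_left, Nat.mod_eq_of_lt (by omega)]
      omega
    · intro h
      by_contra hcon
      obtain ⟨d, hd, hda, hh⟩ := not_greedyExp hcon
      have hdr : d < k.minFac := by
        have h1 : (k - 1) * d < (k - 1) * k.minFac := by
          rw [mul_comm (k - 1) k.minFac]
          omega
        exact Nat.lt_of_mul_lt_mul_left h1
      obtain ⟨i, hik, hi⟩ := exists_residue hk hd hdr e hda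
      rcases Nat.eq_zero_or_pos i with h0 | h0
      · rw [h0, zero_mul, Nat.sub_zero] at hi
        exact h hi
      · have h1 := hh i h0 hik
        have hid : 0 < i * d := Nat.mul_pos h0 hd
        have hile : i * d ≤ e := mul_le_aux hik hda
        rw [ih (e - i * d) (by omega) (by omega)] at h1
        exact h1 hi

lemma exists_dd {k : ℕ} (hk : 3 ≤ k) (e : ℕ) : ∃ d : ℕ, ¬ GreedyExp k e →
    ((0 < d ∧ (k - 1) * d ≤ e ∧ ∀ i : ℕ, 0 < i → i < k → GreedyExp k (e - i * d)) ∧
      (e < k.minFac * (k - 1) → d = 1)) := by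
  by_cases hg : GreedyExp k e
  · exact ⟨0, fun h => absurd hg h⟩
  · by_cases he : e < k.minFac * (k - 1)
    · refine ⟨1, fun _ => ⟨⟨one_pos, ?_, ?_⟩, fun _ => rfl⟩⟩
      · have h1 : e % k = k - 1 := by
          by_contra h
          exact hg ((greedy_iff hk e he).2 h)
        have h2 : k - 1 ≤ e := h1 ▸ Nat.mod_le e k
        omega
      · intro i hi hik
        have h1 : e % k = k - 1 := by
          by_contra h
          exact hg ((greedy_iff hk e he).2 h)
        rw [greedy_iff hk _ (by omega)]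
        have h4 := Nat.mod_add_div e k
        rw [h1] at h4
        have h5 : e - i * 1 = (k - 1 - i) + k * (e / k) := by omega
        rw [h5, Nat.add_mul_mod_self_left, Nat.mod_eq_of_lt (by omega)]
        omega
    · obtain ⟨d, hd⟩ := not_greedyExp hg
      exact ⟨d, fun _ => ⟨hd, fun h => absurd h he⟩⟩

open Classical in
/-- the chosen difference for an exponent outside the greedy set -/
noncomputable def dd (k e : ℕ) : ℕ :=
  if hk : 3 ≤ k then (exists_dd hk e).choose else 0

lemma dd_spec {k : ℕ} (hk : 3 ≤ k) {e : ℕ} (he : ¬ GreedyExp k e) :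
    0 < dd k e ∧ (k - 1) * dd k e ≤ e ∧
      ∀ i : ℕ, 0 < i → i < k → GreedyExp k (e - i * dd k e) := by
  have h := ((exists_dd hk e).choose_spec he).1
  rw [dd, dif_pos hk]
  exact h

lemma dd_eq_one {k : ℕ} (hk : 3 ≤ k) {e : ℕ} (he : ¬ GreedyExp k e)
    (h : e < k.minFac * (k - 1)) : dd k e = 1 := by
  rw [dd, dif_pos hk]
  exact ((exists_dd hk e).choose_spec he).2 h

lemma le_of_not_greedy {k e : ℕ} (he : ¬ GreedyExp k e) : k - 1 ≤ e := by
  by_contra h
  exact he (greedyExp_of_lt (by omega))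

end Pool.Agent.Helper80.GeoZeta
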