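import Pool.Agent.Helper7.GeoProg.P_P
import Pool.Agent.Helper80.GeoZeta.Gr

/-!
# MP_f5ac68_nt: the packing of progressions (greedy version)

For a positive `n`-smooth `s` let `T` be the set of the primes `p < n` for which `v_p(s)` is not in
the greedy set, and `D = ∏ p ^ d(v_p(s))`. The `k` numbers `s / D ^ l` form a progression; a set
without progressions misses one of them.
-/

namespace Pool.Agent.Helper80.GeoZeta

open Finset GeoProg

open Classical in
/-- the primes `p < n` whose exponent in `s` is not in the greedy set -/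
noncomputable def TG (k n s : ℕ) : Finset ℕ :=
  (Nat.primesBelow n).filter (fun p => ¬ GreedyExp k (s.factorization p))

/-- the denominator of the progression attached to `s` -/
noncomputable def DG (k n s : ℕ) : ℕ := ∏ p ∈ TG k n s, p ^ dd k (s.factorization p)

lemma prodpow_factorization {T : Finset ℕ} (hT : ∀ p ∈ T, p.Prime) (f : ℕ → ℕ) (q : ℕ) :
    (∏ p ∈ T, p ^ f p).factorization q = if q ∈ T then f q else 0 := by
  rw [Nat.factorization_prod fun p hp => pow_ne_zero _ (hT p hp).ne_zero, Finsupp.finsetSum_apply]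
  split_ifs with h
  · rw [sum_eq_single q]
    · rw [(hT q h).factorization_pow, Finsupp.single_eq_same]
    · intro p hp hpq
      rw [(hT p hp).factorization_pow, Finsupp.single_eq_of_ne (fun e => hpq e.symm)]
    · exact fun h' => absurd h h'
  · refine sum_eq_zero fun p hp => ?_
    rw [(hT p hp).factorization_pow, Finsupp.single_eq_of_ne]
    rintro rfl
    exact h hp

lemma mem_TG {k n s p : ℕ} : p ∈ TG k n s ↔
    p ∈ Nat.primesBelow n ∧ ¬ GreedyExp k (s.factorization p) := by
  classical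
  rw [TG, mem_filter]

lemma TG_prime {k n s p : ℕ} (h : p ∈ TG k n s) : p.Prime :=
  Nat.prime_of_mem_primesBelow (mem_TG.1 h).1

lemma TG_not {k n s p : ℕ} (h : p ∈ TG k n s) : ¬ GreedyExp k (s.factorization p) :=
  (mem_TG.1 h).2

lemma DG_ne_zero (k n s : ℕ) : DG k n s ≠ 0 :=
  prod_ne_zero_iff.2 fun _ hp => pow_ne_zero _ (TG_prime hp).ne_zero

lemma DG_factorization (k n s q : ℕ) :
    (DG k n s).factorization q = if q ∈ TG k n s then dd k (s.factorization q) else 0 :=
  prodpow_factorization (fun _ hp => TG_prime hp) _ q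

lemma one_lt_DG {k n s : ℕ} (hk : 3 ≤ k) (h : (TG k n s).Nonempty) : 1 < DG k n s := by
  obtain ⟨p, hp⟩ := h
  have h1 := DG_factorization k n s p
  rw [if_pos hp] at h1
  have h2 := (dd_spec hk (TG_not hp)).1
  have h3 := DG_ne_zero k n s
  have h4 : DG k n s ≠ 1 := by
    intro h5
    rw [h5] at h1
    simp at h1
    omega
  omega

lemma pow_factorization2 (k n s l q : ℕ) :
    (DG k n s ^ l).factorization q =
      if q ∈ TG k n s then l * dd k (s.factorization q) else 0 := by
  rw [Nat.factorization_pow, Finsupp.smul_apply, DG_factorization, smul_eq_mul]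
  split_ifs <;> simp

lemma pow_dvd2 {k n s l : ℕ} (hk : 3 ≤ k) (hs : s ≠ 0) (hl : l < k) : DG k n s ^ l ∣ s := by
  rw [← Nat.factorization_le_iff_dvd (pow_ne_zero _ (DG_ne_zero k n s)) hs]
  intro q
  rw [pow_factorization2]
  split_ifs with h
  · exact mul_le_aux hl (dd_spec hk (TG_not h)).2.1
  · exact Nat.zero_le _

lemma div_factorization2 {k n s l : ℕ} (hk : 3 ≤ k) (hs : s ≠ 0) (hl : l < k) (q : ℕ) :
    (s / DG k n s ^ l).factorization q =
      s.factorization q - if q ∈ TG k n s then l * dd k (s.factorization q) else 0 := by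
  rw [Nat.factorization_div (pow_dvd2 hk hs hl), Finsupp.tsub_apply, pow_factorization2]

/-- after at least one step all exponents are in the greedy set -/
lemma TG_div {k n s l : ℕ} (hk : 3 ≤ k) (hs : s ≠ 0) (hl0 : 0 < l) (hl : l < k) :
    TG k n (s / DG k n s ^ l) = ∅ := by
  rw [eq_empty_iff_forall_notMem]
  intro q hq
  obtain ⟨h1, h2⟩ := mem_TG.1 hq
  rw [div_factorization2 hk hs hl] at h2
  by_cases h : q ∈ TG k n s
  · rw [if_pos h] at h2
    exact h2 ((dd_spec hk (TG_not h)).2.2 l hl0 hl)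
  · rw [if_neg h, Nat.sub_zero] at h2
    exact h (mem_TG.2 ⟨h1, h2⟩)

/-- `B` misses one of the `s / D ^ l` -/
lemma exists_notMem2 {k n s : ℕ} (hk : 3 ≤ k) (hs : s ≠ 0) (hT : (TG k n s).Nonempty)
    {B : Finset ℕ} (hB : GPFree k (B : Set ℕ)) : ∃ l < k, s / DG k n s ^ l ∉ B := by
  by_contra hcon
  push Not at hcon
  have hD := one_lt_DG hk hT
  refine hB.2 ⟨s / DG k n s ^ (k - 1), DG k n s, ?_, ?_, fun i hi => ?_⟩
  · exact hB.1 _ (hcon (k - 1) (by omega))
  · exact_mod_cast hD
  · refine ⟨s / DG k n s ^ (k - 1 - i), hcon _ (by omega), ?_⟩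
    have h1 : s / DG k n s ^ (k - 1) * DG k n s ^ i = s / DG k n s ^ (k - 1 - i) := by
      apply Nat.eq_of_mul_eq_mul_right (Nat.pow_pos (by omega) : 0 < DG k n s ^ (k - 1 - i))
      rw [Nat.div_mul_cancel (pow_dvd2 hk hs (by omega)), mul_assoc, ← pow_add,
        show i + (k - 1 - i) = k - 1 by omega, Nat.div_mul_cancel (pow_dvd2 hk hs (by omega))]
    rw [← h1]
    push_cast
    ring

open Classical in
/-- the exponents outside the greedy set whose progression passes through `v` -/
noncomputable def EE (k N v : ℕ) : Finset ℕ :=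
  (range (N + 1)).filter (fun e => ¬ GreedyExp k e ∧ ∃ l, 0 < l ∧ l < k ∧ e = v + l * dd k e)

lemma mem_EE {k N v e : ℕ} : e ∈ EE k N v ↔
    e ≤ N ∧ ¬ GreedyExp k e ∧ ∃ l, 0 < l ∧ l < k ∧ e = v + l * dd k e := by
  classical
  rw [EE, mem_filter, mem_range, Nat.lt_succ_iff]

lemma lt_of_mem_EE {k N v e : ℕ} (hk : 3 ≤ k) (h : e ∈ EE k N v) : v < e := by
  obtain ⟨_, h2, l, hl, _, he⟩ := mem_EE.1 h
  have h3 := (dd_spec hk h2).1
  have h4 : 0 < l * dd k e := Nat.mul_pos hl h3
  omega

/-- the load per prime -/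
noncomputable def yG (k N p v : ℕ) : ℝ := ∑ e ∈ EE k N v, (1 / (p : ℝ)) ^ (e - v)

lemma yG_nonneg (k N p v : ℕ) : 0 ≤ yG k N p v := by
  rw [yG]
  exact sum_nonneg fun e _ => by positivity

open Classical in
/-- the smooth numbers up to `N` -/
noncomputable def SN (n N : ℕ) : Finset ℕ := (range (N + 1)).filter (· ∈ Nat.smoothNumbers n)

lemma mem_SN {n N s : ℕ} : s ∈ SN n N ↔ s ≤ N ∧ s ∈ Nat.smoothNumbers n := by
  rw [SN, mem_filter, mem_range, Nat.lt_succ_iff]

lemma SN_ne_zero {n N s : ℕ} (h : s ∈ SN n N) : s ≠ 0 :=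
  Nat.ne_zero_of_mem_smoothNumbers (mem_SN.1 h).2

lemma smooth_prod {n s : ℕ} (h : s ∈ Nat.smoothNumbers n) :
    ∏ p ∈ Nat.primesBelow n, (p : ℝ) ^ s.factorization p = s := by
  have hs0 : s ≠ 0 := Nat.ne_zero_of_mem_smoothNumbers h
  have h1 : ∏ p ∈ Nat.primesBelow n, p ^ s.factorization p = s := by
    conv_rhs => rw [← Nat.prod_factorization_pow_eq_self hs0]
    rw [Finsupp.prod_of_support_subset _ (s := Nat.primesBelow n)]
    · intro p hp
      rw [Nat.support_factorization, Nat.mem_primeFactors] at hp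
      exact Nat.mem_primesBelow.2 ⟨Nat.mem_smoothNumbers'.1 h p hp.1 hp.2.1, hp.1⟩
    · intro p _
      rw [pow_zero]
  exact_mod_cast h1

lemma smooth_inv {n s : ℕ} (h : s ∈ Nat.smoothNumbers n) :
    ∏ p ∈ Nat.primesBelow n, (1 / (p : ℝ)) ^ s.factorization p = 1 / s := by
  conv_rhs => rw [← smooth_prod h]
  rw [one_div, ← prod_inv_distrib]
  refine prod_congr rfl fun p _ => ?_
  rw [one_div, inv_pow]

/-- the load of a number with all exponents in the greedy set -/
lemma load2 {k n N h : ℕ} (hk : 3 ≤ k) (hh : h ∈ Nat.smoothNumbers n) (hT : TG k n h = ∅)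
    (F : Finset ℕ)
    (hF : ∀ s ∈ F, s ∈ SN n N ∧ (TG k n s).Nonempty ∧ ∃ l < k, h = s / DG k n s ^ l) :
    ∑ s ∈ F, (1 : ℝ) / s ≤
      1 / h * (∏ p ∈ Nat.primesBelow n, (1 + yG k N p (h.factorization p)) - 1) := by
  classical
  have hhF : h ∉ F := fun hcon => by
    have := (hF h hcon).2.1
    rw [hT] at this
    exact not_nonempty_empty this
  have hE := P_euler' (fun p => ((insert (h.factorization p) (EE k N (h.factorization p)) :
    Finset ℕ) : Set ℕ)) n
  have hfac : ∀ p ∈ Nat.primesBelow n, ∑' a : ℕ,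
      ((insert (h.factorization p) (EE k N (h.factorization p)) : Finset ℕ) : Set ℕ).indicator
        (fun a : ℕ => 1 / (p : ℝ) ^ a) a =
      (1 / (p : ℝ)) ^ h.factorization p * (1 + yG k N p (h.factorization p)) := by
    intro p _
    rw [← sum_eq_tsum_indicator, sum_insert, yG, mul_add, mul_one, mul_sum, one_div_pow]
    · congr 1
      refine sum_congr rfl fun e he => ?_
      have h1 := lt_of_mem_EE hk he
      rw [← one_div_pow, ← one_div_pow, ← pow_add, Nat.add_sub_cancel' h1.le]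
    · intro hcon
      exact lt_irrefl _ (lt_of_mem_EE hk hcon)
  rw [prod_congr rfl hfac, prod_mul_distrib, smooth_inv hh] at hE
  have h1 := sum_le_hasSum (insert h F) (fun i _ => Set.indicator_nonneg
    (fun a _ => by positivity) i) hE
  have h2 : ∑ s ∈ insert h F, (1 : ℝ) / s ≤
      1 / h * ∏ p ∈ Nat.primesBelow n, (1 + yG k N p (h.factorization p)) := by
    refine le_trans (le_of_eq (sum_congr rfl fun s hs => ?_)) h1
    rw [Set.indicator_of_mem]
    rcases mem_insert.1 hs with rfl | hs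
    · exact ⟨hh, fun p _ => by
        rw [mem_coe]
        exact mem_insert_self _ _⟩
    · obtain ⟨h3, h4, l, hl, h5⟩ := hF s hs
      have hs0 := SN_ne_zero h3
      refine ⟨(mem_SN.1 h3).2, fun p hp => ?_⟩
      rw [mem_coe, mem_insert]
      have h6 := div_factorization2 (n := n) hk hs0 hl p
      rw [← h5] at h6
      by_cases hpT : p ∈ TG k n s
      · right
        rw [if_pos hpT] at h6
        have hd := dd_spec hk (TG_not hpT)
        have h7 := mul_le_aux hl hd.2.1
        rw [mem_EE]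
        refine ⟨?_, TG_not hpT, l, ?_, hl, by omega⟩
        · have := Nat.factorization_lt p hs0
          have := (mem_SN.1 h3).1
          omega
        · rcases Nat.eq_zero_or_pos l with h8 | h8
          · rw [h8, pow_zero, Nat.div_one] at h5
            rw [h5] at hT
            rw [hT] at hpT
            exact absurd hpT (notMem_empty p)
          · exact h8
      · left
        rw [if_neg hpT, Nat.sub_zero] at h6
        exact h6.symm
  rw [sum_insert hhF] at h2
  have h3 : 1 / (h : ℝ) * (∏ p ∈ Nat.primesBelow n, (1 + yG k N p (h.factorization p)) - 1) =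
    1 / h * ∏ p ∈ Nat.primesBelow n, (1 + yG k N p (h.factorization p)) - 1 / h := by ring
  rw [h3]
  linarith

/-- The upper bound for the sum of the reciprocals of a finite smooth set without
progressions. -/
theorem hsum_le2 {k n N : ℕ} (hk : 3 ≤ k) {B : Finset ℕ} (hBs : SmoothFin n B)
    (hB : GPFree k (B : Set ℕ)) (hN : ∀ b ∈ B, b ≤ N) (E : ℕ → ℝ) (hE0 : ∀ h, 0 ≤ E h)
    (hE : ∀ h ∈ SN n N, TG k n h = ∅ →
      ∏ p ∈ Nat.primesBelow n, (1 + yG k N p (h.factorization p)) ≤ 2 + E h) :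
    hsum B ≤ ∑ s ∈ (SN n N).filter (fun s => TG k n s = ∅), 1 / (s : ℝ) * (1 + E s) := by
  classical
  have hBS : B ⊆ SN n N := fun b hb => mem_SN.2 ⟨hN b hb, hBs b hb⟩
  have hsplit : ∑ s ∈ SN n N, (1 : ℝ) / s = hsum B + ∑ s ∈ SN n N \ B, (1 : ℝ) / s := by
    rw [hsum, add_comm, sum_sdiff hBS]
  have hsplit2 : ∑ s ∈ SN n N, (1 : ℝ) / s =
      ∑ s ∈ (SN n N).filter (fun s => TG k n s = ∅), (1 : ℝ) / s +
      ∑ s ∈ (SN n N).filter (fun s => ¬ TG k n s = ∅), (1 : ℝ) / s :=
    (sum_filter_add_sum_filter_not _ _ _).symm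
  -- choice of the missed elements
  have hch : ∀ s ∈ (SN n N).filter (fun s => ¬ TG k n s = ∅), ∃ l < k,
      s / DG k n s ^ l ∉ B := fun s hs => by
    obtain ⟨h1, h2⟩ := mem_filter.1 hs
    exact exists_notMem2 hk (SN_ne_zero h1) (nonempty_iff_ne_empty.2 h2) hB
  choose! l hl hlB using hch
  have hmaps : ∀ s ∈ (SN n N).filter (fun s => ¬ TG k n s = ∅),
      s / DG k n s ^ l s ∈ SN n N \ B := by
    intro s hs
    obtain ⟨h1, _⟩ := mem_filter.1 hs
    obtain ⟨h3, h4⟩ := mem_SN.1 h1
    have hs0 := SN_ne_zero h1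
    have hdvd : s / DG k n s ^ l s ∣ s := Nat.div_dvd_of_dvd (pow_dvd2 hk hs0 (hl s hs))
    refine mem_sdiff.2 ⟨mem_SN.2 ⟨?_, ?_⟩, hlB s hs⟩
    · exact (Nat.div_le_self _ _).trans h3
    · exact Nat.mem_smoothNumbers_of_dvd h4 hdvd
  have hfib := sum_fiberwise_of_maps_to hmaps (fun s => (1 : ℝ) / s)
  -- the fibres
  have hbound : ∀ h ∈ SN n N \ B,
      ∑ s ∈ ((SN n N).filter (fun s => ¬ TG k n s = ∅)).filter
        (fun s => s / DG k n s ^ l s = h), (1 : ℝ) / s ≤
      1 / (h : ℝ) + if TG k n h = ∅ then 1 / (h : ℝ) * E h else 0 := by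
    intro h hh
    have hhS := (mem_sdiff.1 hh).1
    split_ifs with hT
    · have h0 := load2 (n := n) (N := N) hk (mem_SN.1 hhS).2 hT
        (((SN n N).filter (fun s => ¬ TG k n s = ∅)).filter
        (fun s => s / DG k n s ^ l s = h)) (fun s hs => by
          obtain ⟨h1, h2⟩ := mem_filter.1 hs
          obtain ⟨h3, h4⟩ := mem_filter.1 h1
          exact ⟨h3, nonempty_iff_ne_empty.2 h4, l s, hl s h1, h2.symm⟩)
      refine h0.trans ?_
      have h1 := hE h hhS hT
      have h2 : (0 : ℝ) ≤ 1 / h := by positivity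
      nlinarith
    · rw [add_zero]
      have hsub : ((SN n N).filter (fun s => ¬ TG k n s = ∅)).filter
          (fun s => s / DG k n s ^ l s = h) ⊆ {h} := by
        intro s hs
        obtain ⟨h1, h2⟩ := mem_filter.1 hs
        obtain ⟨h3, h4⟩ := mem_filter.1 h1
        rcases Nat.eq_zero_or_pos (l s) with h5 | h5
        · rw [h5, pow_zero, Nat.div_one] at h2
          rw [mem_singleton]
          exact h2
        · have h6 := TG_div (n := n) hk (SN_ne_zero h3) h5 (hl s h1)
          rw [h2] at h6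
          exact absurd h6 hT
      refine (sum_le_sum_of_subset_of_nonneg hsub fun _ _ _ => by positivity).trans ?_
      rw [sum_singleton]
  have hsum1 : ∑ s ∈ (SN n N).filter (fun s => ¬ TG k n s = ∅), (1 : ℝ) / s ≤
      ∑ h ∈ SN n N \ B, ((1 : ℝ) / h + if TG k n h = ∅ then 1 / (h : ℝ) * E h else 0) := by
    rw [← hfib]
    exact sum_le_sum hbound
  rw [sum_add_distrib] at hsum1
  have hsum2 : ∑ h ∈ SN n N \ B, (if TG k n h = ∅ then 1 / (h : ℝ) * E h else 0) ≤
      ∑ h ∈ (SN n N).filter (fun s => TG k n s = ∅), 1 / (h : ℝ) * E h := by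
    rw [sum_filter]
    refine sum_le_sum_of_subset_of_nonneg sdiff_subset fun h _ _ => ?_
    split_ifs
    · have := hE0 h
      positivity
    · exact le_rfl
  have hfin : ∑ s ∈ (SN n N).filter (fun s => TG k n s = ∅), 1 / (s : ℝ) * (1 + E s) =
      ∑ s ∈ (SN n N).filter (fun s => TG k n s = ∅), (1 : ℝ) / s +
      ∑ h ∈ (SN n N).filter (fun s => TG k n s = ∅), 1 / (h : ℝ) * E h := by
    rw [← sum_add_distrib]
    exact sum_congr rfl fun s _ => by ring
  rw [hfin]
  linarith

end Pool.Agent.Helper80.GeoZeta
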