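import Pool.Agent.Helper7.GeoProg.P_RSD
import Pool.Agent.Helper80.GeoZeta.Load2

/-!
# MP_f5ac68_nt: weighted Euler products over smooth numbers and averages of the loads
-/

namespace Pool.Agent.Helper80.GeoZeta

open Finset GeoProg

/-- Euler product over smooth numbers with weights. -/
lemma w_euler (φ : ℕ → ℕ → ℝ) (h0 : ∀ p a, 0 ≤ φ p a) (hφ : ∀ p : ℕ, p.Prime → Summable (φ p))
    (n : ℕ) :
    HasSum (fun s : Nat.smoothNumbers n =>
      ∏ p ∈ Nat.primesBelow n, φ p ((s : ℕ).factorization p))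
      (∏ p ∈ Nat.primesBelow n, ∑' a : ℕ, φ p a) := by
  classical
  induction n with
  | zero =>
    rw [Nat.smoothNumbers_zero]
    have h0 : Nat.primesBelow 0 = ∅ := by simp
    rw [h0, Finset.prod_empty]
    have h := hasSum_fintype (fun s : ({1} : Set ℕ) =>
      ∏ p ∈ (∅ : Finset ℕ), φ p ((s : ℕ).factorization p))
    convert h using 1
    simp
  | succ p ih =>
    by_cases hp : p.Prime
    · have hpb : Nat.primesBelow (p + 1) = insert p (Nat.primesBelow p) :=
        (Nat.primesBelow_succ p).trans (if_pos hp)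
      have hnot : p ∉ Nat.primesBelow p := Nat.notMem_primesBelow p
      rw [hpb, Finset.prod_insert hnot]
      have hfac := (hφ p hp).hasSum
      have hprod : HasSum (fun x : ℕ × Nat.smoothNumbers p =>
          φ p x.1 * ∏ q ∈ Nat.primesBelow p, φ q ((x.2 : ℕ).factorization q))
          ((∑' a : ℕ, φ p a) * ∏ q ∈ Nat.primesBelow p, ∑' a : ℕ, φ q a) := by
        refine hfac.mul ih ?_
        refine Summable.mul_of_nonneg hfac.summable ih.summable ?_ ?_
        · intro a
          exact h0 p a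
        · intro s
          exact prod_nonneg fun q _ => h0 q _
      rw [← (Nat.equivProdNatSmoothNumbers hp).hasSum_iff]
      convert hprod using 1
      funext x
      obtain ⟨e, m, hm⟩ := x
      have hcop : Nat.Coprime p m := hp.smoothNumbers_coprime hm
      have hm0 : m ≠ 0 := Nat.ne_zero_of_mem_smoothNumbers hm
      have hpe0 : p ^ e ≠ 0 := pow_ne_zero _ hp.ne_zero
      have hfp : (p ^ e * m).factorization p = e := by
        rw [Nat.factorization_mul hpe0 hm0, Finsupp.add_apply, hp.factorization_pow,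
          Finsupp.single_eq_same,
          Nat.factorization_eq_zero_of_not_dvd ((Nat.Prime.coprime_iff_not_dvd hp).1 hcop), add_zero]
      have hfq : ∀ q, q ≠ p → (p ^ e * m).factorization q = m.factorization q := by
        intro q hq
        rw [Nat.factorization_mul hpe0 hm0, Finsupp.add_apply, hp.factorization_pow,
          Finsupp.single_eq_of_ne hq, zero_add]
      simp only [Function.comp, Nat.equivProdNatSmoothNumbers_apply]
      rw [prod_insert hnot, hfp]
      congr 1
      refine prod_congr rfl fun q hq => ?_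
      rw [hfq q (fun h => hnot (h ▸ hq))]
    · have hpb : Nat.primesBelow (p + 1) = Nat.primesBelow p :=
        (Nat.primesBelow_succ p).trans (if_neg hp)
      rw [hpb, Nat.smoothNumbers_succ hp]
      exact ih

/-- the upper bound for finite sums -/
lemma w_euler_le (φ : ℕ → ℕ → ℝ) (h0 : ∀ p a, 0 ≤ φ p a)
    (hφ : ∀ p : ℕ, p.Prime → Summable (φ p)) (n : ℕ) (F : Finset ℕ)
    (hF : ∀ s ∈ F, s ∈ Nat.smoothNumbers n) :
    ∑ s ∈ F, ∏ p ∈ Nat.primesBelow n, φ p (s.factorization p) ≤
      ∏ p ∈ Nat.primesBelow n, ∑' a : ℕ, φ p a := by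
  have h := w_euler φ h0 hφ n
  have h2 := (hasSum_subtype_iff_indicator (f := fun s : ℕ =>
    ∏ p ∈ Nat.primesBelow n, φ p (s.factorization p)) (s := Nat.smoothNumbers n)).1 h
  have h3 := sum_le_hasSum F (fun i _ => Set.indicator_nonneg
    (fun a _ => prod_nonneg fun p _ => h0 p _) i) h2
  refine le_trans (le_of_eq (sum_congr rfl fun s hs => ?_)) h3
  rw [Set.indicator_of_mem (hF s hs)]

open Classical in
/-- the weight of the exponents in the greedy set -/
noncomputable def gw (k p v : ℕ) : ℝ := if GreedyExp k v then (1 / (p : ℝ)) ^ v else 0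

lemma gw_nonneg (k p v : ℕ) : 0 ≤ gw k p v := by
  classical
  rw [gw]
  split_ifs
  · positivity
  · exact le_rfl

lemma inv_prime_lt_one {p : ℕ} (hp : p.Prime) : 1 / (p : ℝ) < 1 := by
  have : (1 : ℝ) < p := by exact_mod_cast hp.one_lt
  rw [div_lt_one (by linarith)]
  exact this

lemma inv_nonneg' (p : ℕ) : (0 : ℝ) ≤ 1 / p := by positivity

lemma gw_le (k p v : ℕ) : gw k p v ≤ (1 / (p : ℝ)) ^ v := by
  classical
  rw [gw]
  split_ifs
  · exact le_rfl
  · positivity

lemma gw_summable (k : ℕ) {p : ℕ} (hp : p.Prime) : Summable (gw k p) :=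
  Summable.of_nonneg_of_le (gw_nonneg k p) (gw_le k p)
    (summable_geometric_of_lt_one (inv_nonneg' p) (inv_prime_lt_one hp))

lemma gw_tsum_le (k : ℕ) {p : ℕ} (hp : p.Prime) : ∑' v, gw k p v ≤ (1 - 1 / (p : ℝ))⁻¹ := by
  rw [← tsum_geometric_of_lt_one (inv_nonneg' p) (inv_prime_lt_one hp)]
  exact Summable.tsum_le_tsum (gw_le k p) (gw_summable k hp)
    (summable_geometric_of_lt_one (inv_nonneg' p) (inv_prime_lt_one hp))

lemma gw_indicator (k p : ℕ) : gw k p =
    {a | GreedyExp k a}.indicator (fun a : ℕ => 1 / (p : ℝ) ^ a) := by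
  classical
  funext v
  rw [gw, Set.indicator_apply, one_div_pow]
  rfl

/-- the average of a product of per-prime quantities -/
lemma avg_le (k n : ℕ) (T : Finset ℕ) (hT : T ⊆ Nat.primesBelow n) (u : ℕ → ℕ → ℝ) (c : ℕ → ℝ)
    (hu : ∀ p v, 0 ≤ u p v)
    (hb : ∀ p ∈ T, Summable (fun v => gw k p v * u p v) ∧
      ∑' v, gw k p v * u p v ≤ c p * (1 - 1 / (p : ℝ))⁻¹)
    (F : Finset ℕ) (hF : ∀ s ∈ F, s ∈ Nat.smoothNumbers n ∧ TG k n s = ∅) :
    ∑ s ∈ F, 1 / (s : ℝ) * ∏ p ∈ T, u p (s.factorization p) ≤ (delta n)⁻¹ * ∏ p ∈ T, c p := by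
  classical
  have h1 := w_euler_le (fun p v => gw k p v * if p ∈ T then u p v else 1)
    (fun p v => mul_nonneg (gw_nonneg k p v) (by split_ifs; exacts [hu p v, zero_le_one]))
    (fun p hp => by
      by_cases h : p ∈ T
      · simp only [if_pos h]
        exact (hb p h).1
      · simp only [if_neg h, mul_one]
        exact gw_summable k hp) n F (fun s hs => (hF s hs).1)
  have hl : ∀ s ∈ F, ∏ p ∈ Nat.primesBelow n, (gw k p (s.factorization p) *
      if p ∈ T then u p (s.factorization p) else 1) =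
      1 / (s : ℝ) * ∏ p ∈ T, u p (s.factorization p) := by
    intro s hs
    obtain ⟨hs1, hs2⟩ := hF s hs
    rw [prod_mul_distrib]
    congr 1
    · rw [← smooth_inv hs1]
      refine prod_congr rfl fun p hp => ?_
      rw [gw, if_pos]
      by_contra hcon
      have : p ∈ TG k n s := mem_TG.2 ⟨hp, hcon⟩
      rw [hs2] at this
      exact notMem_empty p this
    · rw [prod_ite_mem, inter_eq_right.2 hT]
  rw [sum_congr rfl hl] at h1
  refine h1.trans ?_
  have h2 : ∏ p ∈ Nat.primesBelow n, ∑' v, (gw k p v * if p ∈ T then u p v else 1) ≤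
      ∏ p ∈ Nat.primesBelow n, ((1 - 1 / (p : ℝ))⁻¹ * if p ∈ T then c p else 1) := by
    refine prod_le_prod (fun p _ => tsum_nonneg fun v =>
      mul_nonneg (gw_nonneg k p v) (by split_ifs; exacts [hu p v, zero_le_one])) fun p hp => ?_
    have hpp := Nat.prime_of_mem_primesBelow hp
    by_cases h : p ∈ T
    · simp only [if_pos h]
      rw [mul_comm]
      exact (hb p h).2
    · simp only [if_neg h, mul_one]
      exact gw_tsum_le k hpp
  refine h2.trans (le_of_eq ?_)
  rw [prod_mul_distrib, prod_ite_mem, inter_eq_right.2 hT, prod_inv_distrib, delta]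

/-- the part of the load coming from the exponents at least `m` -/
noncomputable def zG (k m N p v : ℕ) : ℝ :=
  ∑ e ∈ (EE k N v).filter (fun e => m ≤ e), (1 / (p : ℝ)) ^ (e - v)

lemma zG_nonneg (k m N p v : ℕ) : 0 ≤ zG k m N p v := by
  rw [zG]
  exact sum_nonneg fun e _ => by positivity

lemma zG_zero (k N p v : ℕ) : zG k 0 N p v = yG k N p v := by
  rw [zG, yG, filter_true_of_mem fun e _ => Nat.zero_le e]

/-- a finite geometric tail -/
lemma geom_tail {x : ℝ} (hx0 : 0 ≤ x) (hx1 : x < 1) (m N : ℕ) :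
    ∑ e ∈ (range (N + 1)).filter (fun e => m ≤ e), x ^ e ≤ x ^ m * (1 - x)⁻¹ := by
  have hs := summable_geometric_of_lt_one hx0 hx1
  have h1 : ∑ e ∈ (range (N + 1)).filter (fun e => m ≤ e), x ^ e =
      x ^ m * ∑ j ∈ range (N + 1 - m), x ^ j := by
    have h2 : (range (N + 1)).filter (fun e => m ≤ e) = Ico m (N + 1) := by
      ext e
      simp only [mem_filter, mem_range, mem_Ico]
      tauto
    rw [h2, sum_Ico_eq_sum_range, mul_sum]
    exact sum_congr rfl fun j _ => by rw [pow_add]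
  rw [h1]
  refine mul_le_mul_of_nonneg_left ?_ (pow_nonneg hx0 m)
  rw [← tsum_geometric_of_lt_one hx0 hx1]
  exact hs.sum_le_tsum _ fun j _ => pow_nonneg hx0 j

/-- the average of the load per prime -/
lemma zG_avg {k m N p : ℕ} (hk : 3 ≤ k) (hp : p.Prime) :
    Summable (fun v => gw k p v * zG k m N p v) ∧
      ∑' v, gw k p v * zG k m N p v ≤
        ((k : ℝ) - 1) * (1 / (p : ℝ)) ^ max m (k - 1) * (1 - 1 / (p : ℝ))⁻¹ := by
  classical
  have hx0 := inv_nonneg' p
  have hx1 := inv_prime_lt_one hp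
  set x := 1 / (p : ℝ) with hx
  have hk1 : (0 : ℝ) ≤ (k : ℝ) - 1 := by
    have : (3 : ℝ) ≤ k := by exact_mod_cast hk
    linarith
  have hnn : ∀ v, 0 ≤ gw k p v * zG k m N p v := fun v =>
    mul_nonneg (gw_nonneg k p v) (zG_nonneg k m N p v)
  have hsum : ∀ V : Finset ℕ, ∑ v ∈ V, gw k p v * zG k m N p v ≤
      ((k : ℝ) - 1) * x ^ max m (k - 1) * (1 - x)⁻¹ := by
    intro V
    have h1 : ∀ v ∈ V, gw k p v * zG k m N p v ≤
        ∑ e ∈ (range (N + 1)).filter (fun e => max m (k - 1) ≤ e),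
          if (∃ l, 0 < l ∧ l < k ∧ e = v + l * dd k e) then x ^ e else 0 := by
      intro v _
      have h2 : gw k p v * zG k m N p v ≤
          ∑ e ∈ (EE k N v).filter (fun e => m ≤ e), x ^ e := by
        rw [zG, mul_sum]
        refine sum_le_sum fun e he => ?_
        have h3 := lt_of_mem_EE hk (mem_filter.1 he).1
        calc gw k p v * x ^ (e - v) ≤ x ^ v * x ^ (e - v) :=
              mul_le_mul_of_nonneg_right (gw_le k p v) (pow_nonneg hx0 _)
          _ = x ^ e := by rw [← pow_add, Nat.add_sub_cancel' h3.le]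
      refine h2.trans ?_
      rw [← sum_filter]
      refine sum_le_sum_of_subset_of_nonneg ?_ fun e _ _ => pow_nonneg hx0 e
      intro e he
      obtain ⟨he1, he2⟩ := mem_filter.1 he
      obtain ⟨he3, he4, he5⟩ := mem_EE.1 he1
      refine mem_filter.2 ⟨mem_filter.2 ⟨mem_range.2 (by omega), ?_⟩, he5⟩
      exact max_le he2 (le_of_not_greedy he4)
    refine (sum_le_sum h1).trans ?_
    rw [sum_comm]
    have h4 : ∀ e ∈ (range (N + 1)).filter (fun e => max m (k - 1) ≤ e),
        ∑ v ∈ V, (if (∃ l, 0 < l ∧ l < k ∧ e = v + l * dd k e) then x ^ e else 0) ≤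
          ((k : ℝ) - 1) * x ^ e := by
      intro e _
      rw [← sum_filter, sum_const, nsmul_eq_mul]
      refine mul_le_mul_of_nonneg_right ?_ (pow_nonneg hx0 e)
      have h5 : V.filter (fun v => ∃ l, 0 < l ∧ l < k ∧ e = v + l * dd k e) ⊆
          (Ico 1 k).image (fun l => e - l * dd k e) := by
        intro v hv
        obtain ⟨_, l, hl0, hl, hle⟩ := mem_filter.1 hv
        exact mem_image.2 ⟨l, mem_Ico.2 ⟨hl0, hl⟩, by omega⟩
      have h6 := (card_le_card h5).trans card_image_le
      rw [Nat.card_Ico] at h6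
      have h7 : ((V.filter (fun v => ∃ l, 0 < l ∧ l < k ∧ e = v + l * dd k e)).card : ℝ) ≤
          ((k - 1 : ℕ) : ℝ) := by exact_mod_cast h6
      rwa [Nat.cast_sub (by omega), Nat.cast_one] at h7
    refine (sum_le_sum h4).trans ?_
    rw [← mul_sum, mul_assoc]
    exact mul_le_mul_of_nonneg_left (geom_tail hx0 hx1 _ _) hk1
  have hsm : Summable (fun v => gw k p v * zG k m N p v) :=
    summable_of_sum_le hnn hsum
  exact ⟨hsm, hsm.tsum_le_of_sum_le hsum⟩

lemma yG_avg {k N p : ℕ} (hk : 3 ≤ k) (hp : p.Prime) :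
    Summable (fun v => gw k p v * yG k N p v) ∧
      ∑' v, gw k p v * yG k N p v ≤
        ((k : ℝ) - 1) * (1 / (p : ℝ)) ^ (k - 1) * (1 - 1 / (p : ℝ))⁻¹ := by
  have h := zG_avg (k := k) (m := 0) (N := N) hk hp
  simp only [zG_zero, Nat.zero_max] at h
  exact h

/-- the load per prime is at most `1 / (p - 1)` -/
lemma yG_le {k N p v : ℕ} (hk : 3 ≤ k) (hp : p.Prime) : yG k N p v ≤ 1 / ((p : ℝ) - 1) := by
  have hx0 := inv_nonneg' p
  have hx1 := inv_prime_lt_one hp
  set x := 1 / (p : ℝ) with hx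
  have hp1 : (1 : ℝ) < p := by exact_mod_cast hp.one_lt
  have h1 : 1 / ((p : ℝ) - 1) = x * (1 - x)⁻¹ := by
    rw [hx]
    have h2 : (p : ℝ) - 1 ≠ 0 := by linarith
    have h3 : 1 - 1 / (p : ℝ) ≠ 0 := by
      rw [← hx]
      linarith
    field_simp
  rw [h1, yG]
  have h2 : ∑ e ∈ EE k N v, x ^ (e - v) = ∑ j ∈ (EE k N v).image (fun e => e - v), x ^ j := by
    rw [sum_image]
    intro e he e' he' h
    have h3 := lt_of_mem_EE hk he
    have h4 := lt_of_mem_EE hk he'
    dsimp only at h
    omega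
  rw [h2]
  have h3 : (EE k N v).image (fun e => e - v) ⊆ (range (N + 1)).filter (fun e => 1 ≤ e) := by
    intro j hj
    obtain ⟨e, he, rfl⟩ := mem_image.1 hj
    have h4 := lt_of_mem_EE hk he
    have h5 := (mem_EE.1 he).1
    exact mem_filter.2 ⟨mem_range.2 (by omega), by omega⟩
  refine (sum_le_sum_of_subset_of_nonneg h3 fun e _ _ => pow_nonneg hx0 e).trans ?_
  have h4 := geom_tail hx0 hx1 1 N
  rwa [pow_one] at h4

/-- the load per prime is at most `1 / p`, up to the part from the large exponents -/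
lemma yG_le' {k N p v : ℕ} (hk : 3 ≤ k) (hp : p.Prime) :
    yG k N p v ≤ 1 / p + zG k (k.minFac * (k - 1)) N p v := by
  have hx0 := inv_nonneg' p
  have hx1 := inv_prime_lt_one hp
  rw [yG, ← sum_filter_add_sum_filter_not (EE k N v) (fun e => k.minFac * (k - 1) ≤ e), add_comm,
    zG]
  refine add_le_add_left ?_ _
  have hmem : ∀ e ∈ (EE k N v).filter (fun e => ¬ k.minFac * (k - 1) ≤ e),
      v < e ∧ e < v + k ∧ e % k = k - 1 := by
    intro e he
    obtain ⟨he1, he2⟩ := mem_filter.1 he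
    obtain ⟨_, he4, l, hl0, hl, he5⟩ := mem_EE.1 he1
    have h1 := dd_eq_one hk he4 (by omega)
    rw [h1] at he5
    refine ⟨by omega, by omega, ?_⟩
    by_contra h
    exact he4 ((greedy_iff hk e (by omega)).2 h)
  have hcard : ((EE k N v).filter (fun e => ¬ k.minFac * (k - 1) ≤ e)).card ≤ 1 := by
    rw [card_le_one]
    intro a ha b hb
    obtain ⟨a1, a2, a3⟩ := hmem a ha
    obtain ⟨b1, b2, b3⟩ := hmem b hb
    have h1 := Nat.mod_add_div a k
    have h2 := Nat.mod_add_div b k
    rw [a3] at h1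
    rw [b3] at h2
    have h3 : a / k = b / k := by
      rcases lt_trichotomy (a / k) (b / k) with h | h | h
      · exfalso
        have h4 : k * (a / k + 1) ≤ k * (b / k) := Nat.mul_le_mul_left k h
        rw [Nat.mul_succ] at h4
        omega
      · exact h
      · exfalso
        have h4 : k * (b / k + 1) ≤ k * (a / k) := Nat.mul_le_mul_left k h
        rw [Nat.mul_succ] at h4
        omega
    rw [h3] at h1
    omega
  calc ∑ e ∈ (EE k N v).filter (fun e => ¬ k.minFac * (k - 1) ≤ e), (1 / (p : ℝ)) ^ (e - v)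
      ≤ ∑ _e ∈ (EE k N v).filter (fun e => ¬ k.minFac * (k - 1) ≤ e), 1 / (p : ℝ) := by
        refine sum_le_sum fun e he => ?_
        have h1 := (hmem e he).1
        exact pow_le_of_le_one hx0 hx1.le (by omega)
    _ = ((EE k N v).filter (fun e => ¬ k.minFac * (k - 1) ≤ e)).card * (1 / (p : ℝ)) := by
        rw [sum_const, nsmul_eq_mul]
    _ ≤ 1 * (1 / (p : ℝ)) := by
        refine mul_le_mul_of_nonneg_right ?_ hx0
        exact_mod_cast hcard
    _ = 1 / (p : ℝ) := one_mul _

end Pool.Agent.Helper80.GeoZeta
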