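import Mathlib

/-!
# MP_f5ac68_nt: an inequality for products over primes

For `0 ≤ y_p ≤ 1/p` and a finite initial segment of primes, `∏ (1 + y_p) ≤ 2 + 12 e`, where `e` is
the sum of the `∏_{p ∈ T} y_p` over the sets `T` of at least three primes.
-/

namespace Pool.Agent.Helper80.GeoZeta

open Finset

/-- elementary symmetric sums -/
noncomputable def es (y : ℕ → ℝ) (j : ℕ) (s : Finset ℕ) : ℝ :=
  ∑ T ∈ s.powersetCard j, ∏ p ∈ T, y p

lemma es_zero (y : ℕ → ℝ) (s : Finset ℕ) : es y 0 s = 1 := by simp [es]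

lemma es_empty_succ (y : ℕ → ℝ) (j : ℕ) : es y (j + 1) ∅ = 0 := by
  rw [es, powersetCard_eq_empty.2 (by simp), sum_empty]

lemma es_insert (y : ℕ → ℝ) (j : ℕ) {a : ℕ} {s : Finset ℕ} (ha : a ∉ s) :
    es y (j + 1) (insert a s) = es y (j + 1) s + y a * es y j s := by
  rw [es, powersetCard_succ_insert ha, sum_union, es, es, mul_sum]
  · congr 1
    rw [sum_image]
    · refine sum_congr rfl fun T hT => ?_
      have haT : a ∉ T := fun h => ha ((mem_powersetCard.1 hT).1 h)
      rw [prod_insert haT]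
    · intro T hT T' hT' h
      have haT : a ∉ T := fun h => ha ((mem_powersetCard.1 hT).1 h)
      have haT' : a ∉ T' := fun h => ha ((mem_powersetCard.1 hT').1 h)
      have h2 : (insert a T).erase a = (insert a T').erase a := by
        rw [h]
      rwa [erase_insert haT, erase_insert haT'] at h2
  · rw [disjoint_left]
    intro T hT hT'
    rw [mem_image] at hT'
    obtain ⟨U, _, rfl⟩ := hT'
    exact ha ((mem_powersetCard.1 hT).1 (mem_insert_self a U))

lemma es_one (y : ℕ → ℝ) (s : Finset ℕ) : es y 1 s = ∑ p ∈ s, y p := by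
  induction s using Finset.induction_on with
  | empty => rw [es_empty_succ, sum_empty]
  | insert a s ha ih => rw [es_insert y 0 ha, es_zero, sum_insert ha, ih]; ring

lemma es_nonneg (y : ℕ → ℝ) (hy : ∀ p, 0 ≤ y p) (j : ℕ) (s : Finset ℕ) : 0 ≤ es y j s :=
  sum_nonneg fun _ _ => prod_nonneg fun p _ => hy p

/-- the sum over the sets with at least three elements -/
noncomputable def e3 (y : ℕ → ℝ) (s : Finset ℕ) : ℝ :=
  ∑ T ∈ s.powerset.filter (fun T => 3 ≤ T.card), ∏ p ∈ T, y p

lemma prod_eq_e3 (y : ℕ → ℝ) (s : Finset ℕ) :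
    ∏ p ∈ s, (1 + y p) = 1 + es y 1 s + es y 2 s + e3 y s := by
  have h1 : ∏ p ∈ s, (1 + y p) = ∑ T ∈ s.powerset, ∏ p ∈ T, y p := by
    rw [prod_one_add]
  rw [h1, ← sum_filter_add_sum_filter_not s.powerset (fun T => 3 ≤ T.card), add_comm, ← e3]
  congr 1
  have h2 : s.powerset.filter (fun T => ¬ 3 ≤ T.card) =
      (s.powersetCard 0 ∪ s.powersetCard 1) ∪ s.powersetCard 2 := by
    ext T
    simp only [mem_filter, mem_powerset, mem_union, mem_powersetCard]
    constructor
    · rintro ⟨h, h'⟩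
      have : T.card = 0 ∨ T.card = 1 ∨ T.card = 2 := by omega
      tauto
    · rintro ((⟨h, h'⟩ | ⟨h, h'⟩) | ⟨h, h'⟩) <;> exact ⟨h, by omega⟩
  rw [h2, sum_union, sum_union]
  · rw [← es, ← es, ← es, es_zero]
  · rw [disjoint_left]
    intro T hT hT'
    have := (mem_powersetCard.1 hT).2
    have := (mem_powersetCard.1 hT').2
    omega
  · rw [disjoint_left]
    intro T hT hT'
    have h3 := (mem_powersetCard.1 hT').2
    rcases mem_union.1 hT with h | h
    · have := (mem_powersetCard.1 h).2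
      omega
    · have := (mem_powersetCard.1 h).2
      omega

lemma real_step {A B C Y : ℝ} (hA : 0 ≤ A) (hB : 0 ≤ B) (hC : 0 ≤ C) (hY : 0 ≤ Y)
    (hY2 : Y ≤ 1 / 2) (i1 : 0 ≤ B - A / 2 + 1 / 4) (i3 : 0 ≤ 1 + 11 * C - A - B)
    (h : Y ≤ 1 / 3 ∨ (A = 0 ∧ B = 0)) :
    0 ≤ (B + Y * A) - (A + Y) / 2 + 1 / 4 ∧ 0 ≤ C + Y * (B + C) ∧
      0 ≤ 1 + 11 * (C + Y * (B + C)) - (A + Y) - (B + Y * A) := by
  have h0 : 0 ≤ Y * (B + C) := mul_nonneg hY (add_nonneg hB hC)
  refine ⟨?_, by linarith, ?_⟩
  · rcases le_or_gt (1 / 2) A with h1 | h1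
    · nlinarith [mul_nonneg hY (sub_nonneg.2 h1)]
    · nlinarith [mul_nonneg (sub_nonneg.2 h1.le) (sub_nonneg.2 hY2)]
  · have hΦ : (1 + A - 11 * (B + C)) / 3 ≤ 1 + 11 * C - A - B := by linarith
    rcases le_or_gt (1 + A - 11 * (B + C)) 0 with hD | hD
    · nlinarith [mul_nonneg hY (neg_nonneg.2 hD)]
    · rcases h with h3 | ⟨h3, h4⟩
      · nlinarith [mul_nonneg hD.le (sub_nonneg.2 h3)]
      · subst h3 h4
        nlinarith [mul_nonneg hY hC]

/-- The inequality. -/
theorem prod_le (y : ℕ → ℝ) (hy0 : ∀ p, 0 ≤ y p) (hy : ∀ p : ℕ, p.Prime → y p ≤ 1 / p) (n : ℕ) :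
    ∏ p ∈ Nat.primesBelow n, (1 + y p) ≤ 2 + 12 * e3 y (Nat.primesBelow n) := by
  have key : ∀ n : ℕ,
      0 ≤ es y 2 (Nat.primesBelow n) - es y 1 (Nat.primesBelow n) / 2 + 1 / 4 ∧
      0 ≤ e3 y (Nat.primesBelow n) ∧
      0 ≤ 1 + 11 * e3 y (Nat.primesBelow n) - es y 1 (Nat.primesBelow n) -
        es y 2 (Nat.primesBelow n) := by
    intro n
    induction n with
    | zero =>
      have h0 : Nat.primesBelow 0 = ∅ := by simp
      have f0 := prod_eq_e3 y (Nat.primesBelow 0)
      rw [h0, es_empty_succ, es_empty_succ, prod_empty] at f0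
      rw [h0, es_empty_succ, es_empty_succ]
      have : e3 y ∅ = 0 := by linarith
      rw [this]
      norm_num
    | succ p ih =>
      by_cases hp : p.Prime
      · have hpb : Nat.primesBelow (p + 1) = insert p (Nat.primesBelow p) :=
          (Nat.primesBelow_succ p).trans (if_pos hp)
        have hnot : p ∉ Nat.primesBelow p := Nat.notMem_primesBelow p
        have e1 := es_insert y 0 hnot
        have e2 := es_insert y 1 hnot
        rw [es_zero, zero_add, mul_one] at e1
        rw [show 1 + 1 = 2 from rfl] at e2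
        have f0 := prod_eq_e3 y (Nat.primesBelow p)
        have f1 := prod_eq_e3 y (insert p (Nat.primesBelow p))
        rw [prod_insert hnot, f0, e1, e2] at f1
        have hn1 := es_nonneg y hy0 1 (Nat.primesBelow p)
        have hn2 := es_nonneg y hy0 2 (Nat.primesBelow p)
        have hyp0 := hy0 p
        have hyp := hy p hp
        have hp2 : (2 : ℝ) ≤ p := by exact_mod_cast hp.two_le
        have hyh : y p ≤ 1 / 2 := hyp.trans (one_div_le_one_div_of_le (by norm_num) hp2)
        obtain ⟨i1, i2, i3⟩ := ih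
        have hC : e3 y (insert p (Nat.primesBelow p)) = e3 y (Nat.primesBelow p) +
            y p * (es y 2 (Nat.primesBelow p) + e3 y (Nat.primesBelow p)) := by linarith
        rw [hpb, e1, e2, hC]
        refine real_step hn1 hn2 i2 hyp0 hyh i1 i3 ?_
        by_cases h2 : p = 2
        · right
          have h3 : Nat.primesBelow p = ∅ := by rw [h2]; decide
          rw [h3]
          exact ⟨es_empty_succ y 0, es_empty_succ y 1⟩
        · left
          have hp3 : (3 : ℝ) ≤ p := by
            have : 3 ≤ p := by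
              have := hp.two_le
              omega
            exact_mod_cast this
          exact hyp.trans (one_div_le_one_div_of_le (by norm_num) hp3)
      · have hpb : Nat.primesBelow (p + 1) = Nat.primesBelow p :=
          (Nat.primesBelow_succ p).trans (if_neg hp)
        rw [hpb]
        exact ih
  rw [prod_eq_e3]
  have := (key n).2.2
  linarith

end Pool.Agent.Helper80.GeoZeta
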