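import Pool.Agent.Helper80.GeoZeta.Ineq

/-!
# MP_f5ac68_nt: the inequality for products over primes, with an excess term
-/

namespace Pool.Agent.Helper80.GeoZeta

open Finset

lemma es_two (y : ℕ → ℝ) (s : Finset ℕ) :
    2 * es y 2 s = (∑ p ∈ s, y p) ^ 2 - ∑ p ∈ s, y p ^ 2 := by
  induction s using Finset.induction_on with
  | empty => rw [show 2 = 1 + 1 from rfl, es_empty_succ]; simp
  | insert a s ha ih =>
    rw [es_insert y 1 ha, sum_insert ha, sum_insert ha, es_one]
    linear_combination ih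

lemma e3_nonneg {y : ℕ → ℝ} (hy : ∀ p, 0 ≤ y p) (s : Finset ℕ) : 0 ≤ e3 y s :=
  sum_nonneg fun _ _ => prod_nonneg fun p _ => hy p

lemma e3_mono {y z : ℕ → ℝ} (hy : ∀ p, 0 ≤ y p) (hyz : ∀ p, y p ≤ z p) (s : Finset ℕ) :
    e3 y s ≤ e3 z s :=
  sum_le_sum fun _ _ => prod_le_prod (fun p _ => hy p) fun p _ => hyz p

/-- The inequality with excess `z`. -/
theorem prod_le2 (y z : ℕ → ℝ) (hy0 : ∀ p, 0 ≤ y p) (hz0 : ∀ p, 0 ≤ z p)
    (hy : ∀ p : ℕ, p.Prime → y p ≤ 1 / p + z p) (hy1 : ∀ p : ℕ, p.Prime → y p ≤ 1 / ((p : ℝ) - 1))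
    (n : ℕ) :
    ∏ p ∈ Nat.primesBelow n, (1 + y p) ≤ 2 + (12 * e3 y (Nat.primesBelow n) +
      8 * ∑ p ∈ Nat.primesBelow n, z p * ∑ q ∈ (Nat.primesBelow n).erase p, y q) := by
  set s := Nat.primesBelow n with hs
  obtain ⟨u, hu⟩ : ∃ u : ℕ → ℝ, ∀ p, u p = min (y p) (1 / p) := ⟨_, fun _ => rfl⟩
  obtain ⟨w, hw⟩ : ∃ w : ℕ → ℝ, ∀ p, w p = y p - u p := ⟨_, fun _ => rfl⟩
  have hu0 : ∀ p, 0 ≤ u p := fun p => by
    rw [hu]
    exact le_min (hy0 p) (by positivity)
  have huy : ∀ p, u p ≤ y p := fun p => by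
    rw [hu]
    exact min_le_left _ _
  have hup : ∀ p : ℕ, u p ≤ 1 / p := fun p => by
    rw [hu]
    exact min_le_right _ _
  have hw0 : ∀ p, 0 ≤ w p := fun p => by
    rw [hw]
    have := huy p
    linarith
  have hwz : ∀ p : ℕ, p.Prime → w p ≤ z p := fun p hp => by
    rw [hw, hu]
    rcases min_choice (y p) (1 / p) with h | h
    · rw [h]
      have := hz0 p
      linarith
    · rw [h]
      have := hy p hp
      linarith
  have hprime : ∀ p ∈ s, p.Prime := fun p hp => Nat.prime_of_mem_primesBelow hp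
  -- the sums over the other primes
  have hY : ∀ p ∈ s, ∑ q ∈ s.erase p, y q = (∑ q ∈ s, y q) - y p := fun p hp => by
    rw [← sum_erase_add s y hp]
    ring
  have hY0 : ∀ p, 0 ≤ ∑ q ∈ s.erase p, y q := fun p => sum_nonneg fun q _ => hy0 q
  set R := ∑ p ∈ s, z p * ∑ q ∈ s.erase p, y q with hR
  have hRp : ∀ p ∈ s, z p * ∑ q ∈ s.erase p, y q ≤ R := fun p hp =>
    single_le_sum (f := fun p => z p * ∑ q ∈ s.erase p, y q)
      (fun q _ => mul_nonneg (hz0 q) (hY0 q)) hp
  have hR0 : 0 ≤ R := sum_nonneg fun p _ => mul_nonneg (hz0 p) (hY0 p)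
  have hRw : ∑ p ∈ s, w p * ∑ q ∈ s.erase p, y q ≤ R :=
    sum_le_sum fun p hp => mul_le_mul_of_nonneg_right (hwz p (hprime p hp)) (hY0 p)
  have he3 := e3_nonneg hy0 s
  have hprod := prod_eq_e3 y s
  rw [hprod]
  suffices h : es y 1 s + es y 2 s ≤ 1 + 11 * e3 y s + 8 * R by linarith
  have e2y := es_two y s
  by_cases hcase : ∀ p ∈ s, 0 < w p → 1 / 4 ≤ ∑ q ∈ s.erase p, y q
  · -- case A
    have hW : ∑ p ∈ s, w p ≤ 4 * R := by
      refine le_trans ?_ (mul_le_mul_of_nonneg_left hRw (by norm_num))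
      rw [mul_sum]
      refine sum_le_sum fun p hp => ?_
      rcases (hw0 p).eq_or_lt with h0 | h0
      · rw [← h0]
        simp
      · have := hcase p hp h0
        nlinarith
    have e2u := es_two u s
    have e2w := es_two w s
    have hn := es_nonneg w hw0 2 s
    have hyuw : ∀ p, y p = u p + w p := fun p => by rw [hw]; ring
    have hS : ∑ p ∈ s, y p = ∑ p ∈ s, u p + ∑ p ∈ s, w p := by
      rw [← sum_add_distrib]
      exact sum_congr rfl fun p _ => hyuw p
    have hS2 : ∑ p ∈ s, y p ^ 2 = ∑ p ∈ s, u p ^ 2 + 2 * ∑ p ∈ s, w p * y p -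
        ∑ p ∈ s, w p ^ 2 := by
      rw [mul_sum, ← sum_add_distrib, ← sum_sub_distrib]
      refine sum_congr rfl fun p _ => ?_
      rw [hyuw p]
      ring
    have hWY : ∑ p ∈ s, w p * ∑ q ∈ s.erase p, y q =
        (∑ p ∈ s, w p) * (∑ q ∈ s, y q) - ∑ p ∈ s, w p * y p := by
      rw [sum_mul, ← sum_sub_distrib]
      refine sum_congr rfl fun p hp => ?_
      rw [hY p hp]
      ring
    have hpu := prod_le u hu0 (fun p _ => hup p) n
    rw [← hs, prod_eq_e3] at hpu
    have hmono := e3_mono hu0 huy s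
    have h2 : es y 2 s = es u 2 s + ∑ p ∈ s, w p * ∑ q ∈ s.erase p, y q - es w 2 s := by
      have h3 : 2 * es y 2 s = 2 * (es u 2 s + ∑ p ∈ s, w p * ∑ q ∈ s.erase p, y q - es w 2 s) := by
        rw [e2y, mul_sub, mul_add, e2u, e2w, hWY, hS2, hS]
        ring
      linarith
    have h1 : es y 1 s = es u 1 s + ∑ p ∈ s, w p := by
      rw [es_one, es_one, hS]
    rw [h1, h2]
    linarith
  · -- case B
    push Not at hcase
    obtain ⟨p, hp, hwp, hYp⟩ := hcase
    have hpp := hprime p hp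
    have hY0p := hY0 p
    set Y := ∑ q ∈ s.erase p, y q with hYdef
    have hSY : ∑ q ∈ s, y q = y p + Y := by
      have := hY p hp
      linarith
    have hsq : y p ^ 2 ≤ ∑ q ∈ s, y q ^ 2 :=
      single_le_sum (f := fun q => y q ^ 2) (fun q _ => sq_nonneg _) hp
    have h1 : es y 1 s = y p + Y := by rw [es_one, hSY]
    have h2 : es y 2 s ≤ y p * Y + Y ^ 2 / 2 := by
      rw [hSY] at e2y
      nlinarith
    have hzw : w p * Y ≤ R := (mul_le_mul_of_nonneg_right (hwz p hpp) hY0p).trans (hRp p hp)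
    have hyp := hy1 p hpp
    by_cases hp2 : p = 2
    · have hyw : y p = 1 / 2 + w p := by
        have h3 : u p = 1 / p := by
          rcases min_choice (y p) (1 / p) with h | h
          · exfalso
            have h4 : w p = 0 := by
              rw [hw, hu, h]
              ring
            linarith
          · rw [hu, h]
        have h4 := hw p
        rw [h3, hp2] at h4
        rw [hp2]
        push_cast at h4
        linarith
      have hyp1 : y p ≤ 1 := by
        rw [hp2] at hyp ⊢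
        norm_num at hyp
        exact hyp
      have hw1 : w p ≤ 1 / 2 := by linarith
      rw [h1]
      nlinarith [mul_nonneg hY0p (sub_nonneg.2 hw1), mul_nonneg hY0p (hw0 p),
        mul_nonneg (sub_nonneg.2 hw1) (sub_nonneg.2 hYp.le), mul_nonneg hY0p (sub_nonneg.2 hYp.le)]
    · have hp3 : (3 : ℝ) ≤ p := by
        have : 3 ≤ p := by
          have := hpp.two_le
          omega
        exact_mod_cast this
      have hyh : y p ≤ 1 / 2 := by
        refine hyp.trans (one_div_le_one_div_of_le (by norm_num) (by linarith))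
      rw [h1]
      nlinarith [hy0 p, mul_nonneg hY0p (sub_nonneg.2 hyh)]

end Pool.Agent.Helper80.GeoZeta
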