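import Pool.Agent.Helper80.GeoZeta.Ineq2
import Pool.Agent.Helper80.GeoZeta.Euler

/-!
# MP_f5ac68_nt: the upper bound at a finite level of smoothness
-/

namespace Pool.Agent.Helper80.GeoZeta

open Finset GeoProg

/-- the average load per prime -/
noncomputable def tt (k p : ℕ) : ℝ := ((k : ℝ) - 1) * (1 / (p : ℝ)) ^ (k - 1)

/-- the average excess per prime -/
noncomputable def tz (k p : ℕ) : ℝ := ((k : ℝ) - 1) * (1 / (p : ℝ)) ^ (k.minFac * (k - 1))

lemma tt_nonneg {k : ℕ} (hk : 3 ≤ k) (p : ℕ) : 0 ≤ tt k p := by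
  have : (3 : ℝ) ≤ k := by exact_mod_cast hk
  exact mul_nonneg (by linarith) (pow_nonneg (inv_nonneg' p) _)

lemma tz_nonneg {k : ℕ} (hk : 3 ≤ k) (p : ℕ) : 0 ≤ tz k p := by
  have : (3 : ℝ) ≤ k := by exact_mod_cast hk
  exact mul_nonneg (by linarith) (pow_nonneg (inv_nonneg' p) _)

lemma zG_avg' {k N p : ℕ} (hk : 3 ≤ k) (hp : p.Prime) :
    Summable (fun v => gw k p v * zG k (k.minFac * (k - 1)) N p v) ∧
      ∑' v, gw k p v * zG k (k.minFac * (k - 1)) N p v ≤ tz k p * (1 - 1 / (p : ℝ))⁻¹ := by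
  have h := zG_avg (k := k) (m := k.minFac * (k - 1)) (N := N) hk hp
  have h1 : max (k.minFac * (k - 1)) (k - 1) = k.minFac * (k - 1) :=
    max_eq_left (Nat.le_mul_of_pos_left _ (Nat.minFac_pos k))
  rw [h1] at h
  exact h

lemma main_term (k n : ℕ) (F : Finset ℕ)
    (hF : ∀ s ∈ F, s ∈ Nat.smoothNumbers n ∧ TG k n s = ∅) :
    ∑ s ∈ F, 1 / (s : ℝ) ≤ ∏ p ∈ Nat.primesBelow n, ∑' v, gw k p v := by
  classical
  have h1 := w_euler_le (gw k) (gw_nonneg k) (fun p hp => gw_summable k hp) n F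
    (fun s hs => (hF s hs).1)
  refine le_trans (le_of_eq (sum_congr rfl fun s hs => ?_)) h1
  obtain ⟨hs1, hs2⟩ := hF s hs
  rw [← smooth_inv hs1]
  refine prod_congr rfl fun p hp => ?_
  rw [gw, if_pos]
  by_contra hcon
  have : p ∈ TG k n s := mem_TG.2 ⟨hp, hcon⟩
  rw [hs2] at this
  exact notMem_empty p this

/-- The upper bound at level `n`. -/
theorem level {k n : ℕ} (hk : 3 ≤ k) {B : Finset ℕ} (hBs : SmoothFin n B)
    (hB : GPFree k (B : Set ℕ)) :
    hsum B ≤ ∏ p ∈ Nat.primesBelow n, ∑' v, gw k p v + (delta n)⁻¹ *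
      (12 * e3 (tt k) (Nat.primesBelow n) + 8 * ∑ p ∈ Nat.primesBelow n,
        ∑ q ∈ (Nat.primesBelow n).erase p, tz k p * tt k q) := by
  classical
  obtain ⟨N, hN⟩ : ∃ N : ℕ, ∀ b ∈ B, b ≤ N := ⟨B.sup id, fun b hb => le_sup (f := id) hb⟩
  set s := Nat.primesBelow n with hs
  set m := k.minFac * (k - 1) with hm
  set F := (SN n N).filter (fun h => TG k n h = ∅) with hF
  have hFm : ∀ h ∈ F, h ∈ Nat.smoothNumbers n ∧ TG k n h = ∅ := fun h hh =>
    ⟨(mem_SN.1 (mem_filter.1 hh).1).2, (mem_filter.1 hh).2⟩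
  have hE0 : ∀ h : ℕ, 0 ≤ 12 * e3 (fun p => yG k N p (h.factorization p)) s +
      8 * ∑ p ∈ s, zG k m N p (h.factorization p) *
        ∑ q ∈ s.erase p, yG k N q (h.factorization q) := by
    intro h
    have h1 := e3_nonneg (y := fun p => yG k N p (h.factorization p))
      (fun p => yG_nonneg k N p _) s
    have h2 : 0 ≤ ∑ p ∈ s, zG k m N p (h.factorization p) *
        ∑ q ∈ s.erase p, yG k N q (h.factorization q) :=
      sum_nonneg fun p _ => mul_nonneg (zG_nonneg k m N p _)
        (sum_nonneg fun q _ => yG_nonneg k N q _)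
    positivity
  have hmain := hsum_le2 (n := n) (N := N) hk hBs hB hN
    (fun h => 12 * e3 (fun p => yG k N p (h.factorization p)) s +
      8 * ∑ p ∈ s, zG k m N p (h.factorization p) *
        ∑ q ∈ s.erase p, yG k N q (h.factorization q)) hE0
    (fun h _ _ => prod_le2 (fun p => yG k N p (h.factorization p))
      (fun p => zG k m N p (h.factorization p)) (fun p => yG_nonneg k N p _)
      (fun p => zG_nonneg k m N p _) (fun p hp => yG_le' hk hp) (fun p hp => yG_le hk hp) n)
  refine hmain.trans ?_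
  have hsplit : ∑ h ∈ F, 1 / (h : ℝ) * (1 + (12 * e3 (fun p => yG k N p (h.factorization p)) s +
      8 * ∑ p ∈ s, zG k m N p (h.factorization p) *
        ∑ q ∈ s.erase p, yG k N q (h.factorization q))) =
      ∑ h ∈ F, 1 / (h : ℝ) + (12 * ∑ h ∈ F, 1 / (h : ℝ) *
        e3 (fun p => yG k N p (h.factorization p)) s +
      8 * ∑ h ∈ F, 1 / (h : ℝ) * ∑ p ∈ s, zG k m N p (h.factorization p) *
        ∑ q ∈ s.erase p, yG k N q (h.factorization q)) := by
    rw [mul_sum, mul_sum, ← sum_add_distrib, ← sum_add_distrib]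
    refine sum_congr rfl fun h _ => ?_
    ring
  rw [hsplit]
  -- the terms with three primes
  have h3 : ∑ h ∈ F, 1 / (h : ℝ) * e3 (fun p => yG k N p (h.factorization p)) s ≤
      (delta n)⁻¹ * e3 (tt k) s := by
    have h4 : ∑ h ∈ F, 1 / (h : ℝ) * e3 (fun p => yG k N p (h.factorization p)) s =
        ∑ T ∈ s.powerset.filter (fun T => 3 ≤ T.card), ∑ h ∈ F, 1 / (h : ℝ) *
          ∏ p ∈ T, yG k N p (h.factorization p) := by
      rw [sum_comm]
      refine sum_congr rfl fun h _ => ?_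
      rw [e3, mul_sum]
    rw [h4, e3, mul_sum]
    refine sum_le_sum fun T hT => ?_
    have hTs := mem_powerset.1 (mem_filter.1 hT).1
    exact avg_le k n T hTs (fun p v => yG k N p v) (tt k) (fun p v => yG_nonneg k N p v)
      (fun p hp => yG_avg hk (Nat.prime_of_mem_primesBelow (hTs hp))) F hFm
  -- the pairs
  have h2 : ∑ h ∈ F, 1 / (h : ℝ) * ∑ p ∈ s, zG k m N p (h.factorization p) *
        ∑ q ∈ s.erase p, yG k N q (h.factorization q) ≤
      (delta n)⁻¹ * ∑ p ∈ s, ∑ q ∈ s.erase p, tz k p * tt k q := by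
    have h4 : ∑ h ∈ F, 1 / (h : ℝ) * ∑ p ∈ s, zG k m N p (h.factorization p) *
        ∑ q ∈ s.erase p, yG k N q (h.factorization q) =
        ∑ p ∈ s, ∑ q ∈ s.erase p, ∑ h ∈ F, 1 / (h : ℝ) *
          (zG k m N p (h.factorization p) * yG k N q (h.factorization q)) := by
      have h5 : ∀ h : ℕ, 1 / (h : ℝ) * ∑ p ∈ s, zG k m N p (h.factorization p) *
          ∑ q ∈ s.erase p, yG k N q (h.factorization q) =
          ∑ p ∈ s, ∑ q ∈ s.erase p, 1 / (h : ℝ) *
            (zG k m N p (h.factorization p) * yG k N q (h.factorization q)) := by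
        intro h
        rw [mul_sum]
        refine sum_congr rfl fun p _ => ?_
        rw [mul_sum, mul_sum]
      rw [sum_congr rfl fun h _ => h5 h, sum_comm]
      refine sum_congr rfl fun p _ => ?_
      rw [sum_comm]
    rw [h4, mul_sum]
    refine sum_le_sum fun p hp => ?_
    rw [mul_sum]
    refine sum_le_sum fun q hq => ?_
    obtain ⟨hqp, hqs⟩ := mem_erase.1 hq
    have h6 := avg_le k n {p, q} (by
        intro a ha
        rcases mem_insert.1 ha with rfl | ha
        · exact hp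
        · rw [mem_singleton.1 ha]
          exact hqs)
      (fun a v => if a = p then zG k m N a v else yG k N a v)
      (fun a => if a = p then tz k a else tt k a)
      (fun a v => by
        split_ifs
        · exact zG_nonneg k m N a v
        · exact yG_nonneg k N a v)
      (fun a ha => by
        rcases mem_insert.1 ha with rfl | ha
        · simp only [if_true]
          exact zG_avg' hk (Nat.prime_of_mem_primesBelow hp)
        · rw [mem_singleton.1 ha]
          simp only [if_neg hqp]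
          exact yG_avg hk (Nat.prime_of_mem_primesBelow hqs)) F hFm
    rw [prod_pair (Ne.symm hqp)] at h6
    simp only [prod_pair (Ne.symm hqp), if_true, if_neg hqp] at h6
    exact h6
  have h1 := main_term k n F hFm
  have hδ : 0 ≤ (delta n)⁻¹ := inv_nonneg.2 (delta_pos' n).le
  calc _ ≤ ∏ p ∈ s, ∑' v, gw k p v + (12 * ((delta n)⁻¹ * e3 (tt k) s) +
        8 * ((delta n)⁻¹ * ∑ p ∈ s, ∑ q ∈ s.erase p, tz k p * tt k q)) := by
        gcongr
    _ = _ := by ring

end Pool.Agent.Helper80.GeoZeta
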