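import Pool.Agent.Helper7.GeoProg.T2
import Pool.Agent.Helper7.GeoProg.TL
import Pool.Agent.Helper7.GeoProg.P_V
import Pool.Agent.Helper7.GeoProg.P_D
import Pool.Agent.Helper7.GeoProg.P_RSD
import Pool.Agent.Helper7.GeoProg.P_Q
import Pool.Agent.Helper7.GeoProg.P_L
import Pool.Agent.Helper7.GeoProg.P_U
import Pool.Agent.Helper7.GeoProg.P_B
import Pool.Agent.Helper7.GeoProg.P_Greedy
import Pool.Agent.Helper7.GeoProg.P_P
import Pool.Agent.Helper80.GeoZeta.Dens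

/-!
# MP_f5ac68_nt: the bounds for `beta k`
-/

namespace Pool.Agent.Helper80.GeoZeta

open Finset GeoProg Filter Topology

/-- the upper bound at level `n` -/
lemma beta_le_gg {k : ℕ} (hk : 3 ≤ k) (n : ℕ) :
    beta k ≤ gg k n + 10 ^ 5 * (k : ℝ) ^ 3 / (bb k : ℝ) ^ k := by
  have hδ := delta_pos' n
  refine (beta_upper stmtR stmtL (stmtU1 stmtD1) stmtS hk n).trans ?_
  have h1 : smoothHarm k n ≤ ∏ p ∈ Nat.primesBelow n, ∑' v, gw k p v + (delta n)⁻¹ *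
      (10 ^ 5 * (k : ℝ) ^ 3 / (bb k : ℝ) ^ k) := by
    refine csSup_le (smoothHarm_nonempty k n (by omega)) ?_
    rintro y ⟨B, hB1, hB2, rfl⟩
    refine (level hk hB1 hB2).trans ?_
    have h2 := err_le hk n
    have h3 : 0 ≤ (delta n)⁻¹ := inv_nonneg.2 hδ.le
    have h4 := mul_le_mul_of_nonneg_left h2 h3
    linarith
  refine (mul_le_mul_of_nonneg_left h1 hδ.le).trans (le_of_eq ?_)
  rw [mul_add, gg, ← mul_assoc, mul_inv_cancel₀ hδ.ne', one_mul]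

/-- Rankin's set: the density and the bounds for `beta k` -/
theorem greedy_near {k : ℕ} (hk : 3 ≤ k) : ∃ g : ℝ, HasDensity (Gset k) g ∧
    zeta k / zeta (k - 1) - 4 / 2 ^ (k.minFac * (k - 1)) ≤ g ∧ g ≤ zeta k / zeta (k - 1) ∧
    beta k ≤ g + 10 ^ 5 * (k : ℝ) ^ 3 / (bb k : ℝ) ^ k := by
  obtain ⟨g, hg, hgn⟩ := exists_gg hk
  obtain ⟨h1, h2⟩ := gg_bounds hk hg
  refine ⟨g, hasDensity_Gset stmtD1 (stmtQ stmtR stmtV1 stmtV2) stmtQt stmtS
    (stmtP1 stmtR stmtS stmtD1) stmtP2 hk hg hgn, h1, h2, ?_⟩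
  exact ge_of_tendsto' (hg.add_const _) (beta_le_gg hk)

/-- the least prime factor of a number coprime to `6` -/
lemma five_le_minFac {k : ℕ} (hk : 3 ≤ k) (h6 : k.Coprime 6) : 5 ≤ k.minFac := by
  have hp := Nat.minFac_prime (show k ≠ 1 by omega)
  have hd := Nat.minFac_dvd k
  have h2 := hp.two_le
  by_contra hcon
  have h4 : k.minFac = 2 ∨ k.minFac = 3 ∨ k.minFac = 4 := by omega
  have key : ∀ q : ℕ, q.Prime → k.minFac = q → q ∣ 6 → False := by
    intro q hq he hq6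
    rw [he] at hd
    exact hq.one_lt.ne' (Nat.dvd_one.1 (h6 ▸ Nat.dvd_gcd hd hq6))
  rcases h4 with h | h | h
  · exact key 2 Nat.prime_two h (by norm_num)
  · exact key 3 Nat.prime_three h (by norm_num)
  · rw [h] at hp
    exact absurd hp (by norm_num)

lemma bb_eq {k : ℕ} (hk : 3 ≤ k) (h6 : k.Coprime 6) : bb k = 30 := by
  have h5 := five_le_minFac hk h6
  rw [bb, min_eq_left]
  have : 2 ^ 5 ≤ 2 ^ k.minFac := Nat.pow_le_pow_right (by norm_num) h5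
  omega

/-- the closed form for `k` coprime to `6` -/
theorem abs_beta_le {k : ℕ} (hk : 3 ≤ k) (h6 : k.Coprime 6) {g : ℝ} (hgb : g < beta k)
    (h1 : zeta k / zeta (k - 1) - 4 / 2 ^ (k.minFac * (k - 1)) ≤ g)
    (h2 : g ≤ zeta k / zeta (k - 1))
    (h3 : beta k ≤ g + 10 ^ 5 * (k : ℝ) ^ 3 / (bb k : ℝ) ^ k) :
    |beta k - zeta k / zeta (k - 1)| ≤ 10 ^ 5 * (k : ℝ) ^ 3 / 30 ^ k := by
  rw [bb_eq hk h6] at h3
  push_cast at h3
  have h5 := five_le_minFac hk h6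
  have hk3 : (3 : ℝ) ≤ k := by exact_mod_cast hk
  have h4 : (4 : ℝ) / 2 ^ (k.minFac * (k - 1)) ≤ 10 ^ 5 * (k : ℝ) ^ 3 / 30 ^ k := by
    have e1 : (4 : ℝ) / 2 ^ (k.minFac * (k - 1)) ≤ 4 / 2 ^ (5 * (k - 1)) := by
      refine div_le_div_of_nonneg_left (by norm_num) (by positivity) ?_
      exact pow_le_pow_right₀ (by norm_num) (Nat.mul_le_mul_right _ h5)
    have e2 : (4 : ℝ) / 2 ^ (5 * (k - 1)) = 128 / 32 ^ k := by
      obtain ⟨j, rfl⟩ : ∃ j, k = j + 1 := ⟨k - 1, by omega⟩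
      rw [Nat.add_sub_cancel, pow_mul, show (2 : ℝ) ^ 5 = 32 by norm_num]
      rw [div_eq_div_iff (by positivity) (by positivity)]
      ring
    have e3 : (128 : ℝ) / 32 ^ k ≤ 128 / 30 ^ k := by
      refine div_le_div_of_nonneg_left (by norm_num) (by positivity) ?_
      exact pow_le_pow_left₀ (by norm_num) (by norm_num) k
    have e4 : (128 : ℝ) / 30 ^ k ≤ 10 ^ 5 * (k : ℝ) ^ 3 / 30 ^ k := by
      refine div_le_div_of_nonneg_right ?_ (by positivity)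
      have : (3 : ℝ) ^ 3 ≤ (k : ℝ) ^ 3 := pow_le_pow_left₀ (by norm_num) hk3 3
      linarith
    linarith
  rw [abs_le]
  constructor <;> linarith

end Pool.Agent.Helper80.GeoZeta
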