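import Pool.Agent.Helper7.GeoProg.PM2
import Pool.Agent.Helper7.GeoProg.P_V
import Pool.Agent.Helper7.GeoProg.P_Greedy

/-!
# MP_f5ac68_nt: a local modification of Rankin's set with primes independent of `k`
-/

namespace Pool.Agent.Helper80.GeoZeta

open Finset GeoProg

/-- the removed numbers -/
def Rm (k : ℕ) (S : Finset ℕ) (b : ℕ) : Prop :=
  (∃ j, j ≠ 1 ∧ b = 2 ^ j * RR k S) ∨
  (∃ q ∈ S, ∃ x y, b = 2 ^ x * q ^ y * PP k (S.erase q) ∧ (3 * q) ^ (k - 1) ≤ 2 ^ x * q ^ y)

/-- the modified set -/
def AA (k : ℕ) (S : Finset ℕ) : Set ℕ :=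
  {b | (b ∈ Gset k ∧ ¬ Rm k S b) ∨ ∃ q, (q = 1 ∨ q ∈ S) ∧ b = 2 * RR k S * q}

lemma RR_eq {k : ℕ} {S : Finset ℕ} {q : ℕ} (hq : q ∈ S) :
    RR k S = 2 ^ (k - 2) * (q ^ (k - 2) * PP k (S.erase q)) := by
  rw [RR, PP, PP, ← mul_prod_erase S (fun r => r ^ (k - 2)) hq]

/-- the shape of the terms, `q = 1` -/
lemma shape_one {k : ℕ} {S : Finset ℕ} (hS : ∀ q ∈ S, q.Prime) (h2 : 2 ∉ S) {X : ℕ} (hX : X ≠ 0)
    (h : ∀ p : ℕ, p.Prime → p ≠ 2 → X.factorization p = if p ∈ S then k - 2 else 0) :
    X = 2 ^ X.factorization 2 * PP k S := by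
  have hP := (PP_pos hS (k := k)).ne'
  apply Nat.eq_of_factorization_eq hX (mul_ne_zero (by positivity) hP)
  intro p
  by_cases hp : p.Prime
  · rw [Nat.factorization_mul (by positivity) hP, Finsupp.add_apply, fact_PP hS p,
      Nat.prime_two.factorization_pow, Finsupp.single_apply]
    by_cases hp2 : p = 2
    · subst hp2
      simp [h2]
    · rw [if_neg (fun e => hp2 e.symm), zero_add]
      exact h p hp hp2
  · rw [Nat.factorization_eq_zero_of_not_prime _ hp, Nat.factorization_eq_zero_of_not_prime _ hp]

/-- the shape of the terms, `q ∈ S` -/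
lemma shape_q {k : ℕ} {S : Finset ℕ} (hS : ∀ q ∈ S, q.Prime) (h2 : 2 ∉ S) {q : ℕ} (hq : q ∈ S)
    {X : ℕ} (hX : X ≠ 0)
    (h : ∀ p : ℕ, p.Prime → p ≠ 2 → p ≠ q → X.factorization p = if p ∈ S then k - 2 else 0) :
    X = 2 ^ X.factorization 2 * q ^ X.factorization q * PP k (S.erase q) := by
  have hS' : ∀ r ∈ S.erase q, r.Prime := fun r hr => hS r (mem_of_mem_erase hr)
  have hP := (PP_pos hS' (k := k)).ne'
  have hqp := hS q hq
  have hq0 := hqp.ne_zero
  have hq2 : q ≠ 2 := fun e => h2 (e ▸ hq)
  apply Nat.eq_of_factorization_eq hX (mul_ne_zero (by positivity) hP)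
  intro p
  by_cases hp : p.Prime
  · rw [Nat.factorization_mul (by positivity) hP,
      Nat.factorization_mul (by positivity) (by positivity), Finsupp.add_apply, Finsupp.add_apply,
      fact_PP hS' p, Nat.prime_two.factorization_pow, hqp.factorization_pow, Finsupp.single_apply,
      Finsupp.single_apply]
    by_cases hp2 : p = 2
    · subst hp2
      simp [h2, hq2]
    · rw [if_neg (fun e => hp2 e.symm), zero_add]
      by_cases hpq : p = q
      · subst hpq
        simp
      · rw [if_neg (fun e => hpq e.symm), zero_add, h p hp hp2 hpq]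
        simp [mem_erase, hpq]
  · rw [Nat.factorization_eq_zero_of_not_prime _ hp, Nat.factorization_eq_zero_of_not_prime _ hp]

/-- large terms are removed -/
lemma pow_large {k q X Y : ℕ} (hq : 3 ≤ q) (h : 2 * (k - 1) ≤ Y ∨
    (2 * (k - 1) ≤ X ∧ k - 1 ≤ Y)) : (3 * q) ^ (k - 1) ≤ 2 ^ X * q ^ Y := by
  rcases h with h | ⟨h, h'⟩
  · calc (3 * q) ^ (k - 1) ≤ (q * q) ^ (k - 1) := Nat.pow_le_pow_left (Nat.mul_le_mul_right q hq) _
      _ = q ^ (2 * (k - 1)) := by rw [← pow_two, ← pow_mul]
      _ ≤ q ^ Y := Nat.pow_le_pow_right (by omega) h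
      _ = 1 * q ^ Y := (one_mul _).symm
      _ ≤ 2 ^ X * q ^ Y := Nat.mul_le_mul_right _ Nat.one_le_two_pow
  · calc (3 * q) ^ (k - 1) = 3 ^ (k - 1) * q ^ (k - 1) := mul_pow _ _ _
      _ ≤ 4 ^ (k - 1) * q ^ (k - 1) := Nat.mul_le_mul_right _ (Nat.pow_le_pow_left (by norm_num) _)
      _ = 2 ^ (2 * (k - 1)) * q ^ (k - 1) := by
          rw [pow_mul]
          norm_num
      _ ≤ 2 ^ X * q ^ Y := Nat.mul_le_mul (Nat.pow_le_pow_right (by norm_num) h)
          (Nat.pow_le_pow_right (by omega) h')

/-- The modified set is free of progressions. -/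
theorem AA_gpFree {k : ℕ} (hk : 3 ≤ k) {S : Finset ℕ} (hS : ∀ q ∈ S, q.Prime) (h2 : 2 ∉ S) :
    GPFree k (AA k S) := by
  have hRR := RR_pos hS (k := k)
  have hq0' : ∀ q, (q = 1 ∨ q ∈ S) → 0 < q := by
    rintro q (rfl | hq)
    · norm_num
    · exact (hS q hq).pos
  have hposA : ∀ m ∈ AA k S, 0 < m := by
    rintro m (⟨hm, _⟩ | ⟨q, hq, rfl⟩)
    · exact hm.1
    · exact Nat.mul_pos (Nat.mul_pos (by norm_num) hRR) (hq0' q hq)
  refine ⟨hposA, fun hgp => ?_⟩
  obtain ⟨x, hx, h01, hrel⟩ := (stmtV1 k _ hk hposA).1 hgp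
  have hpos : ∀ i < k, 0 < x i := fun i hi => hposA _ (hx i hi)
  obtain ⟨hval, hinc⟩ := stmtV2 k x hk hpos hrel
  have hinc' := hinc h01
  obtain ⟨hAP, _, hgr, hngr⟩ := stmtG1 k hk
  -- an added term
  obtain ⟨i0, hi0, q, hq, hxi0⟩ : ∃ i0 < k, ∃ q, (q = 1 ∨ q ∈ S) ∧ x i0 = 2 * RR k S * q := by
    by_contra hcon
    push Not at hcon
    refine (gpFree_Gset stmtV1 stmtV2 hk).2 ((stmtV1 k _ hk (fun m hm => hm.1)).2
      ⟨x, fun i hi => ?_, h01, hrel⟩)
    rcases hx i hi with h | ⟨q, hq, h⟩
    · exact h.1
    · exact absurd h (hcon i hi q hq)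
  obtain ⟨c2, d2, hv2⟩ := hval 2
  have hv20 : c2 + (i0 : ℤ) * d2 = k - 1 := by
    have h1 := hv2 i0 hi0
    rw [hxi0, fact_add hk hS h2 hq Nat.prime_two, if_pos rfl] at h1
    rw [← h1]
    omega
  -- the exponent of `2` changes
  have hd2 : d2 ≠ 0 := by
    intro hd
    subst hd
    have hadd : ∀ i < k, ∃ q, (q = 1 ∨ q ∈ S) ∧ x i = 2 * RR k S * q := by
      intro i hi
      rcases hx i hi with h | h
      · exfalso
        have h1 := h.1.2 2 Nat.prime_two
        have h3 := hv2 i hi
        have h4 : (x i).factorization 2 = k - 1 := by omega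
        rw [h4] at h1
        exact hngr h1
      · exact h
    obtain ⟨q0, hq0, e0⟩ := hadd 0 (by omega)
    obtain ⟨q1, hq1, e1⟩ := hadd 1 (by omega)
    obtain ⟨q2, hq2, e2⟩ := hadd 2 (by omega)
    have l01 := hinc' 0 1 (by omega) (by omega)
    have l12 := hinc' 1 2 (by omega) (by omega)
    have h3 := hrel 0 (by omega)
    have h2R : 0 < 2 * RR k S := by positivity
    rw [e0, e1] at l01
    rw [e1, e2] at l12
    have m01 : q0 < q1 := Nat.lt_of_mul_lt_mul_left l01
    have m12 : q1 < q2 := Nat.lt_of_mul_lt_mul_left l12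
    have hq1S : q1.Prime := by
      rcases hq1 with h | h
      · have := hq0' q0 hq0
        omega
      · exact hS q1 h
    have hq2S : q2.Prime := by
      rcases hq2 with h | h
      · have := hq0' q0 hq0
        omega
      · exact hS q2 h
    rw [show 0 + 2 = 2 from rfl, show 0 + 1 = 1 from rfl, e0, e1, e2] at h3
    have h4 : q0 * q2 = q1 ^ 2 := by
      have h5 : (2 * RR k S) ^ 2 * (q0 * q2) = (2 * RR k S) ^ 2 * q1 ^ 2 := by
        linear_combination h3
      exact Nat.eq_of_mul_eq_mul_left (by positivity) h5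
    have h5 : q2 ∣ q1 ^ 2 := ⟨q0, by rw [← h4]; ring⟩
    have h6 := (Nat.prime_dvd_prime_iff_eq hq2S hq1S).1 (hq2S.dvd_of_dvd_pow h5)
    omega
  -- the other terms
  have hother : ∀ i < k, i ≠ i0 → x i ∈ Gset k ∧ ¬ Rm k S (x i) := by
    intro i hi hne
    rcases hx i hi with h | ⟨q', hq', h⟩
    · exact h
    · exfalso
      have h1 := hv2 i hi
      rw [h, fact_add hk hS h2 hq' Nat.prime_two, if_pos rfl] at h1
      have h3 : ((i : ℤ) - i0) * d2 = 0 := by
        have h4 : ((k - 1 : ℕ) : ℤ) = (k : ℤ) - 1 := by omega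
        linear_combination (-1) * h1 - hv20 + h4
      rcases mul_eq_zero.1 h3 with h5 | h5
      · exact hne (by omega)
      · exact hd2 h5
  have hgre : ∀ i < k, i ≠ i0 → ∀ p : ℕ, p.Prime → GreedyExp k ((x i).factorization p) :=
    fun i hi hne p hp => (hother i hi hne).1.2 p hp
  -- the exponents of the other primes do not change
  have hconst : ∀ p : ℕ, p.Prime → p ≠ 2 → p ≠ q → ∀ i < k,
      (x i).factorization p = if p ∈ S then k - 2 else 0 := by
    intro p hp hp2 hpq i hi
    obtain ⟨c, d, hcd⟩ := hval p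
    have hx0 : (x i0).factorization p = if p ∈ S then k - 2 else 0 := by
      rw [hxi0, fact_add hk hS h2 hq hp, if_neg hp2, if_neg hpq]
    have hd := ap_const hAP hk (fun i => (x i).factorization p) c d hcd (fun j hj => by
      by_cases hj0 : j = i0
      · subst hj0
        show GreedyExp k ((x j).factorization p)
        rw [hx0]
        apply greedyExp_of_lt
        split_ifs <;> omega
      · exact hgre j hj hj0 p hp)
    rw [← hx0]
    have h1 := hcd i hi
    have h3 := hcd i0 hi0
    rw [hd, mul_zero] at h1 h3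
    omega
  have hk2 : ((k - 1 : ℕ) : ℤ) = (k : ℤ) - 1 := by omega
  -- the exponent of `2`
  have hv2' : ∀ i < k, ((x i).factorization 2 : ℤ) = k - 1 + ((i : ℤ) - i0) * d2 := by
    intro i hi
    rw [hv2 i hi]
    linear_combination hv20
  rcases hq with hq1 | hqS
  · -- `q = 1`
    subst hq1
    have hshape : ∀ i < k, x i = 2 ^ (x i).factorization 2 * PP k S := fun i hi =>
      shape_one hS h2 (hpos i hi).ne' fun p hp hp2 => hconst p hp hp2 hp.one_lt.ne' i hi
    have hhit : ∀ i < k, i ≠ i0 → (x i).factorization 2 < k - 2 := by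
      intro i hi hne
      by_contra hcon
      push Not at hcon
      refine (hother i hi hne).2 (Or.inl ⟨(x i).factorization 2 - (k - 2), ?_, ?_⟩)
      · intro h1
        have h3 := hv2' i hi
        have h4 : (x i).factorization 2 = k - 1 := by omega
        rw [h4, hk2] at h3
        have h5 : ((i : ℤ) - i0) * d2 = 0 := by linarith
        rcases mul_eq_zero.1 h5 with h6 | h6
        · exact hne (by omega)
        · exact hd2 h6
      · rw [RR, ← mul_assoc, ← pow_add, Nat.sub_add_cancel hcon]
        exact hshape i hi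
    have hPP := PP_pos hS (k := k)
    have hd2pos : 0 < d2 := by
      have l01 := hinc' 0 1 (by omega) (by omega)
      rw [hshape 0 (by omega), hshape 1 (by omega)] at l01
      have h1 := Nat.lt_of_mul_lt_mul_right l01
      have h3 := (Nat.pow_lt_pow_iff_right (by norm_num)).1 h1
      have h4 := hv2' 0 (by omega)
      have h5 := hv2' 1 (by omega)
      push_cast at h4 h5
      have h6 : ((x 1).factorization 2 : ℤ) - (x 0).factorization 2 = d2 := by
        rw [h4, h5]
        ring
      omega
    by_cases hlast : i0 = k - 1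
    · -- `2 R` is the top
      have h0 := hv2' 0 (by omega)
      have h1 := hv2' (k - 2) (by omega)
      have h3 := hhit (k - 2) (by omega) (by omega)
      have h4 : (i0 : ℤ) = k - 1 := by omega
      rw [h4] at h0 h1
      push_cast at h0
      have h5 : (0 : ℤ) ≤ (x 0).factorization 2 := Int.natCast_nonneg _
      have hk3 : (3 : ℤ) ≤ k := by exact_mod_cast hk
      have h6 : d2 ≤ 1 := by
        by_contra hcon
        push Not at hcon
        nlinarith
      have h7 : d2 = 1 := by omega
      have h8 : ((k - 2 : ℕ) : ℤ) = (k : ℤ) - 2 := by omega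
      rw [h7, h8] at h1
      omega
    · have h1 := hv2' (k - 1) (by omega)
      have h3 := hhit (k - 1) (by omega) (fun e => hlast e.symm)
      rw [hk2] at h1
      have h4 : (0 : ℤ) ≤ ((k : ℤ) - 1 - i0) * d2 := by
        apply mul_nonneg _ hd2pos.le
        omega
      omega
  · -- `q ∈ S`
    have hqp := hS q hqS
    have hq2 : q ≠ 2 := fun e => h2 (e ▸ hqS)
    have hq3 : 3 ≤ q := by
      have := hqp.two_le
      omega
    obtain ⟨cq, dq, hvq⟩ := hval q
    have hvq0 : cq + (i0 : ℤ) * dq = k - 1 := by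
      have h1 := hvq i0 hi0
      rw [hxi0, fact_add hk hS h2 (Or.inr hqS) hqp, if_neg hq2, if_pos rfl] at h1
      rw [← h1]
      omega
    have hvq' : ∀ i < k, ((x i).factorization q : ℤ) = k - 1 + ((i : ℤ) - i0) * dq := by
      intro i hi
      rw [hvq i hi]
      linear_combination hvq0
    have hdq : dq ≠ 0 := by
      intro hd
      obtain ⟨i, hi, hne⟩ : ∃ i < k, i ≠ i0 := by
        by_cases h : i0 = 0
        · exact ⟨1, by omega, by omega⟩
        · exact ⟨0, by omega, fun e => h e.symm⟩
      have h1 := hgre i hi hne q hqp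
      have h3 := hvq' i hi
      rw [hd, mul_zero, add_zero] at h3
      have h4 : (x i).factorization q = k - 1 := by omega
      rw [h4] at h1
      exact hngr h1
    have hshape : ∀ i < k, x i = 2 ^ (x i).factorization 2 * q ^ (x i).factorization q *
        PP k (S.erase q) := fun i hi =>
      shape_q hS h2 hqS (hpos i hi).ne' fun p hp hp2 hpq => hconst p hp hp2 hpq i hi
    have hS' : ∀ r ∈ S.erase q, r.Prime := fun r hr => hS r (mem_of_mem_erase hr)
    have hPP := PP_pos hS' (k := k)
    -- a term next to the centre is removed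
    have hhit : ∀ i < k, i ≠ i0 → (x i).factorization q = k - 2 →
        (x i).factorization 2 < k - 2 := by
      intro i hi hne hvi
      by_contra hcon
      push Not at hcon
      refine (hother i hi hne).2 (Or.inl ⟨(x i).factorization 2 - (k - 2), ?_, ?_⟩)
      · intro h1
        have h3 := hv2' i hi
        have h4 : (x i).factorization 2 = k - 1 := by omega
        rw [h4, hk2] at h3
        have h5 : ((i : ℤ) - i0) * d2 = 0 := by linarith
        rcases mul_eq_zero.1 h5 with h6 | h6
        · exact hne (by omega)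
        · exact hd2 h6
      · have h1 := hshape i hi
        rw [hvi] at h1
        rw [RR_eq hqS, ← mul_assoc, ← mul_assoc, ← pow_add, Nat.sub_add_cancel hcon]
        exact h1
    -- the top is not large
    have htop : i0 ≠ k - 1 → ¬ (2 * (k - 1) ≤ (x (k - 1)).factorization q ∨
        (2 * (k - 1) ≤ (x (k - 1)).factorization 2 ∧ k - 1 ≤ (x (k - 1)).factorization q)) := by
      intro hne hl
      refine (hother (k - 1) (by omega) (fun e => hne e.symm)).2 (Or.inr ⟨q, hqS, _, _,
        hshape (k - 1) (by omega), pow_large hq3 hl⟩)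
    have hi0Z : (i0 : ℤ) ≤ k - 1 := by omega
    have hi0n : (0 : ℤ) ≤ i0 := Int.natCast_nonneg _
    have hk3 : (3 : ℤ) ≤ k := by exact_mod_cast hk
    have b2 := hv2' 0 (by omega)
    have bq := hvq' 0 (by omega)
    have t2 := hv2' (k - 1) (by omega)
    have tq := hvq' (k - 1) (by omega)
    rw [hk2] at t2 tq
    push_cast at b2 bq
    have b2n : (0 : ℤ) ≤ (x 0).factorization 2 := Int.natCast_nonneg _
    have bqn : (0 : ℤ) ≤ (x 0).factorization q := Int.natCast_nonneg _
    have t2n : (0 : ℤ) ≤ (x (k - 1)).factorization 2 := Int.natCast_nonneg _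
    have tqn : (0 : ℤ) ≤ (x (k - 1)).factorization q := Int.natCast_nonneg _
    -- growth between the first two terms
    have hgrow : 2 ^ (x 0).factorization 2 * q ^ (x 0).factorization q <
        2 ^ (x 1).factorization 2 * q ^ (x 1).factorization q := by
      have l01 := hinc' 0 1 (by omega) (by omega)
      rw [hshape 0 (by omega), hshape 1 (by omega)] at l01
      exact Nat.lt_of_mul_lt_mul_right l01
    have s2 : ((x 1).factorization 2 : ℤ) = (x 0).factorization 2 + d2 := by
      have h1 := hv2' 1 (by omega)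
      push_cast at h1
      rw [h1, b2]
      ring
    have sq : ((x 1).factorization q : ℤ) = (x 0).factorization q + dq := by
      have h1 := hvq' 1 (by omega)
      push_cast at h1
      rw [h1, bq]
      ring
    -- if the exponent of `q` goes down, the exponent of `2` goes up
    have hdown : ∀ m : ℕ, (m : ℤ) ≤ -dq → q ^ m * 2 ^ (x 0).factorization 2 <
        2 ^ (x 1).factorization 2 := by
      intro m hm
      obtain ⟨e, he⟩ : ∃ e, (x 0).factorization q = (x 1).factorization q + m + e :=
        ⟨(x 0).factorization q - (x 1).factorization q - m, by omega⟩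
      rw [he, pow_add, pow_add] at hgrow
      have h1 : 1 ≤ q ^ e := Nat.one_le_pow _ _ hqp.pos
      have h3 : 0 < q ^ (x 1).factorization q := Nat.pow_pos hqp.pos
      have h4 : (q ^ m * 2 ^ (x 0).factorization 2) * q ^ (x 1).factorization q <
          2 ^ (x 1).factorization 2 * q ^ (x 1).factorization q := by
        refine lt_of_le_of_lt ?_ hgrow
        calc (q ^ m * 2 ^ (x 0).factorization 2) * q ^ (x 1).factorization q
            = 2 ^ (x 0).factorization 2 * (q ^ (x 1).factorization q * q ^ m * 1) := by ring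
          _ ≤ 2 ^ (x 0).factorization 2 * (q ^ (x 1).factorization q * q ^ m * q ^ e) :=
              Nat.mul_le_mul_left _ (Nat.mul_le_mul_left _ h1)
      exact Nat.lt_of_mul_lt_mul_right h4
    rcases lt_or_ge dq 0 with hneg | hpos'
    · rcases (show dq = -1 ∨ dq ≤ -2 by omega) with h1 | h1
      · -- `dq = -1`
        have h3 := hdown 1 (by omega)
        have h4 : 2 ≤ d2 := by
          by_contra hcon
          push Not at hcon
          have h5 : (x 1).factorization 2 ≤ (x 0).factorization 2 + 1 := by omega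
          have h6 : 2 ^ (x 1).factorization 2 ≤ 2 ^ ((x 0).factorization 2 + 1) :=
            Nat.pow_le_pow_right (by norm_num) h5
          rw [pow_succ] at h6
          have h7 : 0 < 2 ^ (x 0).factorization 2 := by positivity
          rw [pow_one] at h3
          nlinarith
        by_cases hlast : i0 = k - 1
        · have h5 : (i0 : ℤ) = k - 1 := by omega
          rw [h5] at b2
          nlinarith
        · have h5 := hvq' (i0 + 1) (by omega)
          have h6 := hv2' (i0 + 1) (by omega)
          push_cast at h5 h6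
          rw [h1] at h5
          have h7 := hhit (i0 + 1) (by omega) (by omega) (by omega)
          have h8 : ((i0 : ℤ) + 1 - i0) * d2 = d2 := by ring
          rw [h8] at h6
          omega
      · -- `dq ≤ -2`
        have h3 := hdown 2 (by omega)
        have h4 : 4 ≤ d2 := by
          by_contra hcon
          push Not at hcon
          have h5 : (x 1).factorization 2 ≤ (x 0).factorization 2 + 3 := by omega
          have h6 : 2 ^ (x 1).factorization 2 ≤ 2 ^ ((x 0).factorization 2 + 3) :=
            Nat.pow_le_pow_right (by norm_num) h5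
          rw [pow_add] at h6
          have h7 : 0 < 2 ^ (x 0).factorization 2 := by positivity
          have h8 : 9 ≤ q ^ 2 := by nlinarith
          nlinarith
        have h5 : (i0 : ℤ) * 4 ≤ i0 * d2 := mul_le_mul_of_nonneg_left h4 hi0n
        have h6 : ((k : ℤ) - 1 - i0) * 2 ≤ ((k : ℤ) - 1 - i0) * (-dq) :=
          mul_le_mul_of_nonneg_left (by omega) (by omega)
        have h7 : (0 - (i0 : ℤ)) * d2 = -(i0 * d2) := by ring
        have h8 : ((k : ℤ) - 1 - i0) * dq = -(((k : ℤ) - 1 - i0) * (-dq)) := by ring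
        rw [h7] at b2
        rw [h8] at tq
        omega
    · rcases (show dq = 1 ∨ 2 ≤ dq by omega) with h1 | h1
      · -- `dq = 1`
        rcases Nat.eq_zero_or_pos i0 with h0 | h0
        · -- the centre is the first term
          have h3 := htop (by omega)
          apply h3
          left
          rw [h0, h1] at tq
          push_cast at tq
          omega
        · by_cases hd : d2 ≤ 1
          · have h5 := hvq' (i0 - 1) (by omega)
            have h6 := hv2' (i0 - 1) (by omega)
            have h9 : ((i0 - 1 : ℕ) : ℤ) = i0 - 1 := by omega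
            rw [h9] at h5 h6
            rw [h1] at h5
            have h7 := hhit (i0 - 1) (by omega) (by omega) (by omega)
            have h8 : ((i0 : ℤ) - 1 - i0) * d2 = -d2 := by ring
            rw [h8] at h6
            omega
          · push Not at hd
            have h5 : (i0 : ℤ) * 2 ≤ i0 * d2 := mul_le_mul_of_nonneg_left (by omega) hi0n
            have h7 : (0 - (i0 : ℤ)) * d2 = -(i0 * d2) := by ring
            rw [h7] at b2
            have h6 : ((k : ℤ) - 1 - i0) * 2 ≤ ((k : ℤ) - 1 - i0) * d2 :=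
              mul_le_mul_of_nonneg_left (by omega) (by omega)
            have h3 := htop (by omega)
            apply h3
            right
            rw [h1, mul_one] at tq
            constructor <;> omega
      · -- `2 ≤ dq`
        have h5 : (i0 : ℤ) * 2 ≤ i0 * dq := mul_le_mul_of_nonneg_left h1 hi0n
        have h7 : (0 - (i0 : ℤ)) * dq = -(i0 * dq) := by ring
        rw [h7] at bq
        have h6 : ((k : ℤ) - 1 - i0) * 2 ≤ ((k : ℤ) - 1 - i0) * dq :=
          mul_le_mul_of_nonneg_left h1 (by omega)
        have h3 := htop (by omega)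
        apply h3
        left
        omega

end Pool.Agent.Helper80.GeoZeta
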