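import Pool.Agent.Helper7.GeoProg.PM4
import Pool.Agent.Helper80.GeoZeta.Mod
import Pool.Agent.Helper80.GeoZeta.Main

/-!
# MP_f5ac68_nt: the weights of the local modification
-/

namespace Pool.Agent.Helper80.GeoZeta

open Finset GeoProg

/-- powers of two above a bound -/
lemma geo_set (X : Finset ℕ) (L : ℝ) (hL : 0 < L) (hX : ∀ x ∈ X, L ≤ 2 ^ x) :
    ∑ x ∈ X, (1 / 2 : ℝ) ^ x ≤ 2 / L := by
  rcases X.eq_empty_or_nonempty with rfl | hne
  · rw [sum_empty]
    positivity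
  · set x0 := X.min' hne with hx0
    have h1 : X ⊆ (range (X.sup id + 1)).filter (fun e => x0 ≤ e) := by
      intro x hx
      refine mem_filter.2 ⟨mem_range.2 ?_, X.min'_le x hx⟩
      have : id x ≤ X.sup id := le_sup hx
      simp only [id] at this
      omega
    have h2 := geom_tail (x := (1 / 2 : ℝ)) (by norm_num) (by norm_num) x0 (X.sup id)
    have h3 := hX x0 (X.min'_mem hne)
    calc ∑ x ∈ X, (1 / 2 : ℝ) ^ x ≤
          ∑ e ∈ (range (X.sup id + 1)).filter (fun e => x0 ≤ e), (1 / 2 : ℝ) ^ e :=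
          sum_le_sum_of_subset_of_nonneg h1 fun _ _ _ => by positivity
      _ ≤ (1 / 2 : ℝ) ^ x0 * (1 - 1 / 2)⁻¹ := h2
      _ = 2 / 2 ^ x0 := by
          rw [one_div_pow]
          norm_num
          ring
      _ ≤ 2 / L := div_le_div_of_nonneg_left (by norm_num) hL h3

/-- the sum over pairs -/
lemma pair_sum {k q : ℕ} (hk : 3 ≤ k) (hq : 3 ≤ q) (M : ℕ) :
    ∑ y ∈ range M, (1 / (q : ℝ)) ^ y *
      ∑ x ∈ (range M).filter (fun x => (3 * q) ^ (k - 1) ≤ 2 ^ x * q ^ y), (1 / 2 : ℝ) ^ x ≤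
      4 * k / ((3 * q : ℕ) : ℝ) ^ (k - 1) := by
  set Y : ℝ := ((3 * q : ℕ) : ℝ) ^ (k - 1) with hY
  have hq3 : (3 : ℝ) ≤ q := by exact_mod_cast hq
  have hY0 : 0 < Y := by
    rw [hY]
    have : (0 : ℝ) < ((3 * q : ℕ) : ℝ) := by
      push_cast
      linarith
    positivity
  have hx0 : (0 : ℝ) ≤ 1 / q := by positivity
  have hx1 : 1 / (q : ℝ) ≤ 1 / 3 := one_div_le_one_div_of_le (by norm_num) hq3
  have hterm : ∀ y ∈ range M, (1 / (q : ℝ)) ^ y *
      ∑ x ∈ (range M).filter (fun x => (3 * q) ^ (k - 1) ≤ 2 ^ x * q ^ y), (1 / 2 : ℝ) ^ x ≤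
      if 2 * (k - 1) ≤ y then 2 * (1 / (q : ℝ)) ^ y else 2 / Y := by
    intro y _
    have hqy : (0 : ℝ) < (q : ℝ) ^ y := by positivity
    split_ifs with h
    · have h1 := geo_set ((range M).filter (fun x => (3 * q) ^ (k - 1) ≤ 2 ^ x * q ^ y)) 1 one_pos
        (fun x _ => one_le_pow₀ (by norm_num))
      rw [div_one] at h1
      rw [mul_comm]
      exact mul_le_mul_of_nonneg_right h1 (by positivity)
    · have h1 := geo_set ((range M).filter (fun x => (3 * q) ^ (k - 1) ≤ 2 ^ x * q ^ y))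
        (Y / q ^ y) (by positivity) (fun x hx => by
          rw [div_le_iff₀ hqy, hY]
          exact_mod_cast (mem_filter.1 hx).2)
      calc _ ≤ (1 / (q : ℝ)) ^ y * (2 / (Y / q ^ y)) :=
            mul_le_mul_of_nonneg_left h1 (by positivity)
        _ = 2 / Y := by
            rw [one_div_pow]
            field_simp
  refine (sum_le_sum hterm).trans ?_
  rw [sum_ite, sum_const, nsmul_eq_mul, ← mul_sum]
  have h1 : ∑ y ∈ (range M).filter (fun y => 2 * (k - 1) ≤ y), (1 / (q : ℝ)) ^ y ≤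
      (1 / (q : ℝ)) ^ (2 * (k - 1)) * (1 - 1 / (q : ℝ))⁻¹ := by
    refine le_trans ?_ (geom_tail hx0 (by linarith) (2 * (k - 1)) M)
    refine sum_le_sum_of_subset_of_nonneg ?_ fun _ _ _ => by positivity
    intro y hy
    obtain ⟨a, b⟩ := mem_filter.1 hy
    exact mem_filter.2 ⟨mem_range.2 (by
      have := mem_range.1 a
      omega), b⟩
  have h2 : (1 - 1 / (q : ℝ))⁻¹ ≤ 3 / 2 := by
    rw [inv_le_comm₀ (by linarith) (by norm_num)]
    norm_num
    have : (q : ℝ)⁻¹ = 1 / q := (one_div _).symm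
    rw [this]
    linarith
  have h3 : (1 / (q : ℝ)) ^ (2 * (k - 1)) ≤ 1 / Y := by
    rw [one_div_pow]
    apply one_div_le_one_div_of_le hY0
    rw [hY, pow_mul]
    refine pow_le_pow_left₀ (by positivity) ?_ _
    push_cast
    nlinarith
  have h4 : (1 / (q : ℝ)) ^ (2 * (k - 1)) * (1 - 1 / (q : ℝ))⁻¹ ≤ 1 / Y * (3 / 2) := by
    refine mul_le_mul h3 h2 ?_ (by positivity)
    rw [inv_nonneg]
    linarith
  have h5 : (((range M).filter (fun y => ¬ 2 * (k - 1) ≤ y)).card : ℝ) ≤ 2 * ((k : ℝ) - 1) := by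
    have h6 : (range M).filter (fun y => ¬ 2 * (k - 1) ≤ y) ⊆ range (2 * (k - 1)) := by
      intro y hy
      have := (mem_filter.1 hy).2
      exact mem_range.2 (by omega)
    have h7 := card_le_card h6
    rw [card_range] at h7
    have h8 : (((range M).filter (fun y => ¬ 2 * (k - 1) ≤ y)).card : ℝ) ≤
        ((2 * (k - 1) : ℕ) : ℝ) := by exact_mod_cast h7
    rw [Nat.cast_mul, Nat.cast_sub (by omega)] at h8
    exact_mod_cast h8
  have h6 : (((range M).filter (fun y => ¬ 2 * (k - 1) ≤ y)).card : ℝ) * (2 / Y) ≤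
      2 * ((k : ℝ) - 1) * (2 / Y) := mul_le_mul_of_nonneg_right h5 (by positivity)
  have h7 : 2 * ((k : ℝ) - 1) * (2 / Y) + 2 * (1 / Y * (3 / 2)) ≤ 4 * k / Y := by
    have e : 4 * (k : ℝ) / Y - (2 * ((k : ℝ) - 1) * (2 / Y) + 2 * (1 / Y * (3 / 2))) = 1 / Y := by
      ring
    have : 0 < 1 / Y := by positivity
    linarith
  linarith

/-- the weight of the removed numbers of the second kind -/
lemma hsum_rem {k q W : ℕ} (hk : 3 ≤ k) (hq : 3 ≤ q) (hW : 0 < W) (F : Finset ℕ)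
    (hF : ∀ b ∈ F, ∃ x y, b = 2 ^ x * q ^ y * W ∧ (3 * q) ^ (k - 1) ≤ 2 ^ x * q ^ y) :
    hsum F ≤ 4 * k / (((3 * q : ℕ) : ℝ) ^ (k - 1) * W) := by
  classical
  have hW' : (0 : ℝ) < W := by exact_mod_cast hW
  have hq' : (0 : ℝ) < q := by
    have : (3 : ℝ) ≤ q := by exact_mod_cast hq
    linarith
  choose! xs ys hb hY using hF
  set M := F.sup (fun b => xs b + ys b) + 1 with hM
  have hMb : ∀ b ∈ F, xs b < M ∧ ys b < M := by
    intro b hbF
    have : xs b + ys b ≤ F.sup (fun b => xs b + ys b) := le_sup (f := fun b => xs b + ys b) hbF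
    omega
  have hinj : Set.InjOn (fun b => (ys b, xs b)) (F : Set ℕ) := by
    intro a ha b hb' hab
    have h1 := hb a ha
    have h2 := hb b hb'
    simp only [Prod.mk.injEq] at hab
    rw [h1, h2, hab.1, hab.2]
  have h1 : hsum F = ∑ z ∈ F.image (fun b => (ys b, xs b)),
      (1 / (q : ℝ)) ^ z.1 * (1 / 2 : ℝ) ^ z.2 * (1 / W) := by
    rw [sum_image hinj, hsum]
    refine sum_congr rfl fun b hbF => ?_
    have h2 : (b : ℝ) = 2 ^ xs b * (q : ℝ) ^ ys b * W := by
      have h3 := hb b hbF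
      have h4 : ((b : ℕ) : ℝ) = ((2 ^ xs b * q ^ ys b * W : ℕ) : ℝ) := by rw [← h3]
      rw [h4]
      push_cast
      ring
    dsimp only
    rw [h2, one_div_pow, one_div_pow]
    field_simp
  rw [h1, ← sum_mul]
  have h2 : ∑ z ∈ F.image (fun b => (ys b, xs b)), (1 / (q : ℝ)) ^ z.1 * (1 / 2 : ℝ) ^ z.2 ≤
      ∑ y ∈ range M, (1 / (q : ℝ)) ^ y *
      ∑ x ∈ (range M).filter (fun x => (3 * q) ^ (k - 1) ≤ 2 ^ x * q ^ y), (1 / 2 : ℝ) ^ x := by
    have h3 : ∑ y ∈ range M, (1 / (q : ℝ)) ^ y *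
      ∑ x ∈ (range M).filter (fun x => (3 * q) ^ (k - 1) ≤ 2 ^ x * q ^ y), (1 / 2 : ℝ) ^ x =
      ∑ z ∈ (range M ×ˢ range M).filter (fun z => (3 * q) ^ (k - 1) ≤ 2 ^ z.2 * q ^ z.1),
        (1 / (q : ℝ)) ^ z.1 * (1 / 2 : ℝ) ^ z.2 := by
      rw [sum_filter, sum_product]
      refine sum_congr rfl fun y _ => ?_
      rw [mul_sum, sum_filter]
    rw [h3]
    refine sum_le_sum_of_subset_of_nonneg ?_ fun _ _ _ => by positivity
    intro z hz
    obtain ⟨b, hbF, rfl⟩ := mem_image.1 hz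
    obtain ⟨a1, a2⟩ := hMb b hbF
    exact mem_filter.2 ⟨mem_product.2 ⟨mem_range.2 a2, mem_range.2 a1⟩, hY b hbF⟩
  have h3 := pair_sum hk hq M
  have h4 : 4 * (k : ℝ) / (((3 * q : ℕ) : ℝ) ^ (k - 1) * W) =
      4 * k / ((3 * q : ℕ) : ℝ) ^ (k - 1) * (1 / W) := by
    rw [mul_one_div, div_div]
  rw [h4]
  exact mul_le_mul_of_nonneg_right (h2.trans h3) (by positivity)

/-- the modified set gives a better smooth set -/
theorem smooth_gain {k n : ℕ} (hk : 3 ≤ k) {S : Finset ℕ} (hS : ∀ q ∈ S, q.Prime) (h2 : 2 ∉ S)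
    (hn : 3 ≤ n) (hSn : ∀ q ∈ S, q < n) :
    ∏ p ∈ Nat.primesBelow n, ∑' v, gw k p v +
      (1 / (2 * (RR k S : ℝ)) * (1 + ∑ q ∈ S, (1 : ℝ) / q) - 2 / RR k S -
        ∑ q ∈ S, 4 * k / (((3 * q : ℕ) : ℝ) ^ (k - 1) * PP k (S.erase q))) ≤ smoothHarm k n := by
  classical
  have h1S : 1 ∉ S := fun h => Nat.not_prime_one (hS 1 h)
  have hR := RR_pos hS (k := k)
  set R := RR k S with hRdef
  have hR' : (0 : ℝ) < R := by exact_mod_cast hR
  obtain ⟨hAP, _, hgr, hngr⟩ := stmtG1 k hk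
  have hqpos : ∀ q, (q = 1 ∨ q ∈ S) → 0 < q := by
    rintro q (rfl | hq)
    · norm_num
    · exact (hS q hq).pos
  refine le_of_forall_pos_le_add fun ε hε => ?_
  obtain ⟨T, hT⟩ := stmtP2 k n hk ε hε
  have hgw : ∏ p ∈ Nat.primesBelow n,
      ∑' a : ℕ, {a | GreedyExp k a}.indicator (fun a : ℕ => 1 / (p : ℝ) ^ a) a =
      ∏ p ∈ Nat.primesBelow n, ∑' v, gw k p v :=
    prod_congr rfl fun p _ => by rw [← gw_indicator]
  rw [hgw] at hT
  set B : Finset ℕ := (Finset.range (T + 1)).filter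
    (fun s => s ∈ Nat.smoothNumbers n ∧ s ∈ Gset k) with hB
  have hmem : ∀ s : ℕ, s ∈ B ↔ (s ≤ T ∧ s ∈ Nat.smoothNumbers n ∧ s ∈ Gset k) := by
    intro s
    rw [hB, Finset.mem_filter, Finset.mem_range, Nat.lt_succ_iff]
  have hBW := hT T le_rfl B hmem
  set Add : Finset ℕ := (insert 1 S).image (fun q => 2 * R * q) with hAdd
  have hmemAdd : ∀ b, b ∈ Add ↔ ∃ q, (q = 1 ∨ q ∈ S) ∧ b = 2 * R * q := by
    intro b
    rw [hAdd, Finset.mem_image]
    constructor
    · rintro ⟨q, hq, rfl⟩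
      exact ⟨q, Finset.mem_insert.1 hq, rfl⟩
    · rintro ⟨q, hq, rfl⟩
      exact ⟨q, Finset.mem_insert.2 hq, rfl⟩
  set Bg := B.filter (fun b => ¬ Rm k S b) with hBg
  have hAddB : ∀ b ∈ Add, b ∉ B := by
    intro b hb hbB
    obtain ⟨q, hq, rfl⟩ := (hmemAdd b).1 hb
    have h4 := ((hmem _).1 hbB).2.2.2 2 Nat.prime_two
    rw [fact_add hk hS h2 hq Nat.prime_two] at h4
    simp only [if_true] at h4
    exact hngr h4
  -- the set is admissible
  have hle : hsum (Bg ∪ Add) ≤ smoothHarm k n := by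
    refine le_smoothHarm stmtS ?_ ?_
    · intro b hb
      rcases Finset.mem_union.1 hb with hb | hb
      · exact ((hmem b).1 (Finset.mem_filter.1 hb).1).2.1
      · obtain ⟨q, hq, rfl⟩ := (hmemAdd b).1 hb
        have hpos : 0 < 2 * R * q := Nat.mul_pos (by positivity) (hqpos q hq)
        rw [Nat.mem_smoothNumbers']
        intro p hp hd
        have h3 : (2 * R * q).factorization p ≠ 0 := by
          have := (hp.dvd_iff_one_le_factorization hpos.ne').1 hd
          omega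
        rw [fact_add hk hS h2 hq hp] at h3
        by_cases hp2 : p = 2
        · omega
        · rw [if_neg hp2] at h3
          by_cases hpq : p = q
          · rcases hq with hq | hq
            · rw [hpq, hq] at hp
              exact absurd hp Nat.not_prime_one
            · rw [hpq]
              exact hSn q hq
          · rw [if_neg hpq] at h3
            by_cases hpS : p ∈ S
            · exact hSn p hpS
            · rw [if_neg hpS] at h3
              exact absurd rfl h3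
    · refine (AA_gpFree hk hS h2).mono ?_
      intro b hb
      rcases Finset.mem_union.1 (Finset.mem_coe.1 hb) with hb | hb
      · exact Or.inl ⟨((hmem b).1 (Finset.mem_filter.1 hb).1).2.2, (Finset.mem_filter.1 hb).2⟩
      · exact Or.inr ((hmemAdd b).1 hb)
  have hdisj : Disjoint Bg Add := by
    rw [Finset.disjoint_left]
    intro b hb hb'
    exact hAddB b hb' (Finset.mem_filter.1 hb).1
  have hsum' : hsum (Bg ∪ Add) = hsum Bg + hsum Add := by
    unfold hsum
    exact Finset.sum_union hdisj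
  have hsB : hsum B = hsum (B.filter (fun b => Rm k S b)) + hsum Bg := by
    unfold hsum
    exact (Finset.sum_filter_add_sum_filter_not B (fun b => Rm k S b) _).symm
  have hAddsum : hsum Add = 1 / (2 * (R : ℝ)) * (1 + ∑ q ∈ S, (1 : ℝ) / q) := by
    unfold hsum
    rw [hAdd, Finset.sum_image, Finset.sum_insert h1S, mul_add, Finset.mul_sum]
    · congr 1
      · push_cast; ring
      · apply Finset.sum_congr rfl
        intro q hq
        have : (0 : ℝ) < q := by exact_mod_cast (hS q hq).pos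
        push_cast
        field_simp
    · intro a _ b _ hab
      exact Nat.eq_of_mul_eq_mul_left (by positivity) hab
  have hrem : hsum (B.filter (fun b => Rm k S b)) ≤
      2 / R + ∑ q ∈ S, 4 * k / (((3 * q : ℕ) : ℝ) ^ (k - 1) * PP k (S.erase q)) := by
    have hsub : B.filter (fun b => Rm k S b) ⊆
        (B.filter (fun b => ∃ j, b = 2 ^ j * R)) ∪
        (S.biUnion (fun q => B.filter (fun b => ∃ x y, b = 2 ^ x * q ^ y * PP k (S.erase q) ∧
          (3 * q) ^ (k - 1) ≤ 2 ^ x * q ^ y))) := by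
      intro b hb
      obtain ⟨hb1, hb2⟩ := Finset.mem_filter.1 hb
      rw [Finset.mem_union, Finset.mem_biUnion]
      rcases hb2 with ⟨j, _, h⟩ | ⟨q, hq, h⟩
      · left; exact Finset.mem_filter.2 ⟨hb1, j, h⟩
      · right; exact ⟨q, hq, Finset.mem_filter.2 ⟨hb1, h⟩⟩
    refine (hsum_mono hsub).trans ((hsum_union_le _ _).trans ?_)
    refine add_le_add (hsum_two_pow R hR _ (fun b hb => (Finset.mem_filter.1 hb).2)) ?_
    refine (hsum_biUnion_le _ _).trans (Finset.sum_le_sum fun q hq => ?_)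
    have hS' : ∀ r ∈ S.erase q, r.Prime := fun r hr => hS r (Finset.mem_of_mem_erase hr)
    have hq3 : 3 ≤ q := by
      have h3 := (hS q hq).two_le
      have h4 : q ≠ 2 := fun e => h2 (e ▸ hq)
      omega
    exact hsum_rem hk hq3 (PP_pos hS') _ (fun b hb => (Finset.mem_filter.1 hb).2)
  rw [hsum'] at hle
  linarith

end Pool.Agent.Helper80.GeoZeta
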