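import Pool.Agent.Helper7.GeoProg.P_A34
import Pool.Agent.Helper80.GeoZeta.Wt

/-!
# MP_f5ac68_nt: an exponential lower bound for `beta k - g_k`
-/

namespace Pool.Agent.Helper80.GeoZeta

open Finset GeoProg Filter Topology

lemma PP_eq_pow (k : ℕ) (S : Finset ℕ) : PP k S = (∏ q ∈ S, q) ^ (k - 2) := by
  rw [PP, prod_pow]

lemma RR_eq_pow (k : ℕ) (S : Finset ℕ) : RR k S = (2 * ∏ q ∈ S, q) ^ (k - 2) := by
  rw [RR, PP_eq_pow, mul_pow]

/-- one removed family relative to the centre -/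
lemma term_eq {k : ℕ} (hk : 3 ≤ k) {S : Finset ℕ} (hS : ∀ q ∈ S, q.Prime) {q : ℕ} (hq : q ∈ S) :
    4 * (k : ℝ) / (((3 * q : ℕ) : ℝ) ^ (k - 1) * PP k (S.erase q)) =
      1 / (RR k S : ℝ) * (4 / 3 * (k * (2 / 3) ^ (k - 2)) * (1 / q)) := by
  have hS' : ∀ r ∈ S.erase q, r.Prime := fun r hr => hS r (mem_of_mem_erase hr)
  have hW : (0 : ℝ) < (PP k (S.erase q) : ℝ) := by exact_mod_cast PP_pos hS'
  have hq0 : (0 : ℝ) < q := by exact_mod_cast (hS q hq).pos
  have hR : (RR k S : ℝ) = 2 ^ (k - 2) * ((q : ℝ) ^ (k - 2) * PP k (S.erase q)) := by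
    rw [RR_eq hq]
    push_cast
    ring
  obtain ⟨j, rfl⟩ : ∃ j, k = j + 2 := ⟨k - 2, by omega⟩
  rw [hR, show j + 2 - 2 = j by omega, show j + 2 - 1 = j + 1 by omega] at *
  push_cast
  rw [mul_pow, div_pow, pow_succ, pow_succ]
  field_simp

/-- The exponential lower bound. -/
theorem lower_exp (g : ℕ → ℝ) (hg : ∀ k, 3 ≤ k → ∀ n, g k ≤ gg k n)
    (hlt : ∀ k, 3 ≤ k → g k < beta k) :
    ∃ M : ℝ, 1 ≤ M ∧ ∀ k, 3 ≤ k → g k + 1 / M ^ k ≤ beta k := by
  classical
  obtain ⟨S, hS', hσ⟩ := exists_primes 3 16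
  have hS : ∀ q ∈ S, q.Prime := fun q hq => (hS' q hq).1
  have h2 : 2 ∉ S := fun h => by
    have := (hS' 2 h).2
    omega
  set σ := ∑ q ∈ S, (1 : ℝ) / q with hσdef
  set D := 2 * ∏ q ∈ S, q with hD
  have hprod : 0 < ∏ q ∈ S, q := prod_pos fun q hq => (hS q hq).pos
  have hD2 : 2 ≤ D := by omega
  have hD' : (2 : ℝ) ≤ D := by exact_mod_cast hD2
  set n := 4 * D + 1 with hn
  have hSn : ∀ q ∈ S, q < n := by
    intro q hq
    have h3 : q ∣ ∏ q ∈ S, q := dvd_prod_of_mem _ hq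
    have h4 := Nat.le_of_dvd hprod h3
    omega
  have hδ := delta_pos' n
  have hδ1 := (stmtS n).2.1
  set δ := delta n with hδdef
  -- the thresholds
  have hlim : Tendsto (fun k : ℕ => 4 / 3 * ((k : ℝ) * (2 / 3) ^ (k - 2))) atTop (𝓝 0) := by
    have h3 := tendsto_self_mul_const_pow_of_lt_one (r := (2 / 3 : ℝ)) (by norm_num) (by norm_num)
    have h4 := h3.const_mul 3
    rw [mul_zero] at h4
    refine h4.congr' ?_
    filter_upwards [eventually_ge_atTop 2] with k hk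
    obtain ⟨j, rfl⟩ : ∃ j, k = j + 2 := ⟨k - 2, by omega⟩
    rw [Nat.add_sub_cancel, pow_add]
    ring
  have hlim2 : Tendsto (fun k : ℕ => (1 / 4 : ℝ) ^ (k - 2)) atTop (𝓝 0) :=
    (tendsto_pow_atTop_nhds_zero_of_lt_one (by norm_num) (by norm_num)).comp
      (tendsto_sub_atTop_nat 2)
  obtain ⟨K, hK⟩ := eventually_atTop.1 ((((tendsto_order.1 hlim).2 (1 / 4) (by norm_num))).and
    ((tendsto_order.1 hlim2).2 (δ / 2) (by linarith)))
  -- large `k`
  have hlarge : ∀ k, 3 ≤ k → K ≤ k → g k + δ / 2 * (1 / (D : ℝ) ^ k) ≤ beta k := by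
    intro k hk hKk
    obtain ⟨hK1, hK2⟩ := hK k hKk
    have hR : (RR k S : ℝ) = (D : ℝ) ^ (k - 2) := by
      rw [RR_eq_pow, ← hD]
      push_cast
      ring
    have hR0 : (0 : ℝ) < (D : ℝ) ^ (k - 2) := by positivity
    have hgain := smooth_gain (n := n) hk hS h2 (by omega) hSn
    have hterm : ∑ q ∈ S, 4 * (k : ℝ) / (((3 * q : ℕ) : ℝ) ^ (k - 1) * PP k (S.erase q)) =
        1 / (RR k S : ℝ) * (4 / 3 * (k * (2 / 3) ^ (k - 2)) * σ) := by
      rw [sum_congr rfl fun q hq => term_eq hk hS hq, ← mul_sum, ← mul_sum]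
    rw [hterm, hR] at hgain
    set w := 1 / (D : ℝ) ^ (k - 2) with hw
    have hw0 : 0 < w := by positivity
    have e1 : 1 / (2 * (D : ℝ) ^ (k - 2)) = 1 / 2 * w := by
      rw [hw]
      field_simp
    have e2 : 2 / (D : ℝ) ^ (k - 2) = 2 * w := by
      rw [hw]
      ring
    rw [e1, e2] at hgain
    set lam := 4 / 3 * ((k : ℝ) * (2 / 3) ^ (k - 2)) with hlam
    have hbr : w ≤ 1 / 2 * w * (1 + σ) - 2 * w - w * (lam * σ) := by
      have h3 : lam * σ ≤ 1 / 4 * σ := mul_le_mul_of_nonneg_right hK1.le (by linarith)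
      have h4 : 1 / 2 * w * (1 + σ) - 2 * w - w * (lam * σ) =
          w * (1 / 2 * (1 + σ) - 2 - lam * σ) := by ring
      rw [h4]
      have h5 : 1 ≤ 1 / 2 * (1 + σ) - 2 - lam * σ := by linarith
      calc w = w * 1 := (mul_one w).symm
        _ ≤ _ := mul_le_mul_of_nonneg_left h5 hw0.le
    have hsh : ∏ p ∈ Nat.primesBelow n, ∑' v, gw k p v + w ≤ smoothHarm k n := by linarith
    have hlow := beta_lower (stmtQ stmtR stmtV1 stmtV2) stmtA3 stmtS
      (stmtB1 stmtD1 (stmtD2 stmtV1 stmtV3)) hk (n := n) (by omega)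
    have hsh1 : δ * smoothHarm k n ≤ 1 := by
      have h3 : smoothHarm k n ≤ δ⁻¹ := by
        refine csSup_le (smoothHarm_nonempty k n (by omega)) ?_
        rintro y ⟨B, hB1, _, rfl⟩
        exact hsum_le_inv stmtS n B hB1
      calc δ * smoothHarm k n ≤ δ * δ⁻¹ := mul_le_mul_of_nonneg_left h3 hδ.le
        _ = 1 := mul_inv_cancel₀ hδ.ne'
    have hsh0 : 0 ≤ δ * smoothHarm k n :=
      mul_nonneg hδ.le (smoothHarm_nonneg stmtS k n (by omega))
    have hk3 : (3 : ℝ) ≤ k := by exact_mod_cast hk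
    have hn1 : (n : ℝ) - 1 = 4 * D := by
      rw [hn]
      push_cast
      ring
    have herr : 1 / (((k : ℝ) - 2) * ((n : ℝ) - 1) ^ (k - 2)) ≤ δ / 2 * w := by
      have h3 : 1 / (((k : ℝ) - 2) * ((n : ℝ) - 1) ^ (k - 2)) ≤ 1 / ((n : ℝ) - 1) ^ (k - 2) := by
        rw [hn1]
        apply one_div_le_one_div_of_le (by positivity)
        have h4 : (0 : ℝ) ≤ (4 * (D : ℝ)) ^ (k - 2) := by positivity
        nlinarith
      refine h3.trans ?_
      have h4 : 1 / ((n : ℝ) - 1) ^ (k - 2) = (1 / 4) ^ (k - 2) * w := by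
        rw [hn1, hw, mul_pow, one_div_pow]
        field_simp
      rw [h4]
      exact mul_le_mul_of_nonneg_right hK2.le hw0.le
    have hmain : δ * smoothHarm k n - δ / 2 * w ≤ beta k := by
      refine le_trans ?_ hlow
      have h3 : 1 / (((k : ℝ) - 2) * ((n : ℝ) - 1) ^ (k - 2)) * (δ * smoothHarm k n) ≤
          δ / 2 * w * 1 := by
        refine mul_le_mul herr hsh1 hsh0 (by positivity)
      linarith
    have hgn := hg k hk n
    rw [gg, ← hδdef] at hgn
    have h5 : δ * (∏ p ∈ Nat.primesBelow n, ∑' v, gw k p v + w) ≤ δ * smoothHarm k n :=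
      mul_le_mul_of_nonneg_left hsh hδ.le
    have h6 : 1 / (D : ℝ) ^ k ≤ w := by
      rw [hw]
      apply one_div_le_one_div_of_le hR0
      exact pow_le_pow_right₀ (by linarith) (by omega)
    have h7 : δ / 2 * (1 / (D : ℝ) ^ k) ≤ δ / 2 * w := mul_le_mul_of_nonneg_left h6 (by linarith)
    rw [mul_add] at h5
    linarith
  -- the constant
  set M1 : ℝ := D * (2 / δ) with hM1
  set M2 : ℝ := 1 + ∑ k ∈ range K, 1 / |beta k - g k| with hM2
  have h2δ : 1 ≤ 2 / δ := by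
    rw [le_div_iff₀ hδ]
    linarith
  have hM1' : 1 ≤ M1 := by
    rw [hM1]
    nlinarith
  have hM2' : 1 ≤ M2 := by
    rw [hM2]
    have : 0 ≤ ∑ k ∈ range K, 1 / |beta k - g k| := sum_nonneg fun _ _ => by positivity
    linarith
  refine ⟨max M1 M2, hM1'.trans (le_max_left _ _), fun k hk => ?_⟩
  by_cases hKk : K ≤ k
  · have h3 := hlarge k hk hKk
    have h4 : 1 / (max M1 M2) ^ k ≤ δ / 2 * (1 / (D : ℝ) ^ k) := by
      have h5 : M1 ^ k ≤ (max M1 M2) ^ k := pow_le_pow_left₀ (by linarith) (le_max_left _ _) k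
      have h6 : (D : ℝ) ^ k * (2 / δ) ≤ M1 ^ k := by
        rw [hM1, mul_pow]
        refine mul_le_mul_of_nonneg_left ?_ (by positivity)
        exact le_self_pow₀ h2δ (by omega)
      have h7 : δ / 2 * (1 / (D : ℝ) ^ k) = 1 / ((D : ℝ) ^ k * (2 / δ)) := by
        field_simp
      rw [h7]
      exact one_div_le_one_div_of_le (by positivity) (h6.trans h5)
    linarith
  · push Not at hKk
    have hpos : 0 < beta k - g k := by
      have := hlt k hk
      linarith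
    have h3 : 1 / |beta k - g k| ≤ ∑ k ∈ range K, 1 / |beta k - g k| :=
      single_le_sum (f := fun k => 1 / |beta k - g k|) (fun _ _ => by positivity)
        (mem_range.2 hKk)
    rw [abs_of_pos hpos] at h3
    have h4 : 1 / (beta k - g k) ≤ max M1 M2 := by
      refine le_trans ?_ (le_max_right _ _)
      rw [hM2]
      linarith
    have h5 : 1 ≤ max M1 M2 := hM1'.trans (le_max_left _ _)
    have h6 : max M1 M2 ≤ (max M1 M2) ^ k := le_self_pow₀ h5 (by omega)
    have h7 : 1 / (max M1 M2) ^ k ≤ beta k - g k := by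
      rw [div_le_iff₀ (by linarith)]
      rw [div_le_iff₀ hpos] at h4
      nlinarith
    linarith

end Pool.Agent.Helper80.GeoZeta
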